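import Pool.Agent.H483.NP.Avoid

set_option autoImplicit false

/-!
# Deformation of the functional equation
-/

namespace Pool.Agent.H483.NP

open Set Filter Topology Complex
open Pool.Agent.H483.FE Pool.Agent.H483.SA Pool.Agent.H483.ZP Pool.Agent.H336R4
open scoped ComplexConjugate

/-- the value at `1` -/
lemma value_one {f : ArithmeticFunction ℂ} (hf : UF.S f) {m : ℕ} {G G' : ℂ → ℂ} (hc : PF.Cont (fun n => f n) m G)
    {a : ℕ → ℂ} (ha : ∀ p, ‖a p‖ ≤ 1) {α : ℝ} (hα : α < 1 / 2)
    (h1 : ∀ s : ℂ, 1 / 2 + α < s.re → LSeriesSummable (cf a) s) (hc' : PF.Cont (fun n => (f * HA a) n) m G') :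
    G' 1 = G 1 * LSeries (cf a) 1 ∧ LSeries (cf a) 1 ≠ 0 := by
  have hab : LSeries.abscissaOfAbsConv (cf a) < ((1:ℂ)).re := by
    have h2 := (h1 (((1 / 2 + α + 1) / 2 : ℝ) : ℂ) (by rw [Complex.ofReal_re]; linarith)).abscissaOfAbsConv_le
    refine lt_of_le_of_lt h2 ?_
    rw [Complex.ofReal_re, Complex.one_re]
    exact_mod_cast (by linarith : (1 / 2 + α + 1) / 2 < 1)
  have hcont : ContinuousAt (LSeries (cf a)) 1 :=
    (LSeries_hasDerivAt hab).continuousAt
  refine ⟨?_, euler_ne ha (by simp) (h1 1 (by simp; linarith))⟩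
  have ht : Tendsto (fun t : ℝ => ((1 + t : ℝ) : ℂ)) (𝓝[>] 0) (𝓝 1) := by
    have h3 : Continuous fun t : ℝ => ((1 + t : ℝ) : ℂ) := by fun_prop
    have h4 := h3.tendsto 0
    simp only [add_zero, Complex.ofReal_one] at h4
    exact h4.mono_left nhdsWithin_le_nhds
  have l1 : Tendsto (fun t : ℝ => G' ((1 + t : ℝ) : ℂ)) (𝓝[>] 0) (𝓝 (G' 1)) :=
    (hc'.1.continuous.tendsto 1).comp ht
  have l2 : Tendsto (fun t : ℝ => G ((1 + t : ℝ) : ℂ) * LSeries (cf a) ((1 + t : ℝ) : ℂ)) (𝓝[>] 0)
      (𝓝 (G 1 * LSeries (cf a) 1)) :=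
    ((hc.1.continuous.tendsto 1).comp ht).mul (hcont.tendsto.comp ht)
  refine tendsto_nhds_unique_of_eventuallyEq l1 l2 ?_
  filter_upwards [self_mem_nhdsWithin] with t ht
  have ht : 0 < t := ht
  have hs : 1 < ((1 + t : ℝ) : ℂ).re := by rw [Complex.ofReal_re]; linarith
  rw [hc'.2.2 _ hs, hc.2.2 _ hs, LS_HA hf ha hs]
  ring

/-- a pole of order `m` at `1` forces at least `m` gamma factors with a pole at `0` -/
theorem zeros_ge {a : ℕ → ℂ} {m : ℕ} {G : ℂ → ℂ} (hc : PF.Cont a m G) {Q : ℝ} (hQ : 0 < Q) {k : ℕ} {lam : Fin k → ℝ}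
    {μ : Fin k → ℂ} {ω : ℂ} (hFE : PF.FE m G Q k lam μ ω) (h1 : G 1 ≠ 0) : m ≤ {j : Fin k | μ j = 0}.ncard := by
  classical
  have hQ0 : (Q : ℂ) ≠ 0 := by exact_mod_cast hQ.ne'
  have hω := hFE.2.2.1
  have hω0 : ω ≠ 0 := by rintro rfl; simp at hω
  set J : Finset (Fin k) := Finset.univ.filter fun j => μ j = 0 with hJ
  have hJc : {j : Fin k | μ j = 0}.ncard = J.card := by
    rw [← Set.ncard_coe_finset, hJ]
    congr 1
    ext j
    simp
  rw [hJc]
  by_contra hlt
  push Not at hlt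
  -- the regular part of the reciprocal gamma factors
  set g : ℂ → ℂ := fun s => ∏ j, (if j ∈ J then (lam j : ℂ) * (Complex.Gamma ((lam j : ℂ) * s + 1))⁻¹ else
    (Complex.Gamma ((lam j : ℂ) * s + μ j))⁻¹) with hg
  have hprod : ∀ s : ℂ, (∏ j, (Complex.Gamma ((lam j : ℂ) * s + μ j))⁻¹) = s ^ J.card * g s := by
    intro s
    have e1 : s ^ J.card = ∏ j : Fin k, if j ∈ J then s else 1 := by
      rw [Finset.prod_ite_mem, Finset.univ_inter, Finset.prod_const]
    rw [e1, hg]
    beta_reduce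
    rw [← Finset.prod_mul_distrib]
    refine Finset.prod_congr rfl fun j _ => ?_
    by_cases hj : j ∈ J
    · rw [if_pos hj, if_pos hj]
      have h0 : μ j = 0 := by rw [hJ] at hj; exact (Finset.mem_filter.1 hj).2
      rw [h0, add_zero]
      by_cases hs : (lam j : ℂ) * s = 0
      · have hl := (hFE.1 j).ne'
        have hs0 : s = 0 := by
          rcases mul_eq_zero.1 hs with h | h
          · exact absurd (by exact_mod_cast h) hl
          · exact h
        rw [hs, hs0, Complex.Gamma_zero]; simp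
      · rw [Complex.Gamma_add_one _ hs, mul_inv]
        have h3 : (lam j : ℂ) * s * ((lam j : ℂ) * s)⁻¹ = 1 := mul_inv_cancel₀ hs
        calc _ = ((lam j : ℂ) * s * ((lam j : ℂ) * s)⁻¹) * (Complex.Gamma ((lam j : ℂ) * s))⁻¹ := by rw [h3, one_mul]
          _ = _ := by ring
    · rw [if_neg hj, if_neg hj, one_mul]
  have hgc : Continuous g := by
    rw [hg]
    apply continuous_finsetProd
    intro j _
    by_cases hj : j ∈ J
    · simp only [if_pos hj]
      exact continuous_const.mul (inv_Gamma_diff (lam j) 1).continuous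
    · simp only [if_neg hj]
      exact (inv_Gamma_diff (lam j) (μ j)).continuous
  have hg0 : g 0 ≠ 0 := by
    rw [hg]
    refine Finset.prod_ne_zero_iff.2 fun j _ => ?_
    by_cases hj : j ∈ J
    · rw [if_pos hj]
      refine mul_ne_zero (by exact_mod_cast (hFE.1 j).ne') (inv_ne_zero ?_)
      rw [mul_zero, zero_add, Complex.Gamma_one]
      exact one_ne_zero
    · rw [if_neg hj]
      apply inv_ne_zero
      rw [mul_zero, zero_add]
      have hμ0 : μ j ≠ 0 := fun h => hj (by rw [hJ]; exact Finset.mem_filter.2 ⟨Finset.mem_univ j, h⟩)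
      apply Complex.Gamma_ne_zero
      intro n hn
      have h3 := congrArg Complex.re hn
      have h4 := hFE.2.1 j
      simp at h3
      have h5 : (0:ℝ) ≤ n := Nat.cast_nonneg n
      have h6 : (n : ℝ) = 0 := by linarith
      have h7 : n = 0 := by exact_mod_cast h6
      rw [h7] at hn
      simp at hn
      exact hμ0 hn
  -- compare at 0
  have hgr : Differentiable ℂ (gr lam μ) := gr_diff lam μ
  set A : ℂ → ℂ := fun s => (Q : ℂ) ^ s * gr lam μ s * G s * s ^ (m - J.card) with hA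
  set B : ℂ → ℂ := fun s => ω * ((-1) ^ m * (Q : ℂ) ^ (1 - s) * g s * (conj (G (1 - conj s)) * (s - 1) ^ m)) with hB
  have hAB : ∀ s : ℂ, s ≠ 0 → A s = B s := by
    intro s hs
    have h3 := PF.fex m G hc.1 Q k lam μ ω hQ hFE s
    rw [hprod s] at h3
    have h4 : (∏ j, (Complex.Gamma ((lam j : ℂ) * (1 - s) + conj (μ j)))⁻¹) = gr lam μ s := by
      unfold gr
      refine Finset.prod_congr rfl fun j _ => ?_
      congr 2
      push_cast
      ring
    rw [h4] at h3
    have h5 : s ^ m = s ^ J.card * s ^ (m - J.card) := by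
      rw [← pow_add]; congr 1; omega
    have h6 : s ^ J.card ≠ 0 := pow_ne_zero _ hs
    apply mul_left_cancel₀ h6
    rw [hA, hB]
    beta_reduce
    calc s ^ J.card * ((Q : ℂ) ^ s * gr lam μ s * G s * s ^ (m - J.card)) =
        (Q : ℂ) ^ s * gr lam μ s * (G s * s ^ m) := by rw [h5]; ring
      _ = _ := by rw [h3]; ring
  have hcp : ∀ b : ℂ, ∀ c : ℂ, Continuous fun s : ℂ => (Q : ℂ) ^ (b * s + c) := by
    intro b c
    have : Differentiable ℂ fun s : ℂ => (Q : ℂ) ^ (b * s + c) := fun s =>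
      DifferentiableAt.const_cpow (by fun_prop) (Or.inl hQ0)
    exact this.continuous
  have hAc : ContinuousAt A 0 := by
    have h3 : Continuous fun s : ℂ => (Q : ℂ) ^ s := by simpa using hcp 1 0
    exact (((h3.mul hgr.continuous).mul hc.1.continuous).mul (continuous_pow _)).continuousAt
  have hBc : ContinuousAt B 0 := by
    have h3 : Continuous fun s : ℂ => (Q : ℂ) ^ (1 - s) := by
      have := hcp (-1) 1
      refine this.congr fun s => ?_
      congr 1; ring
    have h4 : Continuous fun s : ℂ => conj (G (1 - conj s)) := by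
      have := hc.1.continuous
      fun_prop
    have h5 : Continuous fun s : ℂ => (s - 1) ^ m := by fun_prop
    exact (continuous_const.mul (((continuous_const.mul h3).mul hgc).mul (h4.mul h5))).continuousAt
  have hA0 : A 0 = 0 := by
    rw [hA]
    beta_reduce
    rw [zero_pow (by omega), mul_zero]
  have hB0 : B 0 ≠ 0 := by
    rw [hB]
    beta_reduce
    refine mul_ne_zero hω0 (mul_ne_zero (mul_ne_zero (mul_ne_zero (pow_ne_zero _ (by norm_num)) ?_) hg0)
      (mul_ne_zero ?_ (pow_ne_zero _ (by norm_num))))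
    · rw [Ne, Complex.cpow_eq_zero_iff]; tauto
    · rw [map_zero, sub_zero, Ne, map_eq_zero]; exact h1
  have hlim : A 0 = B 0 := by
    have t1 : Tendsto A (𝓝[≠] 0) (𝓝 (A 0)) := hAc.tendsto.mono_left nhdsWithin_le_nhds
    have t2 : Tendsto B (𝓝[≠] 0) (𝓝 (B 0)) := hBc.tendsto.mono_left nhdsWithin_le_nhds
    refine tendsto_nhds_unique_of_eventuallyEq t1 t2 ?_
    filter_upwards [self_mem_nhdsWithin] with s hs
    exact hAB s hs
  exact hB0 (hlim ▸ hA0)

end Pool.Agent.H483.NP
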