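import Pool.Agent.H483.NP.Fin
import Pool.Agent.H483.NP.Def

set_option autoImplicit false

/-!
# Correlations and prescribed functional equations
-/

namespace Pool.Agent.H483.NP

open Filter Topology Complex
open Pool.Agent.H483.SA Pool.Agent.H336R4 Pool.Agent.H483.IP

lemma CR_conj (a b : ArithmeticFunction ℂ) (x : ℝ) : starRingEnd ℂ (CR a b x) = CR b a x := by
  unfold CR
  rw [map_sum]
  refine Finset.sum_congr rfl fun p _ => ?_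
  rw [map_div₀, map_mul, Complex.conj_conj, Complex.conj_natCast]
  ring

lemma ram_HA {f : ArithmeticFunction ℂ} (hf : UF.S f) {a : ℕ → ℂ} (ha : ∀ p, ‖a p‖ ≤ 1) :
    PF.Ram (fun n => (f * HA a) n) := by
  have := Pool.Agent.Y861.SelZ.ram_mul hf.ram (HA_ram ha)
  rw [mul_apply'] at this
  exact this

/-- small Euler products do not change the correlations -/
theorem CR_two {f g : ArithmeticFunction ℂ} (hf : UF.S f) (hg : UF.S g) {a b : ℕ → ℂ} (hb : ∀ p, ‖b p‖ ≤ 1)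
    {α : ℝ} (hα : α < 1 / 2) (ha1 : ∀ s : ℂ, 1 / 2 + α < s.re → LSeriesSummable (cf a) s)
    (hb1 : ∀ s : ℂ, 1 / 2 + α < s.re → LSeriesSummable (cf b) s) :
    ∃ C : ℝ, ∀ x : ℝ, ‖CR (f * HA a) (g * HA b) x - CR f g x‖ ≤ C := by
  obtain ⟨C₁, h1⟩ := corr_HA (σ := (1 / 2 + α + 1) / 2) (by linarith) (ha1 _ (by rw [Complex.ofReal_re]; linarith))
    (ram_HA hg hb)
  obtain ⟨C₂, h2⟩ := corr_HA (σ := (1 / 2 + α + 1) / 2) (by linarith) (hb1 _ (by rw [Complex.ofReal_re]; linarith))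
    hf.ram
  refine ⟨C₁ + C₂, fun x => ?_⟩
  have e1 : CR (f * HA a) (g * HA b) x - CR f g x = CR (HA a) (g * HA b) x + starRingEnd ℂ (CR (HA b) f x) := by
    rw [CR_mul_HA hf.one', ← CR_conj (g * HA b) f, CR_mul_HA hg.one', map_add, CR_conj g f]
    ring
  rw [e1]
  refine (norm_add_le _ _).trans (add_le_add (h1 x) ?_)
  rw [Complex.norm_conj]
  exact h2 x

/-- any functional equation of large degree, for entire functions -/
theorem any_fe {f : ArithmeticFunction ℂ} (hf : UF.S f) {G : ℂ → ℂ} (hc : PF.Cont (fun n => f n) 0 G) {N : ℝ}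
    (hN : 0 < N) {k : ℕ} {l : Fin k → ℝ} {ν : Fin k → ℂ} {ω : ℂ} (hFE : PF.FE 0 G N k l ν ω) {r : ℕ} {lam : Fin r → ℝ}
    {mu : Fin r → ℂ} (hL : ∀ j, 0 < lam j) (hm : ∀ j, 0 ≤ (mu j).re) (h : 2 * ∑ j, l j + 400 / 77 < 2 * ∑ j, lam j) :
    ∃ q₀ : ℝ, 0 < q₀ ∧ ∀ q : ℝ, q₀ ≤ q → ∀ ε : ℂ, ‖ε‖ = 1 → ∃ (a : ℕ → ℂ) (G' : ℂ → ℂ), (∀ p, ‖a p‖ ≤ 1) ∧
      (∀ s : ℂ, 1 / 2 + 77 / 400 < s.re → LSeriesSummable (cf a) s) ∧
      PF.Cont (fun n => (f * HA a) n) 0 G' ∧ PF.FE 0 G' q r lam mu ε := by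
  obtain ⟨Q₀, hQ₀, H⟩ := approx (J := (∅ : Finset (Fin r))) hf hc hN hFE hL hm Finset.card_empty (by simp)
    (α := 77 / 400) (by norm_num) le_rfl (by nlinarith)
  refine ⟨Q₀, hQ₀, fun q hq ε hε => ?_⟩
  obtain ⟨a, G', a1, a2, a3, a4, a5⟩ := H q hq ε hε
  exact ⟨a, G', a2, a3, a4, a5⟩

end Pool.Agent.H483.NP
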