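import Pool.Agent.H483.NP.Mul4

set_option autoImplicit false

/-!
# Avoiding a countable set of elements
-/

namespace Pool.Agent.H483.NP

open Set Filter Topology Complex
open Pool.Agent.H483.FE Pool.Agent.H483.SA Pool.Agent.H483.ZP Pool.Agent.H336R4
open scoped ComplexConjugate

/-- no zeros in the half-plane of absolute convergence -/
lemma LS_ne {f : ArithmeticFunction ℂ} (hf : UF.S f) {s : ℂ} (hs : 1 < s.re) : LSeries (fun n => f n) s ≠ 0 := by
  obtain ⟨-, -, -, b, -, θ, -, C, -, h⟩ := hf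
  rw [h s hs]
  exact Complex.exp_ne_zero _

/-- the continuation is unique up to powers of `s - 1` -/
lemma cont_unique {a : ℕ → ℂ} {m m' : ℕ} {G G' : ℂ → ℂ} (h : PF.Cont a m G) (h' : PF.Cont a m' G') (s : ℂ) :
    (s - 1) ^ m' * G s = (s - 1) ^ m * G' s := by
  have h1 : AnalyticOnNhd ℂ (fun s => (s - 1) ^ m' * G s) univ := fun z _ =>
    (((by fun_prop : Differentiable ℂ fun s : ℂ => (s - 1) ^ m').mul h.1).analyticAt z)
  have h2 : AnalyticOnNhd ℂ (fun s => (s - 1) ^ m * G' s) univ := fun z _ =>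
    (((by fun_prop : Differentiable ℂ fun s : ℂ => (s - 1) ^ m).mul h'.1).analyticAt z)
  have key : (fun s => (s - 1) ^ m' * G s) = (fun s => (s - 1) ^ m * G' s) := by
    refine h1.eq_of_eventuallyEq h2 (z₀ := (3 : ℂ)) ?_
    have ho : IsOpen {z : ℂ | 2 < z.re} := isOpen_lt continuous_const Complex.continuous_re
    have hm : (3 : ℂ) ∈ {z : ℂ | 2 < z.re} := by
      change (2 : ℝ) < (3 : ℂ).re
      norm_num
    filter_upwards [ho.mem_nhds hm] with s hs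
    have hs : 2 < s.re := hs
    rw [h.2.2 s (by linarith), h'.2.2 s (by linarith)]
    ring
  exact congrFun key s

/-- every element other than `1` has a trivial zero -/
theorem trivial_zero {E : ArithmeticFunction ℂ} (hE : UF.S E) (h1 : E ≠ 1) :
    ∃ z : ℂ, z.re < 0 ∧ ∀ (m : ℕ) (G : ℂ → ℂ), PF.Cont (fun n => E n) m G → G z = 0 := by
  obtain ⟨d, e1, e2, ⟨m, G, hc, Q, k, lam, μ, ω, hQ, hFE, hd⟩, e4⟩ := Pool.Agent.H177R3.PFV.ss_cls hE
  have hdeg := UF.degree_ge hE h1 (d := d) ⟨e1, e2, ⟨m, G, hc, Q, k, lam, μ, ω, hQ, hFE, hd⟩, e4⟩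
  have hQ0 : (Q : ℂ) ≠ 0 := by exact_mod_cast hQ.ne'
  have hk : 0 < k := by
    rcases Nat.eq_zero_or_pos k with rfl | h
    · rw [hd] at hdeg; simp at hdeg; linarith
    · exact h
  set j : Fin k := ⟨0, hk⟩
  have hl := hFE.1 j
  have hμ := hFE.2.1 j
  have hl' : (lam j : ℂ) ≠ 0 := by exact_mod_cast hl.ne'
  set z : ℂ := -(μ j + 1) / (lam j : ℂ) with hz
  have hzre : z.re < 0 := by
    rw [hz, Complex.div_ofReal_re]
    apply div_neg_of_neg_of_pos _ hl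
    simp; linarith
  refine ⟨z, hzre, fun m' G' hc' => ?_⟩
  have h3 := PF.fex m G hc.1 Q k lam μ ω hQ hFE z
  have h4 : (∏ j, (Complex.Gamma ((lam j : ℂ) * z + μ j))⁻¹) = 0 := by
    apply Finset.prod_eq_zero (Finset.mem_univ j)
    rw [inv_eq_zero]
    have : (lam j : ℂ) * z + μ j = -((1 : ℕ) : ℂ) := by
      rw [hz]; field_simp; push_cast; ring
    rw [this]
    exact Complex.Gamma_neg_nat_eq_zero 1
  have h5 : (∏ j, (Complex.Gamma ((lam j : ℂ) * (1 - z) + conj (μ j)))⁻¹) ≠ 0 := by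
    refine Finset.prod_ne_zero_iff.2 fun i _ => inv_ne_zero ?_
    apply Complex.Gamma_ne_zero_of_re_pos
    rw [re_arg']
    have := mul_pos (hFE.1 i) (by linarith : 0 < 1 - z.re)
    linarith [hFE.2.1 i]
  have h6 : (Q : ℂ) ^ z ≠ 0 := by rw [Ne, Complex.cpow_eq_zero_iff]; tauto
  have h7 : z ≠ 0 := by intro h; rw [h] at hzre; simp at hzre
  have h7' : z - 1 ≠ 0 := by
    intro h
    have := sub_eq_zero.1 h
    rw [this] at hzre
    norm_num at hzre
  rw [h4] at h3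
  have h8 : G z = 0 := by
    have h9 : (Q : ℂ) ^ z * (∏ j, (Complex.Gamma ((lam j : ℂ) * (1 - z) + conj (μ j)))⁻¹) * (G z * z ^ m) = 0 := by
      rw [h3]; ring
    rcases mul_eq_zero.1 h9 with h | h
    · exact absurd h (mul_ne_zero h6 h5)
    · rcases mul_eq_zero.1 h with h | h
      · exact h
      · exact absurd h (pow_ne_zero _ h7)
  have h10 := cont_unique hc hc' z
  rw [h8, mul_zero] at h10
  rcases mul_eq_zero.1 h10.symm with h | h
  · exact absurd h (pow_ne_zero _ h7')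
  · exact h

/-- location of the zeros to the left -/
theorem zero_loc {f : ArithmeticFunction ℂ} (hf : UF.S f) {m : ℕ} {G : ℂ → ℂ} (hc : PF.Cont (fun n => f n) m G)
    {Q : ℝ} (hQ : 0 < Q) {k : ℕ} {L : ℝ} {ω : ℂ} (hFE : PF.FE m G Q k (fun _ => L) (fun _ => 0) ω)
    {z : ℂ} (hz : z.re < 0) (h0 : G z = 0) : ∃ n : ℕ, (L : ℂ) * z = -(n : ℂ) := by
  have hQ0 : (Q : ℂ) ≠ 0 := by exact_mod_cast hQ.ne'
  have h3 := PF.fex m G hc.1 Q k _ _ ω hQ hFE z
  have hω := hFE.2.2.1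
  have hω0 : ω ≠ 0 := by rintro rfl; simp at hω
  have h7' : z - 1 ≠ 0 := by
    intro h
    have := sub_eq_zero.1 h
    rw [this] at hz
    norm_num at hz
  have hr : 1 < (1 - conj z).re := by simp; linarith
  have h4 : G (1 - conj z) ≠ 0 := by
    rw [hc.2.2 _ hr]
    refine mul_ne_zero (pow_ne_zero _ ?_) (LS_ne hf hr)
    intro h
    have h5 : conj z = 0 := by linear_combination -h
    rw [map_eq_zero] at h5
    rw [h5] at hz
    simp at hz
  rw [h0, zero_mul, mul_zero] at h3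
  have h5 : (∏ _j : Fin k, (Complex.Gamma ((L : ℂ) * z + 0))⁻¹) = 0 := by
    rcases mul_eq_zero.1 h3.symm with h | h
    · exact absurd h hω0
    · rcases mul_eq_zero.1 h with h | h
      · rcases mul_eq_zero.1 h with h | h
        · rcases mul_eq_zero.1 h with h | h
          · exact absurd h (pow_ne_zero _ (by norm_num))
          · rw [Complex.cpow_eq_zero_iff] at h; exact absurd h.1 hQ0
        · exact h
      · refine absurd h (mul_ne_zero ?_ (pow_ne_zero _ h7'))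
        rwa [Ne, map_eq_zero]
  obtain ⟨j, -, hj⟩ := Finset.prod_eq_zero_iff.1 h5
  rw [inv_eq_zero, add_zero, Complex.Gamma_eq_zero_iff] at hj
  exact hj

/-- divisors share the trivial zeros -/
lemma dvd_zero' {f E K : ArithmeticFunction ℂ} (hE : UF.S E) (hK : UF.S K) (he : f = E * K) {m : ℕ} {G : ℂ → ℂ}
    (hc : PF.Cont (fun n => f n) m G) {z : ℂ} (hz : z.re < 0)
    (hz0 : ∀ (m : ℕ) (G : ℂ → ℂ), PF.Cont (fun n => E n) m G → G z = 0) : G z = 0 := by
  obtain ⟨-, -, ⟨m₁, G₁, a1, a2, a3, -⟩, -⟩ := id hE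
  obtain ⟨-, -, ⟨m₂, G₂, b1, b2, b3, -⟩, -⟩ := id hK
  have h1 : PF.Cont (fun n => f n) (m₁ + m₂) (fun s => G₁ s * G₂ s) := by
    refine ⟨a1.mul b1, UF.order_mul a1.continuous b1.continuous a2 b2, fun s hs => ?_⟩
    beta_reduce
    rw [he, UF.LS_mul hE hK hs, a3 s hs, b3 s hs, pow_add]
    ring
  have h2 := cont_unique hc h1 z
  have h3 : G₁ z = 0 := hz0 m₁ G₁ ⟨a1, a2, a3⟩
  beta_reduce at h2
  rw [h3, zero_mul, mul_zero] at h2
  rcases mul_eq_zero.1 h2 with h | h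
  · refine absurd h (pow_ne_zero _ ?_)
    intro h
    have := sub_eq_zero.1 h
    rw [this] at hz
    norm_num at hz
  · exact h

/-- **Avoiding a countable set.** -/
theorem avoid {f : ArithmeticFunction ℂ} {d : ℝ} (hd : PF.Cls (fun n => f n) d) {Ε : Set (ArithmeticFunction ℂ)}
    (hΕ : Ε.Countable) {α : ℝ} (hα0 : 0 < α) (hα : α ≤ 77 / 400) {η : ℝ} (hη : d + 1 / α < η) :
    ∃ (a : ℕ → ℂ) (d' : ℝ), (∀ p, ¬ p.Prime → a p = 0) ∧ (∀ p, ‖a p‖ ≤ 1) ∧
      (∀ s : ℂ, 1 / 2 + α < s.re → LSeriesSummable (cf a) s) ∧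
      PF.Cls (fun n => (f * HA a) n) d' ∧ d' < η ∧
      ∀ E ∈ Ε, UF.S E → E ≠ 1 → ¬ ∃ K, UF.S K ∧ f * HA a = E * K := by
  have hf : UF.S f := Pool.Agent.H177R3.PFV.cls_ss hd
  obtain ⟨-, -, ⟨m, G, hc, Q, k, l, ν, ω, hQ, hFE, hdd⟩, -⟩ := hd
  have hsum0 : 0 ≤ ∑ j, l j := Finset.sum_nonneg fun j _ => (hFE.1 j).le
  have hd0 : 0 ≤ d := by rw [hdd]; linarith
  set M : ℕ := m + 1 with hM
  have hM0 : (0:ℝ) < M := by rw [hM]; positivity
  -- the bad values
  choose! z hz1 hz2 using fun E => fun (h : UF.S E ∧ E ≠ 1) => trivial_zero h.1 h.2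
  set B : Set ℝ := ⋃ E ∈ Ε, ⋃ n : ℕ, {L : ℝ | (L : ℂ) * z E = -(n : ℂ) ∧ (z E) ≠ 0} with hB
  have hBc : B.Countable := by
    rw [hB]
    refine hΕ.biUnion fun E _ => countable_iUnion fun n => ?_
    apply Set.Subsingleton.countable
    rintro x ⟨hx, hx0⟩ y ⟨hy, -⟩
    have : ((x : ℂ)) = y := mul_right_cancel₀ hx0 (hx.trans hy.symm)
    exact_mod_cast this
  have hlt : (d + 1 / α) / (2 * M) < η / (2 * M) := by
    apply div_lt_div_of_pos_right hη; positivity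
  obtain ⟨L, hLB, hL1, hL2⟩ : ∃ L : ℝ, L ∉ B ∧ (d + 1 / α) / (2 * M) < L ∧ L < η / (2 * M) := by
    obtain ⟨L, h1, h2⟩ := (hBc.dense_compl ℝ).inter_open_nonempty (Ioo ((d + 1 / α) / (2 * M)) (η / (2 * M))) isOpen_Ioo
      (nonempty_Ioo.2 hlt)
    exact ⟨L, h2, h1.1, h1.2⟩
  rw [div_lt_iff₀ (by positivity)] at hL1
  rw [lt_div_iff₀ (by positivity)] at hL2
  have hα1 : 0 < 1 / α := by positivity
  have hL0 : 0 < L := by
    by_contra hcon
    push Not at hcon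
    nlinarith
  obtain ⟨J, hJ⟩ : ∃ J : Finset (Fin M), J.card = m := by
    obtain ⟨J, -, hJ⟩ := Finset.exists_subset_card_eq (s := (Finset.univ : Finset (Fin M))) (n := m) (by simp [hM])
    exact ⟨J, hJ⟩
  obtain ⟨Q₀, hQ₀, h⟩ := approx (lam := fun _ : Fin M => L) (mu := fun _ : Fin M => 0) hf hc hQ hFE (fun _ => hL0)
    (fun _ => by simp) hJ (fun _ _ => rfl) hα0 hα (by
      rw [Finset.sum_const, Finset.card_univ, Fintype.card_fin, nsmul_eq_mul]
      have h1 : ((M : ℝ) * L - ∑ j, l j) * (2 * α) = (L * (2 * M) - d) * α := by rw [hdd]; ring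
      rw [h1]
      have h2 : 1 / α < L * (2 * M) - d := by linarith
      rw [div_lt_iff₀ hα0] at h2
      exact h2)
  obtain ⟨a, G', a1, a2, a3, a4, a5⟩ := h Q₀ le_rfl 1 norm_one
  have hcls := mul_S hf a2 a4 hQ₀ a5
  refine ⟨a, _, a1, a2, a3, hcls, ?_, ?_⟩
  · rw [Finset.sum_const, Finset.card_univ, Fintype.card_fin, nsmul_eq_mul]
    linarith
  · rintro E hE hES hE1 ⟨K, hK, he⟩
    have h5 := dvd_zero' hES hK he a4 (hz1 E ⟨hES, hE1⟩) (hz2 E ⟨hES, hE1⟩)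
    obtain ⟨n, hn⟩ := zero_loc (Pool.Agent.H177R3.PFV.cls_ss hcls) a4 hQ₀ a5 (hz1 E ⟨hES, hE1⟩) h5
    apply hLB
    rw [hB]
    refine mem_biUnion hE (mem_iUnion.2 ⟨n, hn, ?_⟩)
    intro h0
    have := hz1 E ⟨hES, hE1⟩
    rw [h0] at this
    simp at this

end Pool.Agent.H483.NP
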