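import Pool.Agent.H483.NP.Mas
import Pool.Agent.H483.NP.Def

set_option autoImplicit false

/-!
# Countable sets of zeros
-/

namespace Pool.Agent.H483.NP

open Set Filter Topology Complex
open Pool.Agent.H483.FE Pool.Agent.H483.SA Pool.Agent.H483.ZP Pool.Agent.H336R4
open scoped ComplexConjugate

variable {r' : ℕ} {l : Fin r' → ℝ} {ν : Fin r' → ℂ}

/-- location of the zeros to the left -/
theorem zero_loc' {f : ArithmeticFunction ℂ} (hf : UF.S f) {m : ℕ} {G : ℂ → ℂ} (hc : PF.Cont (fun n => f n) m G)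
    {Q : ℝ} (hQ : 0 < Q) {ω : ℂ} (hFE : PF.FE m G Q r' l ν ω)
    {z : ℂ} (hz : z.re < 0) (h0 : G z = 0) : ∃ j, ∃ n : ℕ, (l j : ℂ) * z + ν j = -(n : ℂ) := by
  have hQ0 : (Q : ℂ) ≠ 0 := by exact_mod_cast hQ.ne'
  have h3 := PF.fex m G hc.1 Q r' _ _ ω hQ hFE z
  have hω := hFE.2.2.1
  have hω0 : ω ≠ 0 := by rintro rfl; simp at hω
  have h7' : z - 1 ≠ 0 := by
    intro h
    have := sub_eq_zero.1 h
    rw [this] at hz
    norm_num at hz
  have hr : 1 < (1 - conj z).re := by simp; linarith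
  have h4 : G (1 - conj z) ≠ 0 := by
    rw [hc.2.2 _ hr]
    refine mul_ne_zero (pow_ne_zero _ ?_) (LS_ne hf hr)
    intro h
    have h5 : conj z = 0 := by linear_combination -h
    rw [map_eq_zero] at h5
    rw [h5] at hz
    simp at hz
  rw [h0, zero_mul, mul_zero] at h3
  have h5 : (∏ j, (Complex.Gamma ((l j : ℂ) * z + ν j))⁻¹) = 0 := by
    rcases mul_eq_zero.1 h3.symm with h | h
    · exact absurd h hω0
    · rcases mul_eq_zero.1 h with h | h
      · rcases mul_eq_zero.1 h with h | h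
        · rcases mul_eq_zero.1 h with h | h
          · exact absurd h (pow_ne_zero _ (by norm_num))
          · rw [Complex.cpow_eq_zero_iff] at h; exact absurd h.1 hQ0
        · exact h
      · refine absurd h (mul_ne_zero ?_ (pow_ne_zero _ h7'))
        rwa [Ne, map_eq_zero]
  obtain ⟨j, -, hj⟩ := Finset.prod_eq_zero_iff.1 h5
  rw [inv_eq_zero, Complex.Gamma_eq_zero_iff] at hj
  exact ⟨j, hj⟩

/-- the master theorem, for every element -/
theorem master' {f : ArithmeticFunction ℂ} (hf : UF.S f) {m : ℕ} {G : ℂ → ℂ} (hc : PF.Cont (fun n => f n) m G) {Q : ℝ}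
    (hQ : 0 < Q) {ω : ℂ} (hFE : PF.FE m G Q r' l ν ω) {r : ℕ} {lam : Fin r → ℝ} {mu : Fin r → ℂ}
    (hL : ∀ j, 0 < lam j) (hm : ∀ j, 0 ≤ (mu j).re)
    {J : Finset (Fin r)} (hJm : J.card = m) (hJ : ∀ j ∈ J, mu j = 0) {α : ℝ} (hα0 : 0 < α) (hα : α ≤ 77 / 400)
    (h1 : 1 < (∑ j, lam j - ∑ j, l j) * (2 * α)) :
    ∃ Q₀ : ℝ, 0 < Q₀ ∧ ∀ q : ℝ, Q₀ ≤ q → ∀ ω' : ℂ, ‖ω'‖ = 1 → ∃ (a : ℕ → ℂ) (G' : ℂ → ℂ),
      (∀ p, ¬ p.Prime → a p = 0) ∧ (∀ p, ‖a p‖ ≤ 1) ∧ (∀ s : ℂ, 1 / 2 + α < s.re → LSeriesSummable (cf a) s) ∧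
      PF.Cont (fun n => (f * HA a) n) m G' ∧ PF.FE m G' q r lam mu ω' ∧
      ∀ ρ : ℂ, |ρ.re - 1 / 2| < α → G ρ = 0 → G' ρ ≠ 0 := by
  have hs0 : 0 ≤ ∑ j, l j := Finset.sum_nonneg fun j _ => (hFE.1 j).le
  rcases hs0.lt_or_eq with h | h
  · exact master hf hc hQ hFE h hL hm hJm hJ hα0 hα h1
  · obtain ⟨Q₀, hQ₀, H⟩ := approx hf hc hQ hFE hL hm hJm hJ hα0 hα h1
    refine ⟨Q₀, hQ₀, fun q hq ω' hω' => ?_⟩
    obtain ⟨a, G', a1, a2, a3, a4, a5⟩ := H q hq ω' hω'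
    refine ⟨a, G', a1, a2, a3, a4, a5, fun ρ hρ hG => ?_⟩
    exfalso
    have hcls : PF.Cls (fun n => f n) 0 := by
      obtain ⟨e1, e2, -, e4⟩ := id hf
      exact ⟨e1, e2, ⟨m, G, hc, Q, r', l, ν, ω, hQ, hFE, by rw [← h, mul_zero]⟩, e4⟩
    have hf1 : f = 1 := by
      by_contra hne
      have := UF.degree_ge hf hne hcls
      linarith
    have hL1 : ∀ s : ℂ, LSeries (fun n => f n) s = 1 := by
      intro s
      rw [hf1]
      have : LSeries (fun n => (1 : ArithmeticFunction ℂ) n) s = LSeries LSeries.delta s := by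
        refine LSeries_congr (fun {n} hn => ?_) s
        simp [ArithmeticFunction.one_apply, LSeries.delta]
      rw [this, LSeries_delta]
      rfl
    have hc1 : PF.Cont (fun n => f n) 0 (fun _ => 1) := by
      refine ⟨differentiable_const _, ⟨1, 1, fun z => ?_⟩, fun s _ => ?_⟩
      · rw [norm_one, one_mul]
        exact Real.one_le_exp (Real.rpow_nonneg (norm_nonneg _) _)
      · rw [hL1, pow_zero, one_mul]
    have h2 := cont_unique hc hc1 ρ
    rw [hG, mul_zero, mul_one] at h2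
    have h3 : ρ - 1 ≠ 0 := by
      intro h3
      have h4 := sub_eq_zero.1 h3
      rw [h4] at hρ
      have := (abs_lt.1 hρ).2
      norm_num at this
      linarith
    exact pow_ne_zero _ h3 h2.symm

/-- **Avoiding a countable set of points.** -/
theorem count {f : ArithmeticFunction ℂ} (hf : UF.S f) {m : ℕ} {G : ℂ → ℂ} (hc : PF.Cont (fun n => f n) m G) {Q : ℝ}
    (hQ : 0 < Q) {ω : ℂ} (hFE : PF.FE m G Q r' l ν ω) {Z : Set ℂ} (hZ : Z.Countable) {α : ℝ} (hα0 : 0 < α)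
    (hα : α ≤ 77 / 400) {η : ℝ} (hη : 2 * ∑ j, l j + 1 / α < η) :
    ∃ (a : ℕ → ℂ) (G' : ℂ → ℂ) (q L : ℝ), 0 < q ∧ 0 < L ∧ 2 * ((m + 1) * L) < η ∧
      (∀ p, ¬ p.Prime → a p = 0) ∧ (∀ p, ‖a p‖ ≤ 1) ∧ (∀ s : ℂ, 1 / 2 + α < s.re → LSeriesSummable (cf a) s) ∧
      PF.Cont (fun n => (f * HA a) n) m G' ∧ PF.FE m G' q (m + 1) (fun _ => L) (fun _ => 0) 1 ∧
      (∀ ρ : ℂ, |ρ.re - 1 / 2| < α → G ρ = 0 → G' ρ ≠ 0) ∧ ∀ z ∈ Z, z.re < 0 → G' z ≠ 0 := by
  set M : ℕ := m + 1 with hM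
  have hM0 : (0:ℝ) < M := by rw [hM]; positivity
  have hsum0 : 0 ≤ ∑ j, l j := Finset.sum_nonneg fun j _ => (hFE.1 j).le
  set B : Set ℝ := ⋃ z ∈ Z, ⋃ n : ℕ, {L : ℝ | (L : ℂ) * z = -(n : ℂ) ∧ z ≠ 0} with hB
  have hBc : B.Countable := by
    rw [hB]
    refine hZ.biUnion fun E _ => countable_iUnion fun n => ?_
    apply Set.Subsingleton.countable
    rintro x ⟨hx, hx0⟩ y ⟨hy, -⟩
    have : ((x : ℂ)) = y := mul_right_cancel₀ hx0 (hx.trans hy.symm)
    exact_mod_cast this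
  have hlt : (2 * ∑ j, l j + 1 / α) / (2 * M) < η / (2 * M) := by
    apply div_lt_div_of_pos_right hη; positivity
  obtain ⟨L, hLB, hL1, hL2⟩ : ∃ L : ℝ, L ∉ B ∧ (2 * ∑ j, l j + 1 / α) / (2 * M) < L ∧ L < η / (2 * M) := by
    obtain ⟨L, h1, h2⟩ := (hBc.dense_compl ℝ).inter_open_nonempty (Ioo ((2 * ∑ j, l j + 1 / α) / (2 * M)) (η / (2 * M)))
      isOpen_Ioo (nonempty_Ioo.2 hlt)
    exact ⟨L, h2, h1.1, h1.2⟩
  rw [div_lt_iff₀ (by positivity)] at hL1
  rw [lt_div_iff₀ (by positivity)] at hL2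
  have hα1 : 0 < 1 / α := by positivity
  have hL0 : 0 < L := by
    by_contra hcon
    push Not at hcon
    nlinarith
  obtain ⟨J, hJ⟩ : ∃ J : Finset (Fin M), J.card = m := by
    obtain ⟨J, -, hJ⟩ := Finset.exists_subset_card_eq (s := (Finset.univ : Finset (Fin M))) (n := m) (by simp [hM])
    exact ⟨J, hJ⟩
  obtain ⟨Q₀, hQ₀, h⟩ := master' (lam := fun _ : Fin M => L) (mu := fun _ : Fin M => 0) hf hc hQ hFE (fun _ => hL0)
    (fun _ => by simp) hJ (fun _ _ => rfl) hα0 hα (by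
      rw [Finset.sum_const, Finset.card_univ, Fintype.card_fin, nsmul_eq_mul]
      have h1 : ((M : ℝ) * L - ∑ j, l j) * (2 * α) = (L * (2 * M) - 2 * ∑ j, l j) * α := by ring
      rw [h1]
      have h2 : 1 / α < L * (2 * M) - 2 * ∑ j, l j := by linarith
      rw [div_lt_iff₀ hα0] at h2
      exact h2)
  obtain ⟨a, G', a1, a2, a3, a4, a5, a6⟩ := h Q₀ le_rfl 1 norm_one
  have hcls := mul_S hf a2 a4 hQ₀ a5
  refine ⟨a, G', Q₀, L, hQ₀, hL0, ?_, a1, a2, a3, a4, a5, a6, fun z hz hzre hG => ?_⟩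
  · have : ((M : ℕ) : ℝ) = m + 1 := by rw [hM]; push_cast; ring
    rw [this] at hL2
    linarith
  · obtain ⟨n, hn⟩ := zero_loc (Pool.Agent.H177R3.PFV.cls_ss hcls) a4 hQ₀ a5 hzre hG
    apply hLB
    rw [hB]
    refine mem_biUnion hz (mem_iUnion.2 ⟨n, hn, ?_⟩)
    rintro rfl
    simp at hzre

/-- the powers of zeta -/
theorem zeta_pow (m : ℕ) : UF.S (UF.Zt ^ m) ∧ PF.Cont (fun n => (UF.Zt ^ m) n) m (fun s => Pool.Agent.H486R3.PZZ.Z s ^ m) ∧
    ∃ (Q : ℝ) (k : ℕ) (l : Fin k → ℝ) (ν : Fin k → ℂ) (ω : ℂ), 0 < Q ∧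
      PF.FE m (fun s => Pool.Agent.H486R3.PZZ.Z s ^ m) Q k l ν ω ∧ 2 * ∑ j, l j = m := by
  induction m with
  | zero =>
    have hL : ∀ s : ℂ, LSeries (1 : ArithmeticFunction ℂ) s = 1 := by
      intro s
      have : LSeries (1 : ArithmeticFunction ℂ) s = LSeries LSeries.delta s := by
        refine LSeries_congr (fun {n} hn => ?_) s
        simp [ArithmeticFunction.one_apply, LSeries.delta]
      rw [this, LSeries_delta]
      rfl
    simp only [pow_zero]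
    refine ⟨UF.S_one, ⟨differentiable_const _, ⟨1, 1, fun z => ?_⟩, fun s _ => ?_⟩, 1, 0, Fin.elim0, Fin.elim0, 1,
      one_pos, ⟨fun j => j.elim0, fun j => j.elim0, by simp, fun s _ _ => by simp⟩, by simp⟩
    · rw [norm_one, one_mul]
      exact Real.one_le_exp (Real.rpow_nonneg (norm_nonneg _) _)
    · rw [pow_zero, one_mul]
      exact (hL s).symm
  | succ m ih =>
    obtain ⟨h1, h2, Q, k, l, ν, ω, h3, h4, h5⟩ := ih
    have hS : UF.S (UF.Zt ^ (m + 1)) := by rw [pow_succ]; exact h1.mul UF.S.zeta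
    refine ⟨hS, ⟨?_, ?_, fun s hs => ?_⟩, Q * Real.exp (-(1 / 2 * Real.log Real.pi)), k + 1,
      Fin.append l (fun _ => 1 / 2), Fin.append ν (fun _ => 0), ω * 1, mul_pos h3 (Real.exp_pos _), ?_, ?_⟩
    · exact Pool.Agent.H486R3.PZZ.Z_diff.pow _
    · have := UF.order_mul (h2.1.continuous) Pool.Agent.H486R3.PZZ.Z_diff.continuous h2.2.1
        (Pool.Agent.H902R3.PZ.Gr.of Pool.Agent.H486R3.PZZ.Z_growth).order
      obtain ⟨A, C, h⟩ := this
      refine ⟨A, C, fun z => ?_⟩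
      beta_reduce
      rw [pow_succ]
      exact h z
    · have hs1 : s ≠ 1 := by
        rintro rfl
        simp at hs
      have e0 := h2.2.2 s hs
      beta_reduce at e0 ⊢
      rw [pow_succ UF.Zt m, UF.LS_mul h1 UF.S.zeta hs, UF.LS_zeta hs, pow_succ, e0,
        Pool.Agent.H486R3.PZZ.Z_ne hs1, pow_succ]
      ring
    · have := UF.fe_mul h3 (Real.exp_pos _) h4 UF.zeta_fe
      have e : (fun s => Pool.Agent.H486R3.PZZ.Z s ^ (m + 1)) =
          fun s => Pool.Agent.H486R3.PZZ.Z s ^ m * Pool.Agent.H486R3.PZZ.Z s := by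
        funext s; rw [pow_succ]
      rw [e]
      exact this
    · rw [Fin.sum_univ_add]
      simp only [Fin.append_left, Fin.append_right]
      rw [mul_add, h5]
      simp

/-- uniqueness of the continuation -/
lemma uniq {a : ℕ → ℂ} {m m' : ℕ} {G G' : ℂ → ℂ} (h : Differentiable ℂ G)
    (h1 : ∀ s : ℂ, 1 < s.re → G s = (s - 1) ^ m * LSeries a s) (h' : Differentiable ℂ G')
    (h1' : ∀ s : ℂ, 1 < s.re → G' s = (s - 1) ^ m' * LSeries a s) (s : ℂ) :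
    (s - 1) ^ m' * G s = (s - 1) ^ m * G' s := by
  have h3 : AnalyticOnNhd ℂ (fun s => (s - 1) ^ m' * G s) univ := fun z _ =>
    (((by fun_prop : Differentiable ℂ fun s : ℂ => (s - 1) ^ m').mul h).analyticAt z)
  have h4 : AnalyticOnNhd ℂ (fun s => (s - 1) ^ m * G' s) univ := fun z _ =>
    (((by fun_prop : Differentiable ℂ fun s : ℂ => (s - 1) ^ m).mul h').analyticAt z)
  have key : (fun s => (s - 1) ^ m' * G s) = (fun s => (s - 1) ^ m * G' s) := by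
    refine h3.eq_of_eventuallyEq h4 (z₀ := (3 : ℂ)) ?_
    have ho : IsOpen {z : ℂ | 2 < z.re} := isOpen_lt continuous_const Complex.continuous_re
    have hm : (3 : ℂ) ∈ {z : ℂ | 2 < z.re} := by
      change (2 : ℝ) < (3 : ℂ).re
      norm_num
    filter_upwards [ho.mem_nhds hm] with s hs
    have hs : 2 < s.re := hs
    rw [h1 s (by linarith), h1' s (by linarith)]
    ring
  exact congrFun key s

/-- a common zero of an entire quotient -/
lemma quot_zero {a b : ℕ → ℂ} {m n : ℕ} {G GD K : ℂ → ℂ} (h : Differentiable ℂ G)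
    (h1 : ∀ s : ℂ, 1 < s.re → G s = (s - 1) ^ m * LSeries a s) (hD : Differentiable ℂ GD)
    (h2 : ∀ s : ℂ, 1 < s.re → GD s = (s - 1) ^ n * LSeries b s) (hK : Differentiable ℂ K)
    (he : ∀ s : ℂ, 1 < s.re → LSeries a s = LSeries b s * K s) {z : ℂ} (hz : z ≠ 1) (h0 : GD z = 0) : G z = 0 := by
  have h3 := uniq (G' := fun s => GD s * K s) (m' := n) h h1 (hD.mul hK) (fun s hs => by
    beta_reduce
    rw [h2 s hs, he s hs]; ring) z
  beta_reduce at h3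
  rw [h0, zero_mul, mul_zero] at h3
  rcases mul_eq_zero.1 h3 with h | h
  · exact absurd h (pow_ne_zero _ (sub_ne_zero.2 hz))
  · exact h

end Pool.Agent.H483.NP
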