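import Mathlib

set_option autoImplicit false

/-! NP-3: division by `s^m` at `0` (Mathlib only). -/

namespace Pool.Agent.H483.NP
open Complex Filter Topology

/-- The identity `V(s) / Γ(l s + ν) = s^m G(s)` holds everywhere. -/
theorem div_W_id {m : ℕ} {G V : ℂ → ℂ} (hG : Differentiable ℂ G) (hV : Differentiable ℂ V) {l : ℝ}
    (hl : 0 < l) {ν : ℂ} (hν : 0 ≤ ν.re)
    (hVG : ∀ s : ℂ, 0 < s.re → V s = s ^ m * G s * Gamma ((l : ℂ) * s + ν)) (s : ℂ) :
    V s * (Gamma ((l : ℂ) * s + ν))⁻¹ = s ^ m * G s := by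
  have hd1 : Differentiable ℂ (fun s : ℂ => V s * (Gamma ((l : ℂ) * s + ν))⁻¹) := by
    have h2 : Differentiable ℂ (fun s : ℂ => (l : ℂ) * s + ν) := by fun_prop
    exact hV.mul (differentiable_one_div_Gamma.comp h2)
  have hd2 : Differentiable ℂ (fun s : ℂ => s ^ m * G s) := (differentiable_id.pow m).mul hG
  have ha1 : AnalyticOnNhd ℂ (fun s : ℂ => V s * (Gamma ((l : ℂ) * s + ν))⁻¹) Set.univ :=
    fun z _ => hd1.analyticAt z
  have ha2 : AnalyticOnNhd ℂ (fun s : ℂ => s ^ m * G s) Set.univ := fun z _ => hd2.analyticAt z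
  have hev : (fun s : ℂ => V s * (Gamma ((l : ℂ) * s + ν))⁻¹) =ᶠ[𝓝 (1 : ℂ)]
      (fun s : ℂ => s ^ m * G s) := by
    have hop : IsOpen {s : ℂ | 0 < s.re} := isOpen_lt continuous_const continuous_re
    have hmem : (1 : ℂ) ∈ {s : ℂ | 0 < s.re} := by simp
    filter_upwards [hop.mem_nhds hmem] with z hz
    have hz' : 0 < z.re := hz
    have hre : 0 < ((l : ℂ) * z + ν).re := by
      rw [add_re, re_ofReal_mul]
      have := mul_pos hl hz'
      linarith
    have hne : Gamma ((l : ℂ) * z + ν) ≠ 0 := Gamma_ne_zero_of_re_pos hre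
    rw [hVG z hz', mul_assoc, mul_inv_cancel₀ hne, mul_one]
  exact congrFun (ha1.eq_of_eventuallyEq ha2 hev) s

/-- The local form at `0`. -/
theorem div_W_loc {m : ℕ} {G V : ℂ → ℂ} (hG : Differentiable ℂ G) {l L : ℝ} (hl : 0 < l)
    {ν : ℂ} (hν : 0 ≤ ν.re)
    (hid : ∀ s : ℂ, V s * (Gamma ((l : ℂ) * s + ν))⁻¹ = s ^ m * G s) :
    ∃ g : ℂ → ℂ, DifferentiableAt ℂ g 0 ∧
      ∀ᶠ s in 𝓝 (0 : ℂ), V s * (Gamma ((L : ℂ) * s))⁻¹ = s ^ m * g s := by
  have hl0 : (l : ℂ) ≠ 0 := by exact_mod_cast hl.ne'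
  have hLd : Differentiable ℂ (fun s : ℂ => (Gamma ((L : ℂ) * s))⁻¹) := by
    have h2 : Differentiable ℂ (fun s : ℂ => (L : ℂ) * s) := by fun_prop
    exact differentiable_one_div_Gamma.comp h2
  by_cases h0 : ν = 0
  · subst h0
    have hone : ∀ k : ℕ, (1 : ℂ) ≠ -k := by
      intro k h
      have h1 := congrArg re h
      simp at h1
      have h2 : (0 : ℝ) ≤ k := Nat.cast_nonneg k
      linarith
    have hdG : DifferentiableAt ℂ (fun s : ℂ => Gamma ((l : ℂ) * s + 1)) 0 := by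
      have h2 : DifferentiableAt ℂ (fun s : ℂ => (l : ℂ) * s + 1) 0 := by fun_prop
      have h3 : DifferentiableAt ℂ Gamma ((fun s : ℂ => (l : ℂ) * s + 1) 0) := by
        apply differentiableAt_Gamma
        intro k
        simp only [mul_zero, zero_add]
        exact hone k
      exact h3.comp (0 : ℂ) h2
    have hLd1 : Differentiable ℂ (fun s : ℂ => (Gamma ((L : ℂ) * s + 1))⁻¹) := by
      have h2 : Differentiable ℂ (fun s : ℂ => (L : ℂ) * s + 1) := by fun_prop
      exact differentiable_one_div_Gamma.comp h2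
    refine ⟨fun s => (L : ℂ) / l * G s * Gamma ((l : ℂ) * s + 1) * (Gamma ((L : ℂ) * s + 1))⁻¹,
      ?_, ?_⟩
    · exact (((hG 0).const_mul _).mul hdG).mul (hLd1 0)
    · have hne : ∀ᶠ s in 𝓝 (0 : ℂ), Gamma ((l : ℂ) * s + 1) ≠ 0 := by
        apply hdG.continuousAt.eventually_ne
        simp
      filter_upwards [hne] with s hs
      have h1 := hid s
      rw [add_zero, one_div_Gamma_eq_self_mul_one_div_Gamma_add_one] at h1
      have h2 : V s * s = (l : ℂ)⁻¹ * (s ^ m * G s * Gamma ((l : ℂ) * s + 1)) := by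
        have e1 : (l : ℂ)⁻¹ * l = 1 := inv_mul_cancel₀ hl0
        have e2 : (Gamma ((l : ℂ) * s + 1))⁻¹ * Gamma ((l : ℂ) * s + 1) = 1 := inv_mul_cancel₀ hs
        calc V s * s = V s * s * ((l : ℂ)⁻¹ * l) *
              ((Gamma ((l : ℂ) * s + 1))⁻¹ * Gamma ((l : ℂ) * s + 1)) := by rw [e1, e2]; ring
          _ = (l : ℂ)⁻¹ * (V s * ((l : ℂ) * s * (Gamma ((l : ℂ) * s + 1))⁻¹) *
              Gamma ((l : ℂ) * s + 1)) := by ring
          _ = _ := by rw [h1]
      rw [one_div_Gamma_eq_self_mul_one_div_Gamma_add_one ((L : ℂ) * s)]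
      calc V s * ((L : ℂ) * s * (Gamma ((L : ℂ) * s + 1))⁻¹)
          = (L : ℂ) * (V s * s) * (Gamma ((L : ℂ) * s + 1))⁻¹ := by ring
        _ = _ := by rw [h2]; ring
  · have hnu : ∀ k : ℕ, ν ≠ -k := by
      intro k h
      have h1 := congrArg re h
      rw [neg_re, natCast_re] at h1
      have h2 : (0 : ℝ) ≤ k := Nat.cast_nonneg k
      have h3 : (k : ℝ) = 0 := by linarith
      apply h0
      rw [h]
      have h4 : k = 0 := by exact_mod_cast h3
      rw [h4]
      simp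
    have hdG : DifferentiableAt ℂ (fun s : ℂ => Gamma ((l : ℂ) * s + ν)) 0 := by
      have h2 : DifferentiableAt ℂ (fun s : ℂ => (l : ℂ) * s + ν) 0 := by fun_prop
      have h3 : DifferentiableAt ℂ Gamma ((fun s : ℂ => (l : ℂ) * s + ν) 0) := by
        apply differentiableAt_Gamma
        intro k
        simp only [mul_zero, zero_add]
        exact hnu k
      exact h3.comp (0 : ℂ) h2
    refine ⟨fun s => G s * Gamma ((l : ℂ) * s + ν) * (Gamma ((L : ℂ) * s))⁻¹, ?_, ?_⟩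
    · exact ((hG 0).mul hdG).mul (hLd 0)
    · have hne : ∀ᶠ s in 𝓝 (0 : ℂ), Gamma ((l : ℂ) * s + ν) ≠ 0 := by
        apply hdG.continuousAt.eventually_ne
        simp only [mul_zero, zero_add]
        exact Gamma_ne_zero hnu
      filter_upwards [hne] with s hs
      have h1 := hid s
      have h2 : V s = s ^ m * G s * Gamma ((l : ℂ) * s + ν) := by
        rw [← h1, mul_assoc, inv_mul_cancel₀ hs, mul_one]
      rw [h2]
      ring

/-- Paper proof. Put `g₁ s = s Γ(l s + ν)`, analytic at `0` in the sense that there is a function analytic at `0` which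
equals it for `Re s > 0` (for `ν = 0` it is `l⁻¹ Γ(l s + 1)`; for `ν ≠ 0`, `Re ν ≥ 0`, `Γ` is analytic at `ν`).
`s V s = s^m G s g₁ s` near `0` (both sides analytic at `0`, equal for `Re s > 0`; identity theorem
`AnalyticAt.frequently_eq_iff_eventually_eq`). `(Γ(L s))⁻¹ = L s (Γ(L s + 1))⁻¹` for all `s`. Hence near `0`
`V s * (Γ(L s))⁻¹ = s^m * (L G(s) g₁(s) (Γ(L s + 1))⁻¹) =: s^m * g s` with `g` analytic at `0`.
`U s := if s = 0 then g 0 else V s * (Γ(L s))⁻¹ / s^m`. -/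
theorem div_W {m : ℕ} {G V : ℂ → ℂ} (hG : Differentiable ℂ G) (hV : Differentiable ℂ V) {l L : ℝ} (hl : 0 < l)
    (hL : 0 < L) {ν : ℂ} (hν : 0 ≤ ν.re)
    (hVG : ∀ s : ℂ, 0 < s.re → V s = s ^ m * G s * Gamma ((l : ℂ) * s + ν)) :
    ∃ U : ℂ → ℂ, Differentiable ℂ U ∧
      (∀ s : ℂ, s ≠ 0 → U s = V s * (Gamma ((L : ℂ) * s))⁻¹ / s ^ m) ∧
      ∀ s : ℂ, 0 < s.re → U s = G s * Gamma ((l : ℂ) * s + ν) * (Gamma ((L : ℂ) * s))⁻¹ := by
  classical
  obtain ⟨g, hg, hgev⟩ := div_W_loc (L := L) hG hl hν (div_W_id hG hV hl hν hVG)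
  have hLd : Differentiable ℂ (fun s : ℂ => (Gamma ((L : ℂ) * s))⁻¹) := by
    have h2 : Differentiable ℂ (fun s : ℂ => (L : ℂ) * s) := by fun_prop
    exact differentiable_one_div_Gamma.comp h2
  set U : ℂ → ℂ := fun s => if s = 0 then g 0 else V s * (Gamma ((L : ℂ) * s))⁻¹ / s ^ m with hU
  have hUne : ∀ s : ℂ, s ≠ 0 → U s = V s * (Gamma ((L : ℂ) * s))⁻¹ / s ^ m := by
    intro s hs
    rw [hU]
    simp only [if_neg hs]
  refine ⟨U, ?_, hUne, ?_⟩
  · intro s
    by_cases hs : s = 0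
    · subst hs
      have hev : U =ᶠ[𝓝 (0 : ℂ)] g := by
        filter_upwards [hgev] with z hz
        by_cases hz0 : z = 0
        · rw [hz0, hU]
          simp only [if_true]
        · rw [hUne z hz0, hz, mul_div_assoc, mul_comm, div_mul_cancel₀ _ (pow_ne_zero m hz0)]
      exact hg.congr_of_eventuallyEq hev
    · have hev : U =ᶠ[𝓝 s] fun z => V z * (Gamma ((L : ℂ) * z))⁻¹ / z ^ m := by
        filter_upwards [isOpen_ne.mem_nhds hs] with z hz
        exact hUne z hz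
      have hd : DifferentiableAt ℂ (fun z => V z * (Gamma ((L : ℂ) * z))⁻¹ / z ^ m) s :=
        ((hV s).mul (hLd s)).div (differentiableAt_id.pow m) (pow_ne_zero m hs)
      exact hd.congr_of_eventuallyEq hev
  · intro s hs
    have hs0 : s ≠ 0 := by
      rintro rfl
      simp at hs
    rw [hUne s hs0, hVG s hs]
    have h1 : s ^ m ≠ 0 := pow_ne_zero m hs0
    field_simp

end Pool.Agent.H483.NP
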