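import Pool.Agent.H483.NP.Prime

set_option autoImplicit false

/-!
# Correlations
-/

namespace Pool.Agent.H483.NP

open Filter Topology Complex
open Pool.Agent.H483.SA Pool.Agent.H336R4 Pool.Agent.H483.IP

/-- a product by `H` does not change the correlations -/
lemma corr_HA {a : ℕ → ℂ} {σ : ℝ} (hσ : σ < 1) (ha : LSeriesSummable (cf a) (σ : ℂ)) {b : ArithmeticFunction ℂ}
    (hb : PF.Ram (fun n => b n)) : ∃ C : ℝ, ∀ x : ℝ, ‖CR (HA a) b x‖ ≤ C := by
  obtain ⟨B, hB⟩ := hb (1 - σ) (by linarith)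
  have hs : Summable fun n : ℕ => ‖LSeries.term (cf a) (σ : ℂ) n‖ := ha.norm
  refine ⟨|B| * ∑' n, ‖LSeries.term (cf a) (σ : ℂ) n‖, fun x => ?_⟩
  unfold CR
  refine (norm_sum_le _ _).trans ?_
  have h1 : ∀ p ∈ (Finset.Iic ⌊x⌋₊).filter Nat.Prime, ‖HA a p * starRingEnd ℂ (b p) / (p : ℂ)‖ ≤
      |B| * ‖LSeries.term (cf a) (σ : ℂ) p‖ := by
    intro p hp
    have hp' := (Finset.mem_filter.1 hp).2
    have hp0 : (0:ℝ) < p := by exact_mod_cast hp'.pos
    rw [LSeries.norm_term_eq, if_neg hp'.ne_zero, norm_div, norm_mul, Complex.norm_conj, Complex.norm_natCast,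
      Complex.ofReal_re]
    have h2 : ‖b p‖ ≤ |B| * (p : ℝ) ^ (1 - σ) := (hB p hp'.pos).trans
      (mul_le_mul_of_nonneg_right (le_abs_self B) (by positivity))
    have h3 : (p : ℝ) ^ (1 - σ) = p / (p : ℝ) ^ σ := by
      rw [Real.rpow_sub hp0, Real.rpow_one]
    rw [h3] at h2
    have h4 : (HA a) p = cf a p := rfl
    rw [h4, div_le_iff₀ hp0]
    calc ‖cf a p‖ * ‖b p‖ ≤ ‖cf a p‖ * (|B| * (p / (p : ℝ) ^ σ)) := by gcongr
      _ = _ := by ring
  calc _ ≤ ∑ p ∈ (Finset.Iic ⌊x⌋₊).filter Nat.Prime, |B| * ‖LSeries.term (cf a) (σ : ℂ) p‖ := Finset.sum_le_sum h1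
    _ = |B| * ∑ p ∈ (Finset.Iic ⌊x⌋₊).filter Nat.Prime, ‖LSeries.term (cf a) (σ : ℂ) p‖ := by rw [Finset.mul_sum]
    _ ≤ _ := by
      apply mul_le_mul_of_nonneg_left _ (abs_nonneg _)
      exact hs.sum_le_tsum _ fun _ _ => norm_nonneg _

/-- additivity -/
lemma CR_mul_HA {f : ArithmeticFunction ℂ} (hf : f 1 = 1) (a : ℕ → ℂ) (c : ArithmeticFunction ℂ) (x : ℝ) :
    CR (f * HA a) c x = CR f c x + CR (HA a) c x := by
  unfold CR
  rw [← Finset.sum_add_distrib]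
  refine Finset.sum_congr rfl fun p hp => ?_
  have hp' := (Finset.mem_filter.1 hp).2
  have h1 : HA a 1 = 1 := cf_one a
  rw [ArithmeticFunction.mul_apply, Nat.sum_divisorsAntidiagonal (fun x y => f x * HA a y), hp'.sum_divisors]
  simp only [Nat.div_self hp'.pos, Nat.div_one, hf, h1, one_mul, mul_one]
  ring

/-- the correlations of the factors add up -/
lemma CR_left (M : Multiset (ArithmeticFunction ℂ)) (b : ArithmeticFunction ℂ) (x : ℝ) : (∀ a ∈ M, UF.S a) →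
    CR M.prod b x = (M.map fun a => CR a b x).sum := by
  induction M using Multiset.induction_on with
  | empty => intro _; simp [CR_one_left]
  | cons c M ih =>
    intro hM
    have hM' : ∀ q ∈ M, UF.S q := fun q hq => hM q (Multiset.mem_cons_of_mem hq)
    rw [Multiset.prod_cons, Multiset.map_cons, Multiset.sum_cons, ← ih hM',
      CR_mul_left (hM c (Multiset.mem_cons_self c M)) (UF.S.prod hM')]

/-- **Approximation by products of primitive elements outside a countable set.** -/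
theorem main1 {f : ArithmeticFunction ℂ} {d : ℝ} (hd : PF.Cls (fun n => f n) d) {Ε : Set (ArithmeticFunction ℂ)}
    (hΕ : Ε.Countable) {α : ℝ} (hα0 : 0 < α) (hα : α ≤ 77 / 400) :
    ∃ (M : Multiset (ArithmeticFunction ℂ)) (a : ℕ → ℂ), (∀ P ∈ M, UF.P P) ∧ (M.card : ℝ) ≤ d + 1 / α ∧
      (∀ p, ‖a p‖ ≤ 1) ∧ (∀ s : ℂ, 1 / 2 + α < s.re → LSeriesSummable (cf a) s) ∧ M.prod = f * HA a ∧
      (∀ b : ArithmeticFunction ℂ, UF.S b → ∃ C : ℝ, ∀ x : ℝ, ‖(M.map fun P => CR P b x).sum - CR f b x‖ ≤ C) ∧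
      ∀ E ∈ Ε, UF.S E → E ≠ 1 → ¬ ∃ K, UF.S K ∧ M.prod = E * K := by
  have hf : UF.S f := Pool.Agent.H177R3.PFV.cls_ss hd
  obtain ⟨a, d', a1, a2, a3, a4, a5, a6⟩ := avoid hd hΕ hα0 hα (η := (⌊d + 1 / α⌋₊ : ℝ) + 1) (Nat.lt_floor_add_one _)
  have hS := Pool.Agent.H177R3.PFV.cls_ss a4
  obtain ⟨M, m1, m2⟩ := UF.factor (a := f * HA a) hS
  have hcard := card_le M m1 d' (by rw [m2]; exact a4)
  refine ⟨M, a, m1, ?_, a2, a3, m2, ?_, by rw [m2]; exact a6⟩
  · have h1 : (M.card : ℝ) < (⌊d + 1 / α⌋₊ : ℝ) + 1 := lt_of_le_of_lt hcard a5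
    have h2 : M.card < ⌊d + 1 / α⌋₊ + 1 := by exact_mod_cast h1
    have h3 : M.card ≤ ⌊d + 1 / α⌋₊ := by omega
    have hd0 : 0 ≤ d + 1 / α := by
      obtain ⟨-, -, ⟨m, G, hG, Q, k, lam, μ, ω, hQ, hFE, hdd⟩, -⟩ := hd
      have : 0 ≤ ∑ j, lam j := Finset.sum_nonneg fun j _ => (hFE.1 j).le
      have : 0 < 1 / α := by positivity
      rw [hdd]; linarith
    calc (M.card : ℝ) ≤ (⌊d + 1 / α⌋₊ : ℝ) := by exact_mod_cast h3
      _ ≤ _ := Nat.floor_le hd0
  · intro b hb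
    obtain ⟨C, hC⟩ := corr_HA (σ := (1 / 2 + α + 1) / 2) (by linarith) (a3 _ (by rw [Complex.ofReal_re]; linarith)) hb.ram
    refine ⟨C, fun x => ?_⟩
    rw [← CR_left M b x (fun P hP => (m1 P hP).1), m2, CR_mul_HA hf.one', add_sub_cancel_left]
    exact hC x

/-- **Orthogonality fails at every primitive element.** -/
theorem main3 {f : ArithmeticFunction ℂ} {d : ℝ} (hd : PF.Cls (fun n => f n) d) (h1 : f ≠ 1)
    (hunb : ¬ ∃ C : ℝ, ∀ x : ℝ, SF f x ≤ C) {Ε : Set (ArithmeticFunction ℂ)} (hΕ : Ε.Countable) :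
    ∃ P : ArithmeticFunction ℂ, UF.P P ∧ P ∉ Ε ∧ P ≠ f ∧ (∃ᶠ x : ℝ in atTop, SF f x ≤ (d + 6) * ‖CR P f x‖) ∧
      ¬ ∃ C : ℝ, ∀ x : ℝ, ‖CR P f x‖ ≤ C := by
  have hf : UF.S f := Pool.Agent.H177R3.PFV.cls_ss hd
  have hd1 := UF.degree_ge hf h1 hd
  have hΕ' : (insert f Ε).Countable := hΕ.insert f
  obtain ⟨M, a, m1, m2, -, -, m3, m4, m5⟩ := main1 hd hΕ' (α := 77 / 400) (by norm_num) le_rfl
  obtain ⟨C, hC⟩ := m4 f hf
  have hmono : ∀ x y : ℝ, x ≤ y → SF f x ≤ SF f y := by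
    intro x y hxy
    unfold SF
    apply Finset.sum_le_sum_of_subset_of_nonneg
    · apply Finset.filter_subset_filter
      exact Finset.Iic_subset_Iic.2 (Nat.floor_le_floor hxy)
    · intro _ _ _; positivity
  have htend : ∀ K : ℝ, ∀ᶠ x : ℝ in atTop, K < SF f x := by
    intro K
    have : ∃ x : ℝ, K < SF f x := by
      by_contra hcon
      push Not at hcon
      exact hunb ⟨K, hcon⟩
    obtain ⟨x, hx⟩ := this
    filter_upwards [eventually_ge_atTop x] with y hy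
    exact lt_of_lt_of_le hx (hmono x y hy)
  have hK : (M.card : ℝ) ≤ d + 5.2 := by
    refine m2.trans ?_
    norm_num
  -- for every large x some member of M works
  have hev : ∀ᶠ x : ℝ in atTop, ∃ P ∈ M, SF f x ≤ (d + 6) * ‖CR P f x‖ := by
    filter_upwards [htend (|C| * (d + 6) / 0.8), htend |C|] with x hx hx'
    have h2 := hC x
    rw [CR_self] at h2
    have h3 : SF f x - |C| ≤ (M.map fun P => (CR P f x).re).sum := by
      have h4 := (Complex.abs_re_le_norm _).trans h2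
      have h5 : ((M.map fun P => CR P f x).sum).re = (M.map fun P => (CR P f x).re).sum := by
        have := map_multiset_sum Complex.reAddGroupHom (M.map fun P => CR P f x)
        rw [Multiset.map_map] at this
        exact this
      rw [Complex.sub_re, h5, Complex.ofReal_re] at h4
      have h6 := (abs_le.1 h4).1
      have := le_abs_self C
      linarith
    obtain ⟨P, hP, h7⟩ := avg M (fun P => (CR P f x).re) (SF f x - |C|) (by linarith) h3
    refine ⟨P, hP, ?_⟩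
    have h8 : (CR P f x).re ≤ ‖CR P f x‖ := Complex.re_le_norm _
    have h9 : SF f x - |C| ≤ (d + 5.2) * ‖CR P f x‖ := by
      calc _ ≤ M.card * (CR P f x).re := h7
        _ ≤ M.card * ‖CR P f x‖ := by gcongr
        _ ≤ _ := by gcongr
    rw [div_lt_iff₀ (by norm_num)] at hx
    have h10 : (d + 6) * (SF f x - |C|) ≤ (d + 5.2) * ((d + 6) * ‖CR P f x‖) := by
      calc _ ≤ (d + 6) * ((d + 5.2) * ‖CR P f x‖) := mul_le_mul_of_nonneg_left h9 (by linarith)
        _ = _ := by ring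
    have h11 : (d + 5.2) * SF f x ≤ (d + 5.2) * ((d + 6) * ‖CR P f x‖) := by
      refine le_trans ?_ h10
      nlinarith
    exact le_of_mul_le_mul_left h11 (by linarith)
  -- pigeonhole
  classical
  have hfr : ∃ P ∈ M, ∃ᶠ x : ℝ in atTop, SF f x ≤ (d + 6) * ‖CR P f x‖ := by
    by_contra hcon
    push Not at hcon
    have h2 : ∀ᶠ x : ℝ in atTop, ∀ P ∈ M.toFinset, ¬ SF f x ≤ (d + 6) * ‖CR P f x‖ := by
      rw [eventually_all_finset]
      intro P hP
      filter_upwards [hcon P (Multiset.mem_toFinset.1 hP)] with x hx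
      exact not_le.2 hx
    obtain ⟨x, ⟨P, hP, h3⟩, h4⟩ := (hev.and h2).exists
    exact h4 P (Multiset.mem_toFinset.2 hP) h3
  obtain ⟨P, hP, hPf⟩ := hfr
  have hnot : ∀ E ∈ insert f Ε, UF.S E → E ≠ 1 → P ≠ E := by
    rintro E hE hES hE1 rfl
    apply m5 P hE hES hE1
    refine ⟨(M.erase P).prod, UF.S.prod fun p hp' => (m1 p (Multiset.mem_of_mem_erase hp')).1, ?_⟩
    rw [Multiset.prod_erase hP]
  refine ⟨P, m1 P hP, ?_, hnot f (Set.mem_insert _ _) hf h1, hPf, ?_⟩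
  · intro hPE
    exact hnot P (Set.mem_insert_of_mem _ hPE) (m1 P hP).1 (m1 P hP).2.1 rfl
  · rintro ⟨B, hB⟩
    obtain ⟨x, h2, h3⟩ := (hPf.and_eventually (htend ((d + 6) * B))).exists
    have h4 := mul_le_mul_of_nonneg_left (hB x) (by linarith : 0 ≤ d + 6)
    linarith

end Pool.Agent.H483.NP
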