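import Mathlib

set_option autoImplicit false

/-! NP-1: functions of finite order (Mathlib only). Fill in all sorries; keep names and statements. -/

namespace Pool.Agent.H483.NP
open Complex
open scoped ComplexConjugate

/-- finite order -/
def Fo (f : ℂ → ℂ) : Prop := ∃ (C : ℝ) (k : ℕ), 0 ≤ C ∧ ∀ z : ℂ, ‖f z‖ ≤ Real.exp (C * (1 + ‖z‖) ^ k)

private lemma one_le_base (z : ℂ) : 1 ≤ 1 + ‖z‖ := by linarith [norm_nonneg z]

/-- raising the parameters -/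
private lemma expo_mono {C D : ℝ} (hC : 0 ≤ C) (hCD : C ≤ D) {k l : ℕ} (hkl : k ≤ l) {x : ℝ} (hx : 1 ≤ x) :
    C * x ^ k ≤ D * x ^ l := by
  have h1 : x ^ k ≤ x ^ l := pow_le_pow_right₀ hx hkl
  have h2 : 0 ≤ x ^ k := by positivity
  calc C * x ^ k ≤ D * x ^ k := mul_le_mul_of_nonneg_right hCD h2
    _ ≤ D * x ^ l := mul_le_mul_of_nonneg_left h1 (hC.trans hCD)

lemma Fo.mul {f g : ℂ → ℂ} (hf : Fo f) (hg : Fo g) : Fo (fun z => f z * g z) := by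
  obtain ⟨C, k, hC, hf⟩ := hf
  obtain ⟨D, l, hD, hg⟩ := hg
  refine ⟨C + D, max k l, by positivity, fun z => ?_⟩
  have hz := one_le_base z
  rw [norm_mul]
  calc ‖f z‖ * ‖g z‖ ≤ Real.exp (C * (1 + ‖z‖) ^ k) * Real.exp (D * (1 + ‖z‖) ^ l) :=
        mul_le_mul (hf z) (hg z) (norm_nonneg _) (Real.exp_pos _).le
    _ = Real.exp (C * (1 + ‖z‖) ^ k + D * (1 + ‖z‖) ^ l) := (Real.exp_add _ _).symm
    _ ≤ Real.exp ((C + D) * (1 + ‖z‖) ^ (max k l)) := by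
        apply Real.exp_le_exp.mpr
        have h1 := expo_mono hC le_rfl (le_max_left k l) hz
        have h2 := expo_mono hD le_rfl (le_max_right k l) hz
        linarith

lemma Fo.norm_le {f g : ℂ → ℂ} (hf : Fo f) (h : ∀ z, ‖g z‖ ≤ ‖f z‖) : Fo g := by
  obtain ⟨C, k, hC, hf⟩ := hf
  exact ⟨C, k, hC, fun z => (h z).trans (hf z)⟩

lemma Fo.const (c : ℂ) : Fo (fun _ => c) := by
  refine ⟨‖c‖, 0, norm_nonneg _, fun z => ?_⟩
  have := Real.add_one_le_exp (‖c‖ * (1 + ‖z‖) ^ 0)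
  simp only [pow_zero, mul_one] at this ⊢
  linarith

lemma Fo.id : Fo (fun z => z) := by
  refine ⟨1, 1, by norm_num, fun z => ?_⟩
  have := Real.add_one_le_exp (1 * (1 + ‖z‖) ^ 1)
  simp only [pow_one, one_mul] at this ⊢
  linarith

lemma Fo.pow {f : ℂ → ℂ} (hf : Fo f) (m : ℕ) : Fo (fun z => f z ^ m) := by
  induction m with
  | zero => simpa using Fo.const 1
  | succ m ih => simpa [pow_succ] using ih.mul hf

lemma Fo.prod {ι : Type*} (s : Finset ι) {f : ι → ℂ → ℂ} (hf : ∀ i ∈ s, Fo (f i)) : Fo (fun z => ∏ i ∈ s, f i z) := by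
  classical
  induction s using Finset.induction_on with
  | empty => simpa using Fo.const 1
  | insert a s ha ih =>
    have h1 : Fo (f a) := hf a (Finset.mem_insert_self a s)
    have h2 := ih (fun i hi => hf i (Finset.mem_insert_of_mem hi))
    simpa [Finset.prod_insert ha] using h1.mul h2

lemma Fo.piece {f g h : ℂ → ℂ} (hg : Fo g) (hh : Fo h) (H : ∀ z, ‖f z‖ ≤ ‖g z‖ ∨ ‖f z‖ ≤ ‖h z‖) : Fo f := by
  obtain ⟨C, k, hC, hg⟩ := hg
  obtain ⟨D, l, hD, hh⟩ := hh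
  refine ⟨C + D, max k l, by positivity, fun z => ?_⟩
  have hz := one_le_base z
  rcases H z with h1 | h1
  · exact (h1.trans (hg z)).trans (Real.exp_le_exp.mpr (expo_mono hC (by linarith) (le_max_left k l) hz))
  · exact (h1.trans (hh z)).trans (Real.exp_le_exp.mpr (expo_mono hD (by linarith) (le_max_right k l) hz))

/-- composition with `z ↦ u z` where `‖u z‖ ≤ A (1 + ‖z‖)` -/
lemma Fo.comp {f : ℂ → ℂ} {u : ℂ → ℂ} (hf : Fo f) {A : ℝ} (hu : ∀ z, ‖u z‖ ≤ A * (1 + ‖z‖)) : Fo (fun z => f (u z)) := by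
  obtain ⟨C, k, hC, hf⟩ := hf
  have hA : 0 ≤ A := by
    have := (norm_nonneg _).trans (hu 0)
    simpa using this
  refine ⟨C * (1 + A) ^ k, k, by positivity, fun z => (hf (u z)).trans ?_⟩
  apply Real.exp_le_exp.mpr
  rw [mul_assoc, ← mul_pow]
  apply mul_le_mul_of_nonneg_left _ hC
  apply pow_le_pow_left₀ (by linarith [norm_nonneg (u z)])
  have := hu z
  nlinarith [norm_nonneg z]

lemma Fo.cpow {Q : ℝ} (hQ : 0 < Q) (a b : ℂ) : Fo (fun z => (Q : ℂ) ^ (a * z + b)) := by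
  refine ⟨|Real.log Q| * (‖a‖ + ‖b‖), 1, by positivity, fun z => ?_⟩
  rw [Complex.norm_cpow_eq_rpow_re_of_pos hQ, Real.rpow_def_of_pos hQ]
  apply Real.exp_le_exp.mpr
  have h1 : |(a * z + b).re| ≤ ‖a‖ * ‖z‖ + ‖b‖ := by
    calc |(a * z + b).re| ≤ ‖a * z + b‖ := Complex.abs_re_le_norm _
      _ ≤ ‖a * z‖ + ‖b‖ := norm_add_le _ _
      _ = ‖a‖ * ‖z‖ + ‖b‖ := by rw [norm_mul]
  calc Real.log Q * (a * z + b).re ≤ |Real.log Q * (a * z + b).re| := le_abs_self _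
    _ = |Real.log Q| * |(a * z + b).re| := abs_mul _ _
    _ ≤ |Real.log Q| * (‖a‖ * ‖z‖ + ‖b‖) := mul_le_mul_of_nonneg_left h1 (abs_nonneg _)
    _ ≤ |Real.log Q| * (‖a‖ + ‖b‖) * (1 + ‖z‖) ^ 1 := by
        rw [pow_one, mul_assoc]
        apply mul_le_mul_of_nonneg_left _ (abs_nonneg _)
        nlinarith [norm_nonneg z, norm_nonneg a, norm_nonneg b, mul_nonneg (norm_nonneg b) (norm_nonneg z)]

/-- from the usual form of finite order (for continuous `f`; without continuity it is false for `ρ < 0`,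
e.g. `f z = exp (1 / ‖z‖)`) -/
lemma Fo.of_order {f : ℂ → ℂ} (hc : Continuous f) (h : ∃ ρ C : ℝ, ∀ z : ℂ, ‖f z‖ ≤ C * Real.exp (‖z‖ ^ ρ)) : Fo f := by
  obtain ⟨ρ, C, h⟩ := h
  obtain ⟨M, hM⟩ := (isCompact_closedBall (0 : ℂ) 1).exists_bound_of_continuousOn hc.continuousOn
  obtain ⟨k, hk⟩ := exists_nat_ge ρ
  refine ⟨|M| + |C| + 1, k, by positivity, fun z => ?_⟩
  have hz := one_le_base z
  have hp : 1 ≤ (1 + ‖z‖) ^ k := one_le_pow₀ hz
  by_cases hz1 : ‖z‖ ≤ 1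
  · have h1 : ‖f z‖ ≤ M := hM z (by simpa using hz1)
    have h2 := Real.add_one_le_exp ((|M| + |C| + 1) * (1 + ‖z‖) ^ k)
    have h3 : M ≤ |M| := le_abs_self M
    nlinarith [abs_nonneg M, abs_nonneg C]
  · have hz2 : 1 ≤ ‖z‖ := by linarith
    have h1 : ‖z‖ ^ ρ ≤ (1 + ‖z‖) ^ k := by
      calc ‖z‖ ^ ρ ≤ ‖z‖ ^ (k : ℝ) := Real.rpow_le_rpow_of_exponent_le hz2 hk
        _ = ‖z‖ ^ k := Real.rpow_natCast _ _
        _ ≤ (1 + ‖z‖) ^ k := pow_le_pow_left₀ (norm_nonneg z) (by linarith) k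
    have h2 : |C| ≤ Real.exp (|C| * (1 + ‖z‖) ^ k) := by
      have := Real.add_one_le_exp (|C| * (1 + ‖z‖) ^ k)
      nlinarith [abs_nonneg C]
    calc ‖f z‖ ≤ C * Real.exp (‖z‖ ^ ρ) := h z
      _ ≤ |C| * Real.exp (‖z‖ ^ ρ) := mul_le_mul_of_nonneg_right (le_abs_self C) (Real.exp_pos _).le
      _ ≤ Real.exp (|C| * (1 + ‖z‖) ^ k) * Real.exp ((1 + ‖z‖) ^ k) :=
          mul_le_mul h2 (Real.exp_le_exp.mpr h1) (Real.exp_pos _).le (Real.exp_pos _).le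
      _ = Real.exp ((|C| + 1) * (1 + ‖z‖) ^ k) := by rw [← Real.exp_add]; ring_nf
      _ ≤ _ := by
          apply Real.exp_le_exp.mpr
          nlinarith [abs_nonneg M]

/-- variant without continuity, for `ρ ≥ 0` -/
lemma Fo.of_order_nonneg {f : ℂ → ℂ} (h : ∃ ρ C : ℝ, 0 ≤ ρ ∧ ∀ z : ℂ, ‖f z‖ ≤ C * Real.exp (‖z‖ ^ ρ)) : Fo f := by
  obtain ⟨ρ, C, hρ, h⟩ := h
  obtain ⟨k, hk⟩ := exists_nat_ge ρ
  refine ⟨|C| + 1, k, by positivity, fun z => ?_⟩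
  have hz := one_le_base z
  have hp : 1 ≤ (1 + ‖z‖) ^ k := one_le_pow₀ hz
  have h1 : ‖z‖ ^ ρ ≤ (1 + ‖z‖) ^ k := by
    calc ‖z‖ ^ ρ ≤ (1 + ‖z‖) ^ ρ := Real.rpow_le_rpow (norm_nonneg z) (by linarith) hρ
      _ ≤ (1 + ‖z‖) ^ (k : ℝ) := Real.rpow_le_rpow_of_exponent_le hz hk
      _ = (1 + ‖z‖) ^ k := Real.rpow_natCast _ _
  have h2 : |C| ≤ Real.exp (|C| * (1 + ‖z‖) ^ k) := by
    have := Real.add_one_le_exp (|C| * (1 + ‖z‖) ^ k)
    nlinarith [abs_nonneg C]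
  calc ‖f z‖ ≤ C * Real.exp (‖z‖ ^ ρ) := h z
    _ ≤ |C| * Real.exp (‖z‖ ^ ρ) := mul_le_mul_of_nonneg_right (le_abs_self C) (Real.exp_pos _).le
    _ ≤ Real.exp (|C| * (1 + ‖z‖) ^ k) * Real.exp ((1 + ‖z‖) ^ k) :=
        mul_le_mul h2 (Real.exp_le_exp.mpr h1) (Real.exp_pos _).le (Real.exp_pos _).le
    _ = Real.exp ((|C| + 1) * (1 + ‖z‖) ^ k) := by rw [← Real.exp_add]; ring_nf

/-- to the usual form of finite order -/
lemma Fo.order {f : ℂ → ℂ} (hf : Fo f) : ∃ ρ C : ℝ, ∀ z : ℂ, ‖f z‖ ≤ C * Real.exp (‖z‖ ^ ρ) := by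
  obtain ⟨C, k, hC, hf⟩ := hf
  set X : ℝ := C * 2 ^ k + 1 with hX
  refine ⟨((k + 1 : ℕ) : ℝ), Real.exp (C * (1 + X) ^ k), fun z => (hf z).trans ?_⟩
  rw [Real.rpow_natCast, ← Real.exp_add]
  apply Real.exp_le_exp.mpr
  have hX1 : 1 ≤ X := by rw [hX]; have : 0 ≤ C * 2 ^ k := by positivity
                         linarith
  by_cases h : ‖z‖ ≤ X
  · have h1 : (1 + ‖z‖) ^ k ≤ (1 + X) ^ k :=
      pow_le_pow_left₀ (by linarith [norm_nonneg z]) (by linarith) k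
    have h2 : 0 ≤ ‖z‖ ^ (k + 1) := by positivity
    nlinarith [mul_le_mul_of_nonneg_left h1 hC]
  · push Not at h
    have h1 : (1 + ‖z‖) ^ k ≤ (2 * ‖z‖) ^ k :=
      pow_le_pow_left₀ (by linarith [norm_nonneg z]) (by linarith) k
    have h2 : C * (1 + ‖z‖) ^ k ≤ ‖z‖ ^ (k + 1) := by
      calc C * (1 + ‖z‖) ^ k ≤ C * (2 * ‖z‖) ^ k := mul_le_mul_of_nonneg_left h1 hC
        _ = (C * 2 ^ k) * ‖z‖ ^ k := by rw [mul_pow]; ring
        _ ≤ ‖z‖ * ‖z‖ ^ k := by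
            apply mul_le_mul_of_nonneg_right _ (by positivity)
            linarith
        _ = ‖z‖ ^ (k + 1) := by ring
    have h3 : 0 ≤ C * (1 + X) ^ k := by positivity
    linarith

private lemma norm_Gamma_le {w : ℂ} (hw : 0 < w.re) : ‖Complex.Gamma w‖ ≤ Real.Gamma w.re := by
  rw [Complex.Gamma_eq_integral hw, Real.Gamma_eq_integral hw, Complex.GammaIntegral]
  refine (MeasureTheory.norm_integral_le_integral_norm _).trans (le_of_eq ?_)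
  apply MeasureTheory.setIntegral_congr_fun measurableSet_Ioi
  intro t ht
  have ht' : (0 : ℝ) < t := ht
  simp only [norm_mul]
  rw [Complex.norm_real, Real.norm_of_nonneg (Real.exp_pos _).le, Complex.norm_cpow_eq_rpow_re_of_pos ht']
  simp

private lemma Gamma_le_exp {δ x : ℝ} (hδ : 0 < δ) (hx : δ ≤ x) :
    Real.Gamma x ≤ Real.exp ((max (Real.Gamma δ) (Real.Gamma 2) + 1) * (1 + x) ^ 2) := by
  have hM : 0 < max (Real.Gamma δ) (Real.Gamma 2) := lt_max_of_lt_left (Real.Gamma_pos_of_pos hδ)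
  set M := max (Real.Gamma δ) (Real.Gamma 2)
  have hx0 : 0 < x := hδ.trans_le hx
  by_cases h2 : x ≤ 2
  · have h1 : Real.Gamma x ≤ M :=
      Real.convexOn_Gamma.le_max_of_mem_Icc (by simpa using hδ) (by norm_num) ⟨hx, h2⟩
    have h3 := Real.add_one_le_exp ((M + 1) * (1 + x) ^ 2)
    have h4 : (1 : ℝ) ≤ (1 + x) ^ 2 := by nlinarith
    nlinarith
  · push Not at h2
    have hc : x ≤ ⌈x⌉₊ := Nat.le_ceil x
    have hc' : (⌈x⌉₊ : ℝ) < x + 1 := Nat.ceil_lt_add_one hx0.le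
    have h1 : Real.Gamma x ≤ Real.Gamma (⌈x⌉₊ + 1) :=
      Real.Gamma_strictMonoOn_Ici.monotoneOn (by simpa using h2.le)
        (by simp only [Set.mem_Ici]; linarith) (by linarith)
    rw [Real.Gamma_nat_eq_factorial] at h1
    have h3 : ((⌈x⌉₊).factorial : ℝ) ≤ (⌈x⌉₊ : ℝ) ^ ⌈x⌉₊ := by exact_mod_cast Nat.factorial_le_pow _
    have h4 : (⌈x⌉₊ : ℝ) ^ ⌈x⌉₊ ≤ Real.exp ((⌈x⌉₊ : ℝ) * ⌈x⌉₊) := by
      rw [Real.exp_mul, Real.rpow_natCast]
      apply pow_le_pow_left₀ (by positivity)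
      have := Real.add_one_le_exp (⌈x⌉₊ : ℝ)
      linarith
    refine h1.trans (h3.trans (h4.trans (Real.exp_le_exp.mpr ?_)))
    have h5 : (⌈x⌉₊ : ℝ) * ⌈x⌉₊ ≤ (1 + x) ^ 2 := by nlinarith [Nat.cast_nonneg (α := ℝ) ⌈x⌉₊]
    nlinarith [sq_nonneg (1 + x)]

/-- the Gamma function on a right half-plane (cut off on the left); hint: `‖Γ(w)‖ ≤ Γ(Re w)` for `Re w > 0`
(integral), `Γ` is bounded on `[δ, 2]` and `Γ(x) ≤ exp(C (1 + x)^2)` -/
lemma Fo.gamma_right {δ : ℝ} (hδ : 0 < δ) : Fo (fun w : ℂ => if δ ≤ w.re then Complex.Gamma w else 0) := by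
  have hM : 0 < max (Real.Gamma δ) (Real.Gamma 2) := lt_max_of_lt_left (Real.Gamma_pos_of_pos hδ)
  refine ⟨max (Real.Gamma δ) (Real.Gamma 2) + 1, 2, by positivity, fun w => ?_⟩
  by_cases h : δ ≤ w.re
  · simp only [h, if_true]
    have h0 : 0 < w.re := hδ.trans_le h
    refine (norm_Gamma_le h0).trans ((Gamma_le_exp hδ h).trans (Real.exp_le_exp.mpr ?_))
    apply mul_le_mul_of_nonneg_left _ (by positivity)
    apply pow_le_pow_left₀ (by linarith)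
    linarith [Complex.re_le_norm w]
  · simp only [h, if_false, norm_zero]
    exact (Real.exp_pos _).le

end Pool.Agent.H483.NP
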