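import Pool.Agent.H483.NP.Fo
import Pool.Agent.H483.SA.Elem

set_option autoImplicit false

/-! Gluing over two half-planes. -/

namespace Pool.Agent.H483.NP
open Complex
open scoped ComplexConjugate

/-- `1/Γ` has finite order -/
lemma Fo.inv_gamma : Fo (fun w : ℂ => (Complex.Gamma w)⁻¹) := by
  obtain ⟨C, hC, h⟩ := Pool.Agent.H902R3.PZ.Gr.inv_Gamma
  exact ⟨C, 2, hC, h⟩

lemma re_arg {l : ℝ} {u s : ℂ} : ((l : ℂ) * s + u).re = l * s.re + u.re := by
  simp

lemma re_arg' {l : ℝ} {u s : ℂ} : ((l : ℂ) * (1 - s) + conj u).re = l * (1 - s.re) + u.re := by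
  simp

lemma gamma_diff {w : ℂ} (hw : 0 < w.re) : DifferentiableAt ℂ Gamma w := by
  refine differentiableAt_Gamma w fun m h => ?_
  rw [h] at hw
  simp at hw
  have : (0 : ℝ) ≤ m := Nat.cast_nonneg m
  linarith

/-- bound for the affine arguments -/
lemma aff_bound (a b z : ℂ) : ‖a * z + b‖ ≤ (‖a‖ + ‖b‖) * (1 + ‖z‖) := by
  calc ‖a * z + b‖ ≤ ‖a * z‖ + ‖b‖ := norm_add_le _ _
    _ = ‖a‖ * ‖z‖ + ‖b‖ := by rw [norm_mul]
    _ ≤ _ := by
        have h1 := norm_nonneg a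
        have h2 := norm_nonneg b
        have h3 := norm_nonneg z
        nlinarith [mul_nonneg h2 h3]

lemma Fo_aff {f : ℂ → ℂ} (hf : Fo f) (a b : ℂ) : Fo (fun z => f (a * z + b)) :=
  Fo.comp hf (aff_bound a b)

lemma Fo_reflect {G : ℂ → ℂ} (hG : Fo G) : Fo (fun z => conj (G (1 - conj z))) := by
  have h1 : Fo (fun z => G (1 - conj z)) := by
    refine Fo.comp hG (A := 1) fun z => ?_
    rw [one_mul]
    refine (norm_sub_le _ _).trans (le_of_eq ?_)
    rw [norm_one, RCLike.norm_conj]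
  exact h1.norm_le fun z => le_of_eq (RCLike.norm_conj _)

lemma diff_reflect {G : ℂ → ℂ} (hG : Differentiable ℂ G) :
    Differentiable ℂ (fun z => conj (G (1 - conj z))) := by
  have h1 : Differentiable ℂ (fun z => G (1 - z)) :=
    hG.comp (differentiable_const 1 |>.sub differentiable_id)
  intro s
  have h2 : DifferentiableAt ℂ (fun z => G (1 - z)) (conj s) := h1 (conj s)
  have h3 := h2.conj_conj
  rw [conj_conj] at h3
  exact h3

/-- the two pieces agree in the strip -/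
lemma agree {m : ℕ} {G : ℂ → ℂ} {Q : ℝ} (hQ : 0 < Q) {k : ℕ}
    {lam : Fin (k + 1) → ℝ} {μ : Fin (k + 1) → ℂ} {ω : ℂ} (hl : ∀ j, 0 < lam j)
    (hμ : ∀ j, 0 ≤ (μ j).re) {s : ℂ} (hs0 : 0 < s.re) (hs1 : s.re < 1)
    (hfex : (Q : ℂ) ^ s * (∏ j, (Gamma ((lam j : ℂ) * (1 - s) + conj (μ j)))⁻¹) * (G s * s ^ m) =
      ω * ((-1) ^ m * (Q : ℂ) ^ (1 - s) * (∏ j, (Gamma ((lam j : ℂ) * s + μ j))⁻¹)
        * (conj (G (1 - conj s)) * (s - 1) ^ m))) :
    s ^ m * G s * Gamma ((lam 0 : ℂ) * s + μ 0) =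
      ω * (-1) ^ m * (Q : ℂ) ^ (-2 * s + 1) *
        (∏ j, Gamma ((lam j : ℂ) * (1 - s) + conj (μ j))) *
        (∏ j : Fin k, (Gamma ((lam j.succ : ℂ) * s + μ j.succ))⁻¹) *
        conj (G (1 - conj s)) * (s - 1) ^ m := by
  have hQ0 : (Q : ℂ) ≠ 0 := by exact_mod_cast hQ.ne'
  have h1 : ∀ j, Gamma ((lam j : ℂ) * (1 - s) + conj (μ j)) ≠ 0 := by
    intro j
    apply Gamma_ne_zero_of_re_pos
    rw [re_arg']
    have := mul_pos (hl j) (by linarith : 0 < 1 - s.re)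
    have := hμ j
    linarith
  have h2 : Gamma ((lam 0 : ℂ) * s + μ 0) ≠ 0 := by
    apply Gamma_ne_zero_of_re_pos
    rw [re_arg]
    have := mul_pos (hl 0) hs0
    have := hμ 0
    linarith
  have h3 : (∏ j, Gamma ((lam j : ℂ) * (1 - s) + conj (μ j))) *
      (∏ j, (Gamma ((lam j : ℂ) * (1 - s) + conj (μ j)))⁻¹) = 1 := by
    rw [← Finset.prod_mul_distrib]
    exact Finset.prod_eq_one fun j _ => mul_inv_cancel₀ (h1 j)
  have h4 : (Q : ℂ) ^ (-s) * (Q : ℂ) ^ s = 1 := by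
    rw [← cpow_add _ _ hQ0, neg_add_cancel, cpow_zero]
  have h5 : (Q : ℂ) ^ (-s) * (Q : ℂ) ^ (1 - s) = (Q : ℂ) ^ (-2 * s + 1) := by
    rw [← cpow_add _ _ hQ0]
    congr 1
    ring
  have h6 : Gamma ((lam 0 : ℂ) * s + μ 0) * (∏ j, (Gamma ((lam j : ℂ) * s + μ j))⁻¹) =
      ∏ j : Fin k, (Gamma ((lam j.succ : ℂ) * s + μ j.succ))⁻¹ := by
    rw [Fin.prod_univ_succ, ← mul_assoc, mul_inv_cancel₀ h2, one_mul]
  generalize (∏ j, Gamma ((lam j : ℂ) * (1 - s) + conj (μ j))) = A at *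
  generalize (∏ j, (Gamma ((lam j : ℂ) * (1 - s) + conj (μ j)))⁻¹) = A' at *
  generalize (∏ j, (Gamma ((lam j : ℂ) * s + μ j))⁻¹) = B at *
  generalize (∏ j : Fin k, (Gamma ((lam j.succ : ℂ) * s + μ j.succ))⁻¹) = B' at *
  generalize Gamma ((lam 0 : ℂ) * s + μ 0) = g at *
  rw [← h5, ← h6]
  calc s ^ m * G s * g = ((Q : ℂ) ^ (-s) * (Q : ℂ) ^ s) * (A * A') * (s ^ m * G s * g) := by
        rw [h4, h3, one_mul, one_mul]
    _ = (Q : ℂ) ^ (-s) * A * g * ((Q : ℂ) ^ s * A' * (G s * s ^ m)) := by ring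
    _ = _ := by rw [hfex]; ring

/-- Paper proof. For `Re s > 0` put `V₁ s = s^m G(s) Γ(λ₀ s + μ₀)` (holomorphic there). For `Re s < 1` put
`V₂ s = ω (-1)^m Q^{1-2s} (∏_{all j} Γ(λ_j (1-s) + conj μ_j)) (∏_{j ≥ 1} (Γ(λ_j s + μ_j))⁻¹) conj(G(1 - conj s)) (s-1)^m`
(holomorphic there: the arguments `λ_j (1-s) + conj μ_j` have positive real part; `s ↦ conj (G (1 - conj s))` is entire).
By `hfex` they agree for `0 < Re s < 1`. `V s := if 1/2 ≤ Re s then V₁ s else V₂ s`. It equals `V₁` on `Re s > 0` and `V₂` on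
`Re s < 1`, so it is entire; the bounds come from `Fo.gamma_right` (with `δ = λ_j / 2`). -/
theorem ext_V {m : ℕ} {G : ℂ → ℂ} (hG : Differentiable ℂ G) (hGo : Fo G) {Q : ℝ} (hQ : 0 < Q) {k : ℕ}
    {lam : Fin (k + 1) → ℝ} {μ : Fin (k + 1) → ℂ} {ω : ℂ} (hl : ∀ j, 0 < lam j) (hμ : ∀ j, 0 ≤ (μ j).re)
    (hfex : ∀ s : ℂ, (Q : ℂ) ^ s * (∏ j, (Gamma ((lam j : ℂ) * (1 - s) + conj (μ j)))⁻¹) * (G s * s ^ m) =
      ω * ((-1) ^ m * (Q : ℂ) ^ (1 - s) * (∏ j, (Gamma ((lam j : ℂ) * s + μ j))⁻¹)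
        * (conj (G (1 - conj s)) * (s - 1) ^ m))) :
    ∃ V : ℂ → ℂ, Differentiable ℂ V ∧ Fo V ∧
      ∀ s : ℂ, 0 < s.re → V s = s ^ m * G s * Gamma ((lam 0 : ℂ) * s + μ 0) := by
  classical
  obtain ⟨V1, hV1⟩ : ∃ V1 : ℂ → ℂ, ∀ s, V1 s = s ^ m * G s * Gamma ((lam 0 : ℂ) * s + μ 0) :=
    ⟨_, fun _ => rfl⟩
  obtain ⟨V2, hV2⟩ : ∃ V2 : ℂ → ℂ, ∀ s, V2 s = ω * (-1) ^ m * (Q : ℂ) ^ (-2 * s + 1) *
        (∏ j, Gamma ((lam j : ℂ) * (1 - s) + conj (μ j))) *
        (∏ j : Fin k, (Gamma ((lam j.succ : ℂ) * s + μ j.succ))⁻¹) *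
        conj (G (1 - conj s)) * (s - 1) ^ m := ⟨_, fun _ => rfl⟩
  have hag : ∀ s : ℂ, 0 < s.re → s.re < 1 → V1 s = V2 s := by
    intro s h0 h1
    rw [hV1, hV2]
    exact agree hQ hl hμ h0 h1 (hfex s)
  have hQ0 : (Q : ℂ) ≠ 0 := by exact_mod_cast hQ.ne'
  -- differentiability of the pieces
  have hd1 : ∀ s : ℂ, 0 < s.re → DifferentiableAt ℂ V1 s := by
    intro s hs
    have e : V1 = fun s => s ^ m * G s * Gamma ((lam 0 : ℂ) * s + μ 0) := funext hV1
    rw [e]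
    have h1 : 0 < ((lam 0 : ℂ) * s + μ 0).re := by
      rw [re_arg]
      have := mul_pos (hl 0) hs
      have := hμ 0
      linarith
    have h2 : DifferentiableAt ℂ (fun s : ℂ => (lam 0 : ℂ) * s + μ 0) s := by fun_prop
    have h3 : DifferentiableAt ℂ (fun s : ℂ => Gamma ((lam 0 : ℂ) * s + μ 0)) s :=
      DifferentiableAt.comp s (gamma_diff h1) h2
    have h4 : DifferentiableAt ℂ (fun s : ℂ => s ^ m) s := differentiableAt_pow m
    exact (h4.mul (hG s)).mul h3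
  have hd2 : ∀ s : ℂ, s.re < 1 → DifferentiableAt ℂ V2 s := by
    intro s hs
    have e : V2 = fun s => ω * (-1) ^ m * (Q : ℂ) ^ (-2 * s + 1) *
        (∏ j, Gamma ((lam j : ℂ) * (1 - s) + conj (μ j))) *
        (∏ j : Fin k, (Gamma ((lam j.succ : ℂ) * s + μ j.succ))⁻¹) *
        conj (G (1 - conj s)) * (s - 1) ^ m := funext hV2
    rw [e]
    have h1 : DifferentiableAt ℂ (fun s : ℂ => (Q : ℂ) ^ (-2 * s + 1)) s := by
      have h2 : DifferentiableAt ℂ (fun s : ℂ => -2 * s + 1) s := by fun_prop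
      exact h2.const_cpow (Or.inl hQ0)
    have h3 : DifferentiableAt ℂ
        (fun s : ℂ => ∏ j, Gamma ((lam j : ℂ) * (1 - s) + conj (μ j))) s := by
      refine DifferentiableAt.fun_finsetProd fun j _ => ?_
      have h4 : 0 < ((lam j : ℂ) * (1 - s) + conj (μ j)).re := by
        rw [re_arg']
        have := mul_pos (hl j) (by linarith : 0 < 1 - s.re)
        have := hμ j
        linarith
      have h5 : DifferentiableAt ℂ (fun s : ℂ => (lam j : ℂ) * (1 - s) + conj (μ j)) s := by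
        fun_prop
      exact DifferentiableAt.comp s (gamma_diff h4) h5
    have h6 : DifferentiableAt ℂ
        (fun s : ℂ => ∏ j : Fin k, (Gamma ((lam j.succ : ℂ) * s + μ j.succ))⁻¹) s := by
      refine DifferentiableAt.fun_finsetProd fun j _ => ?_
      have h5 : DifferentiableAt ℂ (fun s : ℂ => (lam j.succ : ℂ) * s + μ j.succ) s := by
        fun_prop
      have h9 : DifferentiableAt ℂ (fun w : ℂ => (Gamma w)⁻¹)
          ((lam j.succ : ℂ) * s + μ j.succ) := differentiable_one_div_Gamma _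
      exact DifferentiableAt.comp (g := fun w : ℂ => (Gamma w)⁻¹) s h9 h5
    have h7 := diff_reflect hG s
    have h8 : DifferentiableAt ℂ (fun s : ℂ => (s - 1) ^ m) s := by fun_prop
    exact (((((differentiableAt_const _).mul h1).mul h3).mul h6).mul h7).mul h8
  refine ⟨fun s => if 1 / 2 ≤ s.re then V1 s else V2 s, ?_, ?_, ?_⟩
  · intro s
    rcases lt_or_ge 0 s.re with hs | hs
    · have h1 : (fun s : ℂ => if 1 / 2 ≤ s.re then V1 s else V2 s) =ᶠ[nhds s] V1 := by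
        have h2 : {z : ℂ | 0 < z.re} ∈ nhds s :=
          (isOpen_lt continuous_const continuous_re).mem_nhds hs
        filter_upwards [h2] with z hz
        by_cases h3 : 1 / 2 ≤ z.re
        · simp only [if_pos h3]
        · simp only [if_neg h3]
          exact (hag z hz (by linarith)).symm
      exact (hd1 s hs).congr_of_eventuallyEq h1
    · have h1 : (fun s : ℂ => if 1 / 2 ≤ s.re then V1 s else V2 s) =ᶠ[nhds s] V2 := by
        have h2 : {z : ℂ | z.re < 1} ∈ nhds s :=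
          (isOpen_lt continuous_re continuous_const).mem_nhds (by
            show s.re < 1
            linarith)
        filter_upwards [h2] with z hz
        by_cases h3 : 1 / 2 ≤ z.re
        · simp only [if_pos h3]
          exact hag z (by linarith) hz
        · simp only [if_neg h3]
      exact (hd2 s (by linarith)).congr_of_eventuallyEq h1
  · -- finite order
    have hg1 : Fo (fun z : ℂ => z ^ m * G z *
        (fun w : ℂ => if lam 0 / 2 ≤ w.re then Complex.Gamma w else 0) ((lam 0 : ℂ) * z + μ 0)) :=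
      ((Fo.id.pow m).mul hGo).mul (Fo_aff (Fo.gamma_right (half_pos (hl 0))) _ _)
    have hg2 : Fo (fun z : ℂ => ω * (-1) ^ m * (Q : ℂ) ^ (-2 * z + 1) *
        (∏ j, (fun w : ℂ => if lam j / 2 ≤ w.re then Complex.Gamma w else 0)
          (-(lam j : ℂ) * z + ((lam j : ℂ) + conj (μ j)))) *
        (∏ j : Fin k, (Gamma ((lam j.succ : ℂ) * z + μ j.succ))⁻¹) *
        conj (G (1 - conj z)) * (1 * z + (-1)) ^ m) := by
      refine Fo.mul (Fo.mul (Fo.mul (Fo.mul (Fo.mul (Fo.const _) (Fo.cpow hQ _ _)) ?_) ?_)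
        (Fo_reflect hGo)) ((Fo_aff Fo.id 1 (-1)).pow m)
      · exact Fo.prod _ fun j _ => Fo_aff (Fo.gamma_right (half_pos (hl j))) _ _
      · exact Fo.prod _ fun j _ => Fo_aff Fo.inv_gamma _ _
    refine hg1.piece hg2 fun z => ?_
    by_cases h3 : 1 / 2 ≤ z.re
    · left
      simp only [if_pos h3]
      have h4 : lam 0 / 2 ≤ ((lam 0 : ℂ) * z + μ 0).re := by
        rw [re_arg]
        have := mul_le_mul_of_nonneg_left h3 (hl 0).le
        have := hμ 0
        linarith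
      rw [if_pos h4, hV1]
    · right
      simp only [if_neg h3]
      have h4 : ∀ j, (if lam j / 2 ≤ (-(lam j : ℂ) * z + ((lam j : ℂ) + conj (μ j))).re then
          Complex.Gamma (-(lam j : ℂ) * z + ((lam j : ℂ) + conj (μ j))) else 0) =
          Gamma ((lam j : ℂ) * (1 - z) + conj (μ j)) := by
        intro j
        have h5 : -(lam j : ℂ) * z + ((lam j : ℂ) + conj (μ j)) =
            (lam j : ℂ) * (1 - z) + conj (μ j) := by ring
        rw [h5, if_pos]
        rw [re_arg']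
        have := mul_le_mul_of_nonneg_left (by linarith : (1 / 2 : ℝ) ≤ 1 - z.re) (hl j).le
        have := hμ j
        linarith
      rw [hV2, Finset.prod_congr rfl fun j _ => h4 j, one_mul, ← sub_eq_add_neg]
  · intro s hs
    by_cases h3 : 1 / 2 ≤ s.re
    · simp only [if_pos h3]
      exact hV1 s
    · simp only [if_neg h3]
      rw [← hag s hs (by linarith)]
      exact hV1 s


end Pool.Agent.H483.NP
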