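import Pool.Agent.H483.NP.Glue

set_option autoImplicit false

/-! The entire completed function. -/

namespace Pool.Agent.H483.NP
open Complex
open scoped ComplexConjugate

/-- the two pieces agree in the strip -/
lemma agree2 {m : ℕ} {G : ℂ → ℂ} {Q : ℝ} (hQ : 0 < Q) {k : ℕ}
    {lam : Fin k → ℝ} {μ : Fin k → ℂ} {ω : ℂ} (hl : ∀ j, 0 < lam j)
    (hμ : ∀ j, 0 ≤ (μ j).re) {s : ℂ} (hs0 : 0 < s.re) (hs1 : s.re < 1)
    (hfex : (Q : ℂ) ^ s * (∏ j, (Gamma ((lam j : ℂ) * (1 - s) + conj (μ j)))⁻¹) * (G s * s ^ m) =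
      ω * ((-1) ^ m * (Q : ℂ) ^ (1 - s) * (∏ j, (Gamma ((lam j : ℂ) * s + μ j))⁻¹)
        * (conj (G (1 - conj s)) * (s - 1) ^ m))) :
    s ^ m * G s * (∏ j, Gamma ((lam j : ℂ) * s + μ j)) =
      ω * (-1) ^ m * (Q : ℂ) ^ (-2 * s + 1) *
        (∏ j, Gamma ((lam j : ℂ) * (1 - s) + conj (μ j))) *
        conj (G (1 - conj s)) * (s - 1) ^ m := by
  have hQ0 : (Q : ℂ) ≠ 0 := by exact_mod_cast hQ.ne'
  have h1 : ∀ j, Gamma ((lam j : ℂ) * (1 - s) + conj (μ j)) ≠ 0 := by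
    intro j
    apply Gamma_ne_zero_of_re_pos
    rw [re_arg']
    have := mul_pos (hl j) (by linarith : 0 < 1 - s.re)
    have := hμ j
    linarith
  have h2 : ∀ j, Gamma ((lam j : ℂ) * s + μ j) ≠ 0 := by
    intro j
    apply Gamma_ne_zero_of_re_pos
    rw [re_arg]
    have := mul_pos (hl j) hs0
    have := hμ j
    linarith
  have h3 : (∏ j, Gamma ((lam j : ℂ) * (1 - s) + conj (μ j))) *
      (∏ j, (Gamma ((lam j : ℂ) * (1 - s) + conj (μ j)))⁻¹) = 1 := by
    rw [← Finset.prod_mul_distrib]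
    exact Finset.prod_eq_one fun j _ => mul_inv_cancel₀ (h1 j)
  have h4 : (Q : ℂ) ^ (-s) * (Q : ℂ) ^ s = 1 := by
    rw [← cpow_add _ _ hQ0, neg_add_cancel, cpow_zero]
  have h5 : (Q : ℂ) ^ (-s) * (Q : ℂ) ^ (1 - s) = (Q : ℂ) ^ (-2 * s + 1) := by
    rw [← cpow_add _ _ hQ0]
    congr 1
    ring
  have h6 : (∏ j, Gamma ((lam j : ℂ) * s + μ j)) * (∏ j, (Gamma ((lam j : ℂ) * s + μ j))⁻¹) = 1 := by
    rw [← Finset.prod_mul_distrib]
    exact Finset.prod_eq_one fun j _ => mul_inv_cancel₀ (h2 j)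
  generalize (∏ j, Gamma ((lam j : ℂ) * (1 - s) + conj (μ j))) = A at *
  generalize (∏ j, (Gamma ((lam j : ℂ) * (1 - s) + conj (μ j)))⁻¹) = A' at *
  generalize (∏ j, (Gamma ((lam j : ℂ) * s + μ j))⁻¹) = B at *
  generalize (∏ j, Gamma ((lam j : ℂ) * s + μ j)) = g at *
  rw [← h5]
  calc s ^ m * G s * g = ((Q : ℂ) ^ (-s) * (Q : ℂ) ^ s) * (A * A') * (s ^ m * G s * g) := by
        rw [h4, h3, one_mul, one_mul]
    _ = (Q : ℂ) ^ (-s) * A * g * ((Q : ℂ) ^ s * A' * (G s * s ^ m)) := by ring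
    _ = (g * B) * (ω * (-1) ^ m * ((Q : ℂ) ^ (-s) * (Q : ℂ) ^ (1 - s)) * A * conj (G (1 - conj s)) * (s - 1) ^ m) := by
        rw [hfex]; ring
    _ = _ := by rw [h6]; ring

/-- The entire function `s^m G(s) ∏ Γ(λ_j s + μ_j)`. -/
theorem ext_full {m : ℕ} {G : ℂ → ℂ} (hG : Differentiable ℂ G) (hGo : Fo G) {Q : ℝ} (hQ : 0 < Q) {k : ℕ}
    {lam : Fin k → ℝ} {μ : Fin k → ℂ} {ω : ℂ} (hl : ∀ j, 0 < lam j) (hμ : ∀ j, 0 ≤ (μ j).re)
    (hfex : ∀ s : ℂ, (Q : ℂ) ^ s * (∏ j, (Gamma ((lam j : ℂ) * (1 - s) + conj (μ j)))⁻¹) * (G s * s ^ m) =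
      ω * ((-1) ^ m * (Q : ℂ) ^ (1 - s) * (∏ j, (Gamma ((lam j : ℂ) * s + μ j))⁻¹)
        * (conj (G (1 - conj s)) * (s - 1) ^ m))) :
    ∃ V : ℂ → ℂ, Differentiable ℂ V ∧ Fo V ∧
      ∀ s : ℂ, 0 < s.re → V s = s ^ m * G s * (∏ j, Gamma ((lam j : ℂ) * s + μ j)) := by
  classical
  obtain ⟨V1, hV1⟩ : ∃ V1 : ℂ → ℂ, ∀ s, V1 s = s ^ m * G s * (∏ j, Gamma ((lam j : ℂ) * s + μ j)) :=
    ⟨_, fun _ => rfl⟩
  obtain ⟨V2, hV2⟩ : ∃ V2 : ℂ → ℂ, ∀ s, V2 s = ω * (-1) ^ m * (Q : ℂ) ^ (-2 * s + 1) *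
        (∏ j, Gamma ((lam j : ℂ) * (1 - s) + conj (μ j))) *
        conj (G (1 - conj s)) * (s - 1) ^ m := ⟨_, fun _ => rfl⟩
  have hag : ∀ s : ℂ, 0 < s.re → s.re < 1 → V1 s = V2 s := by
    intro s h0 h1
    rw [hV1, hV2]
    exact agree2 hQ hl hμ h0 h1 (hfex s)
  have hQ0 : (Q : ℂ) ≠ 0 := by exact_mod_cast hQ.ne'
  -- differentiability of the pieces
  have hd1 : ∀ s : ℂ, 0 < s.re → DifferentiableAt ℂ V1 s := by
    intro s hs
    have e : V1 = fun s => s ^ m * G s * (∏ j, Gamma ((lam j : ℂ) * s + μ j)) := funext hV1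
    rw [e]
    have h3 : DifferentiableAt ℂ (fun s : ℂ => ∏ j, Gamma ((lam j : ℂ) * s + μ j)) s := by
      refine DifferentiableAt.fun_finsetProd fun j _ => ?_
      have h1 : 0 < ((lam j : ℂ) * s + μ j).re := by
        rw [re_arg]
        have := mul_pos (hl j) hs
        have := hμ j
        linarith
      have h2 : DifferentiableAt ℂ (fun s : ℂ => (lam j : ℂ) * s + μ j) s := by fun_prop
      exact DifferentiableAt.comp s (gamma_diff h1) h2
    have h4 : DifferentiableAt ℂ (fun s : ℂ => s ^ m) s := differentiableAt_pow m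
    exact (h4.mul (hG s)).mul h3
  have hd2 : ∀ s : ℂ, s.re < 1 → DifferentiableAt ℂ V2 s := by
    intro s hs
    have e : V2 = fun s => ω * (-1) ^ m * (Q : ℂ) ^ (-2 * s + 1) *
        (∏ j, Gamma ((lam j : ℂ) * (1 - s) + conj (μ j))) *
        conj (G (1 - conj s)) * (s - 1) ^ m := funext hV2
    rw [e]
    have h1 : DifferentiableAt ℂ (fun s : ℂ => (Q : ℂ) ^ (-2 * s + 1)) s := by
      have h2 : DifferentiableAt ℂ (fun s : ℂ => -2 * s + 1) s := by fun_prop
      exact h2.const_cpow (Or.inl hQ0)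
    have h3 : DifferentiableAt ℂ
        (fun s : ℂ => ∏ j, Gamma ((lam j : ℂ) * (1 - s) + conj (μ j))) s := by
      refine DifferentiableAt.fun_finsetProd fun j _ => ?_
      have h4 : 0 < ((lam j : ℂ) * (1 - s) + conj (μ j)).re := by
        rw [re_arg']
        have := mul_pos (hl j) (by linarith : 0 < 1 - s.re)
        have := hμ j
        linarith
      have h5 : DifferentiableAt ℂ (fun s : ℂ => (lam j : ℂ) * (1 - s) + conj (μ j)) s := by
        fun_prop
      exact DifferentiableAt.comp s (gamma_diff h4) h5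
    have h7 := diff_reflect hG s
    have h8 : DifferentiableAt ℂ (fun s : ℂ => (s - 1) ^ m) s := by fun_prop
    exact ((((differentiableAt_const _).mul h1).mul h3).mul h7).mul h8
  refine ⟨fun s => if 1 / 2 ≤ s.re then V1 s else V2 s, ?_, ?_, ?_⟩
  · intro s
    rcases lt_or_ge 0 s.re with hs | hs
    · have h1 : (fun s : ℂ => if 1 / 2 ≤ s.re then V1 s else V2 s) =ᶠ[nhds s] V1 := by
        have h2 : {z : ℂ | 0 < z.re} ∈ nhds s :=
          (isOpen_lt continuous_const continuous_re).mem_nhds hs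
        filter_upwards [h2] with z hz
        by_cases h3 : 1 / 2 ≤ z.re
        · simp only [if_pos h3]
        · simp only [if_neg h3]
          exact (hag z hz (by linarith)).symm
      exact (hd1 s hs).congr_of_eventuallyEq h1
    · have h1 : (fun s : ℂ => if 1 / 2 ≤ s.re then V1 s else V2 s) =ᶠ[nhds s] V2 := by
        have h2 : {z : ℂ | z.re < 1} ∈ nhds s :=
          (isOpen_lt continuous_re continuous_const).mem_nhds (by
            show s.re < 1
            linarith)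
        filter_upwards [h2] with z hz
        by_cases h3 : 1 / 2 ≤ z.re
        · simp only [if_pos h3]
          exact hag z (by linarith) hz
        · simp only [if_neg h3]
      exact (hd2 s (by linarith)).congr_of_eventuallyEq h1
  · -- finite order
    have hg1 : Fo (fun z : ℂ => z ^ m * G z *
        (∏ j, (fun w : ℂ => if lam j / 2 ≤ w.re then Complex.Gamma w else 0) ((lam j : ℂ) * z + μ j))) :=
      ((Fo.id.pow m).mul hGo).mul (Fo.prod _ fun j _ => Fo_aff (Fo.gamma_right (half_pos (hl j))) _ _)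
    have hg2 : Fo (fun z : ℂ => ω * (-1) ^ m * (Q : ℂ) ^ (-2 * z + 1) *
        (∏ j, (fun w : ℂ => if lam j / 2 ≤ w.re then Complex.Gamma w else 0)
          (-(lam j : ℂ) * z + ((lam j : ℂ) + conj (μ j)))) *
        conj (G (1 - conj z)) * (1 * z + (-1)) ^ m) := by
      refine Fo.mul (Fo.mul (Fo.mul (Fo.mul (Fo.const _) (Fo.cpow hQ _ _)) ?_)
        (Fo_reflect hGo)) ((Fo_aff Fo.id 1 (-1)).pow m)
      exact Fo.prod _ fun j _ => Fo_aff (Fo.gamma_right (half_pos (hl j))) _ _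
    refine hg1.piece hg2 fun z => ?_
    by_cases h3 : 1 / 2 ≤ z.re
    · left
      simp only [if_pos h3]
      have h4 : ∀ j, (if lam j / 2 ≤ ((lam j : ℂ) * z + μ j).re then
          Complex.Gamma ((lam j : ℂ) * z + μ j) else 0) = Gamma ((lam j : ℂ) * z + μ j) := by
        intro j
        rw [if_pos]
        rw [re_arg]
        have := mul_le_mul_of_nonneg_left h3 (hl j).le
        have := hμ j
        linarith
      rw [Finset.prod_congr rfl fun j _ => h4 j, hV1]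
    · right
      simp only [if_neg h3]
      have h4 : ∀ j, (if lam j / 2 ≤ (-(lam j : ℂ) * z + ((lam j : ℂ) + conj (μ j))).re then
          Complex.Gamma (-(lam j : ℂ) * z + ((lam j : ℂ) + conj (μ j))) else 0) =
          Gamma ((lam j : ℂ) * (1 - z) + conj (μ j)) := by
        intro j
        have h5 : -(lam j : ℂ) * z + ((lam j : ℂ) + conj (μ j)) =
            (lam j : ℂ) * (1 - z) + conj (μ j) := by ring
        rw [h5, if_pos]
        rw [re_arg']
        have := mul_le_mul_of_nonneg_left (by linarith : (1 / 2 : ℝ) ≤ 1 - z.re) (hl j).le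
        have := hμ j
        linarith
      rw [hV2, Finset.prod_congr rfl fun j _ => h4 j, one_mul, ← sub_eq_add_neg]
  · intro s hs
    by_cases h3 : 1 / 2 ≤ s.re
    · simp only [if_pos h3]
      exact hV1 s
    · simp only [if_neg h3]
      rw [← hag s hs (by linarith)]
      exact hV1 s

end Pool.Agent.H483.NP
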