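import Pool.Agent.H483.ZP.Fam

set_option autoImplicit false

/-!
# The kernel `Γ(L s) / Γ(l s + ν)`
-/

namespace Pool.Agent.H483.NP

open Set Filter Topology Complex Asymptotics
open Pool.Agent.H483.FE Pool.Agent.H483.SA Pool.Agent.H483.ZP
open scoped ComplexConjugate

variable {l L : ℝ} {ν : ℂ}

/-- the gamma function of the numerator, as `gm` -/
noncomputable def gL (L : ℝ) (s : ℂ) : ℂ := gm 1 (fun _ : Fin 1 => L) (fun _ : Fin 1 => 0) s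

lemma gL_eq (L : ℝ) (s : ℂ) : gL L s = Complex.Gamma ((L : ℂ) * s) := by
  unfold gL gm
  rw [Fin.prod_univ_one, one_mul, add_zero]

/-- the denominator -/
noncomputable def dn (l : ℝ) (ν s : ℂ) : ℂ := (Complex.Gamma ((l : ℂ) * s + ν))⁻¹

/-- the reflected denominator -/
noncomputable def dr (l : ℝ) (ν s : ℂ) : ℂ := Complex.Gamma (((-l : ℝ) : ℂ) * s + (l + conj ν))

lemma dr_eq (l : ℝ) (ν s : ℂ) : dr l ν s = conj (Complex.Gamma ((l : ℂ) * (1 - conj s) + ν)) := by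
  unfold dr
  rw [refl_arg, Complex.Gamma_conj]

/-- the kernel -/
noncomputable def k3 (L l : ℝ) (ν s : ℂ) : ℂ := gL L s * dn l ν s

/-- the quotient -/
noncomputable def q3 (L l : ℝ) (ν s : ℂ) : ℂ :=
  GG 1 (fun _ : Fin 1 => L) (fun _ : Fin 1 => 0) s * (dn l ν s * dr l ν s)

lemma k3_eq (L l : ℝ) (ν s : ℂ) : k3 L l ν s = Complex.Gamma ((L : ℂ) * s) * (Complex.Gamma ((l : ℂ) * s + ν))⁻¹ := by
  unfold k3 dn
  rw [gL_eq]

lemma dr_UpB (hl : 0 < l) (ν : ℂ) : UpB (dr l ν) l := by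
  refine UpB.reflect (Gamma_UpB hl ν) fun s => le_of_eq ?_
  rw [dr_eq, Complex.norm_conj]

lemma dr_Asy (hl : 0 < l) (ν : ℂ) (σ : ℝ) :
    Asy (fun t : ℝ => dr l ν ((σ : ℂ) + t * I)) (l * (1 - σ) + ν.re - 1 / 2) l := by
  refine asy_of_norm (Gamma_Asy hl ν (1 - σ)) fun t => ?_
  rw [dr_eq, Complex.norm_conj]
  have e : (1 - conj ((σ : ℂ) + t * I)) = (((1 - σ : ℝ)) : ℂ) + t * I := by
    simp only [map_add, map_mul, Complex.conj_ofReal, Complex.conj_I]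
    push_cast
    ring
  rw [e]

lemma q3_UpB (hL : 0 < L) (hl : 0 < l) (ν : ℂ) : UpB (q3 L l ν) 0 := by
  have h := (GG_UpB 1 (lam := fun _ : Fin 1 => L) (fun _ : Fin 1 => 0) fun _ => hL).mul
    ((invGamma_UpB hl ν).mul (dr_UpB hl ν))
  have e : (0:ℝ) + (-l + l) = 0 := by ring
  rw [e] at h
  exact h

lemma q3_Asy (hL : 0 < L) (hl : 0 < l) (ν : ℂ) (σ : ℝ) :
    Asy (fun t : ℝ => q3 L l ν ((σ : ℂ) + t * I)) ((2 * σ - 1) * (L - l)) 0 := by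
  have h := (GG_Asy one_ne_zero (lam := fun _ : Fin 1 => L) (fun _ : Fin 1 => 0) (fun _ => hL) σ).mul
    ((Gamma_Asy hl ν σ).inv.mul (dr_Asy hl ν σ))
  have e : (0:ℝ) + (-l + l) = 0 := by ring
  have e2 : (2 * σ - 1) * ∑ _j : Fin 1, L + (-(l * σ + ν.re - 1 / 2) + (l * (1 - σ) + ν.re - 1 / 2)) =
      (2 * σ - 1) * (L - l) := by
    rw [Fin.sum_univ_one]; ring
  rw [e, e2] at h
  exact h

lemma q3_diff (hL : 0 < L) (hl : 0 < l) (hν : 0 ≤ ν.re) {s : ℂ} (hs : 0 < s.re) (hs1 : s.re < 1) :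
    DifferentiableAt ℂ (q3 L l ν) s := by
  unfold q3
  apply DifferentiableAt.mul (GG_diff 1 (fun _ => hL) (fun _ => by simp) hs)
  apply DifferentiableAt.mul (inv_Gamma_diff _ _ s)
  unfold dr
  apply Gamma_aff_diff
  rw [re_aff]
  simp only [Complex.add_re, Complex.ofReal_re, Complex.conj_re]
  nlinarith

/-- the ratio of the kernels on the two lines -/
theorem k3_Rho (hL : 0 < L) (hl : 0 < l) (hν : 0 ≤ ν.re) {α : ℝ} (hα : 0 < α) (hα2 : α < 1 / 2)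
    (h1 : 1 < (L - l) * (2 * α)) : ∃ C : ℝ, 0 ≤ C ∧ Rho (k3 L l ν) α C := by
  refine rho_of (fun s h0 h1 => q3_diff hL hl hν h0 h1) (q3_UpB hL hl ν) (fun σ _ _ => q3_Asy hL hl ν σ)
    hα hα2 h1 fun t => ?_
  unfold k3 q3 gL
  rw [GG_rel one_ne_zero (fun _ => hL) (fun _ => by simp) hα t, map_mul]
  set s0 := ln (1 / 2 - α) t with hs0
  have e1 : 1 - conj s0 = ln (1 / 2 + α) t := by
    rw [hs0]
    simp only [ln, map_add, map_mul, Complex.conj_ofReal, Complex.conj_I]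
    push_cast
    ring
  have e2 : conj (dn l ν (ln (1 / 2 + α) t)) * dr l ν s0 = 1 := by
    unfold dn
    rw [dr_eq, e1, map_inv₀]
    apply inv_mul_cancel₀
    rw [Ne, map_eq_zero]
    apply Complex.Gamma_ne_zero_of_re_pos
    rw [re_aff, ln_re]
    have := mul_pos hl (by linarith : 0 < 1 / 2 + α)
    linarith
  have e3 : (dn l ν s0 * dr l ν s0) * conj (dn l ν (ln (1 / 2 + α) t)) = dn l ν s0 := by
    rw [mul_assoc, mul_comm (dr l ν s0), e2, mul_one]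
  conv_lhs => rw [← e3]
  ring

lemma k3_UpB (hL : 0 < L) (hl : 0 < l) (ν : ℂ) : UpB (k3 L l ν) (L - l) := by
  have h := (gm_UpB 1 (lam := fun _ : Fin 1 => L) (fun _ : Fin 1 => 0) fun _ => hL).mul (invGamma_UpB hl ν)
  have e : ∑ _j : Fin 1, L + -l = L - l := by rw [Fin.sum_univ_one]; ring
  rw [e] at h
  exact h

lemma k3_diff (hL : 0 < L) (l : ℝ) (ν : ℂ) {s : ℂ} (hs : 0 < s.re) : DifferentiableAt ℂ (k3 L l ν) s :=
  (gm_diff 1 (fun _ => hL) (fun _ => by simp) hs).mul (inv_Gamma_diff _ _ s)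

lemma k3_ne (hL : 0 < L) (hl : 0 < l) (hν : 0 ≤ ν.re) {s : ℂ} (hs : 0 < s.re) : k3 L l ν s ≠ 0 := by
  refine mul_ne_zero (gm_ne one_ne_zero (fun _ => hL) (fun _ => by simp) hs) (inv_ne_zero ?_)
  apply Complex.Gamma_ne_zero_of_re_pos
  rw [re_aff]
  have := mul_pos hl hs
  linarith

/-- **Admissibility of the kernel.** -/
theorem k3_Adm (hL : 0 < L) (hl : 0 < l) (hν : 0 ≤ ν.re) {α : ℝ} (hα : 0 < α) (hα2 : α < 1 / 2)
    (h1 : 1 < (L - l) * (2 * α)) : Adm (k3 L l ν) α := by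
  have hS : 0 < L - l := by
    by_contra hcon
    push Not at hcon
    nlinarith
  refine ⟨fun s hs => k3_diff hL l ν hs, decay_of_UpB (k3_UpB hL hl ν) hS (fun s hs => k3_diff hL l ν hs),
    hα, hα2, ?_⟩
  have hA := (gm_Asy one_ne_zero (lam := fun _ : Fin 1 => L) (fun _ : Fin 1 => 0) (fun _ => hL) (1 / 2 - α)).mul
    (Gamma_Asy hl ν (1 / 2 - α)).inv
  have hB := (gm_Asy one_ne_zero (lam := fun _ : Fin 1 => L) (fun _ : Fin 1 => 0) (fun _ => hL) (1 / 2 + α)).mul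
    (Gamma_Asy hl ν (1 / 2 + α)).inv
  refine ratio_of_Asy hA hB ?_
    (line_cont fun s hs => k3_diff hL l ν (by linarith)) (line_cont fun s hs => k3_diff hL l ν (by linarith))
    (fun t => k3_ne hL hl hν (by simp; linarith))
  rw [Fin.sum_univ_one, Fin.sum_univ_one]
  simp only [Complex.zero_re]
  nlinarith

/-- **The functions `H`.** -/
theorem fam3 (hL : 0 < L) (hl : 0 < l) (hν : 0 ≤ ν.re) {α : ℝ} (hα0 : 0 < α) (hα : α ≤ 77 / 400)
    (h1 : 1 < (L - l) * (2 * α)) :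
    ∃ Q₀ : ℝ, 1 ≤ Q₀ ∧ ∀ Q : ℝ, Q₀ ≤ Q → ∃ (a : ℕ → ℂ) (Λ : ℂ → ℂ),
      (∀ p, ¬ p.Prime → a p = 0) ∧ (∀ p, ‖a p‖ ≤ 1) ∧
      Differentiable ℂ Λ ∧ (∀ s, Λ (1 - conj s) = conj (Λ s)) ∧ SB Λ ∧
      ∀ s : ℂ, 1 / 2 + α < s.re → LSeriesSummable (cf a) s ∧
        Λ s = (Q : ℂ) ^ s * (Complex.Gamma ((L : ℂ) * s) * (Complex.Gamma ((l : ℂ) * s + ν))⁻¹) * LSeries (cf a) s := by
  have hα2 : α < 1 / 2 := by linarith
  have hA := k3_Adm hL hl hν hα0 hα2 h1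
  obtain ⟨C, hC, hR⟩ := k3_Rho hL hl hν hα0 hα2 h1
  obtain ⟨y0, K, Q₁, hy0, hK, hQ₁, hdat⟩ := data2 (α := α) (E := 50 * (4 * C ^ 2)) (θ := 0.615) hα0 (by positivity)
    (by norm_num) (by norm_num) (by norm_num; linarith) pi_main
  obtain ⟨Q₂, hQ₂, hrel⟩ := relations2 (α := α) (y0 := y0) (K := K) hα0 (by linarith) hK
  refine ⟨max Q₁ Q₂, hQ₁.trans (le_max_left _ _), fun Q hQ => ?_⟩
  have hQ1 : 1 ≤ Q := (hQ₁.trans (le_max_left _ _)).trans hQ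
  have hQ0 : 0 < Q := by linarith
  obtain ⟨hD, hE⟩ := hdat Q ((le_max_left _ _).trans hQ) (k3 L l ν) (by
    intro h hg
    obtain ⟨f', g1, g2, g3, g4, g5⟩ := dv_energy hA hC hR h hg
    exact ⟨f', ⟨g1, g2, g3, g4, g5⟩⟩)
  obtain ⟨a, Λ, k1, k2, -, k4, k5, k6, k7, -⟩ := completed (X := fun _ => 1) hA hQ0 hD hE hK hy0
    (hrel Q ((le_max_right _ _).trans hQ) _ hA hQ0 hD) (fun s hs => k3_ne hL hl hν hs) (differentiable_const _)
    (fun s => by simp) (fun _ _ => ⟨1, fun s _ _ => by simp⟩) ⟨1, one_ne_zero⟩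
  refine ⟨a, Λ, k1, k2, k4, k5, k6, fun s hs => ?_⟩
  have h2 := k7 s hs
  rw [mul_one, k3_eq] at h2
  exact h2

end Pool.Agent.H483.NP
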