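import Pool.Agent.H483.NP.Ker

set_option autoImplicit false

/-!
# Quotients of gamma factors as kernels
-/

namespace Pool.Agent.H483.NP

open Set Filter Topology Complex Asymptotics
open Pool.Agent.H483.FE Pool.Agent.H483.SA Pool.Agent.H483.ZP
open scoped ComplexConjugate

variable {r r' : ℕ} {c : ℂ} {lam : Fin r → ℝ} {mu : Fin r → ℂ} {l : Fin r' → ℝ} {ν : Fin r' → ℂ}

/-- the denominator -/
noncomputable def dn4 (l : Fin r' → ℝ) (ν : Fin r' → ℂ) (s : ℂ) : ℂ := ∏ j, (Complex.Gamma ((l j : ℂ) * s + ν j))⁻¹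

/-- the reflected denominator -/
noncomputable def dr4 (l : Fin r' → ℝ) (ν : Fin r' → ℂ) (s : ℂ) : ℂ :=
  ∏ j, Complex.Gamma (((-l j : ℝ) : ℂ) * s + (l j + conj (ν j)))

lemma dr4_norm (l : Fin r' → ℝ) (ν : Fin r' → ℂ) (s : ℂ) :
    ‖dr4 l ν s‖ = ‖∏ j, Complex.Gamma ((l j : ℂ) * (1 - conj s) + ν j)‖ := by
  unfold dr4
  rw [norm_prod, norm_prod]
  apply Finset.prod_congr rfl
  intro j _
  rw [refl_arg, Complex.Gamma_conj, Complex.norm_conj]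

/-- the kernel -/
noncomputable def k4 (c : ℂ) (lam : Fin r → ℝ) (mu : Fin r → ℂ) (l : Fin r' → ℝ) (ν : Fin r' → ℂ) (s : ℂ) : ℂ :=
  gm c lam mu s * dn4 l ν s

/-- the quotient -/
noncomputable def q4 (c : ℂ) (lam : Fin r → ℝ) (mu : Fin r → ℂ) (l : Fin r' → ℝ) (ν : Fin r' → ℂ) (s : ℂ) : ℂ :=
  GG c lam mu s * (dn4 l ν s * dr4 l ν s)

lemma dn4_UpB (hl : ∀ j, 0 < l j) (ν : Fin r' → ℂ) : UpB (dn4 l ν) (∑ j, -l j) :=
  UpB.prod Finset.univ (fun j _ => invGamma_UpB (hl j) (ν j))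

lemma dr4_UpB (hl : ∀ j, 0 < l j) (ν : Fin r' → ℂ) : UpB (dr4 l ν) (∑ j, l j) :=
  UpB.reflect (UpB.prod Finset.univ (fun j _ => Gamma_UpB (hl j) (ν j))) fun s => (dr4_norm l ν s).le

lemma dr4_Asy (hl : ∀ j, 0 < l j) (ν : Fin r' → ℂ) (σ : ℝ) :
    Asy (fun t : ℝ => dr4 l ν ((σ : ℂ) + t * I)) (∑ j, (l j * (1 - σ) + (ν j).re - 1 / 2)) (∑ j, l j) := by
  refine asy_of_norm (Asy.prod Finset.univ (fun j _ => Gamma_Asy (hl j) (ν j) (1 - σ))) fun t => ?_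
  rw [dr4_norm]
  congr 1
  apply Finset.prod_congr rfl
  intro j _
  have e : (1 - conj ((σ : ℂ) + t * I)) = (((1 - σ : ℝ)) : ℂ) + t * I := by
    simp only [map_add, map_mul, Complex.conj_ofReal, Complex.conj_I]
    push_cast
    ring
  rw [e]

lemma dn4_Asy (hl : ∀ j, 0 < l j) (ν : Fin r' → ℂ) (σ : ℝ) :
    Asy (fun t : ℝ => dn4 l ν ((σ : ℂ) + t * I)) (∑ j, -(l j * σ + (ν j).re - 1 / 2)) (∑ j, -l j) :=
  Asy.prod Finset.univ (fun j _ => (Gamma_Asy (hl j) (ν j) σ).inv)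

lemma q4_UpB (c : ℂ) (mu : Fin r → ℂ) (hL : ∀ j, 0 < lam j) (hl : ∀ j, 0 < l j) (ν : Fin r' → ℂ) :
    UpB (q4 c lam mu l ν) 0 := by
  have h := (GG_UpB c mu hL).mul ((dn4_UpB hl ν).mul (dr4_UpB hl ν))
  have e : (0:ℝ) + (∑ j, -l j + ∑ j, l j) = 0 := by rw [Finset.sum_neg_distrib]; ring
  rw [e] at h
  exact h

lemma q4_Asy (hc : c ≠ 0) (mu : Fin r → ℂ) (hL : ∀ j, 0 < lam j) (hl : ∀ j, 0 < l j) (ν : Fin r' → ℂ) (σ : ℝ) :
    Asy (fun t : ℝ => q4 c lam mu l ν ((σ : ℂ) + t * I)) ((2 * σ - 1) * (∑ j, lam j - ∑ j, l j)) 0 := by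
  have h := (GG_Asy hc mu hL σ).mul ((dn4_Asy hl ν σ).mul (dr4_Asy hl ν σ))
  have e : (0:ℝ) + (∑ j, -l j + ∑ j, l j) = 0 := by rw [Finset.sum_neg_distrib]; ring
  have e2 : (2 * σ - 1) * ∑ j, lam j + (∑ j, -(l j * σ + (ν j).re - 1 / 2) +
      ∑ j, (l j * (1 - σ) + (ν j).re - 1 / 2)) = (2 * σ - 1) * (∑ j, lam j - ∑ j, l j) := by
    rw [← Finset.sum_add_distrib]
    have : ∑ j, (-(l j * σ + (ν j).re - 1 / 2) + (l j * (1 - σ) + (ν j).re - 1 / 2)) = (1 - 2 * σ) * ∑ j, l j := by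
      rw [Finset.mul_sum]
      exact Finset.sum_congr rfl fun j _ => by ring
    rw [this]; ring
  rw [e, e2] at h
  exact h

lemma dn4_diff (l : Fin r' → ℝ) (ν : Fin r' → ℂ) : Differentiable ℂ (dn4 l ν) := by
  unfold dn4
  apply Differentiable.fun_finsetProd
  intro j _
  exact inv_Gamma_diff _ _

lemma q4_diff (c : ℂ) (hL : ∀ j, 0 < lam j) (hm : ∀ j, 0 ≤ (mu j).re) (hl : ∀ j, 0 < l j) (hν : ∀ j, 0 ≤ (ν j).re)
    {s : ℂ} (hs : 0 < s.re) (hs1 : s.re < 1) : DifferentiableAt ℂ (q4 c lam mu l ν) s := by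
  unfold q4
  apply DifferentiableAt.mul (GG_diff c hL hm hs)
  apply DifferentiableAt.mul (dn4_diff _ _ s)
  unfold dr4
  apply DifferentiableAt.fun_finsetProd
  intro j _
  apply Gamma_aff_diff
  rw [re_aff]
  simp only [Complex.add_re, Complex.ofReal_re, Complex.conj_re]
  have h1 := hl j
  have h2 := hν j
  nlinarith

/-- the ratio of the kernels on the two lines -/
theorem k4_Rho (hc : c ≠ 0) (hL : ∀ j, 0 < lam j) (hm : ∀ j, 0 ≤ (mu j).re) (hl : ∀ j, 0 < l j) (hν : ∀ j, 0 ≤ (ν j).re)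
    {α : ℝ} (hα : 0 < α) (hα2 : α < 1 / 2) (h1 : 1 < (∑ j, lam j - ∑ j, l j) * (2 * α)) :
    ∃ C : ℝ, 0 ≤ C ∧ Rho (k4 c lam mu l ν) α C := by
  refine rho_of (fun s h0 h1 => q4_diff c hL hm hl hν h0 h1) (q4_UpB c mu hL hl ν) (fun σ _ _ => q4_Asy hc mu hL hl ν σ)
    hα hα2 h1 fun t => ?_
  unfold k4 q4
  rw [GG_rel hc hL hm hα t, map_mul]
  set s0 := ln (1 / 2 - α) t with hs0
  have e1 : 1 - conj s0 = ln (1 / 2 + α) t := by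
    rw [hs0]
    simp only [ln, map_add, map_mul, Complex.conj_ofReal, Complex.conj_I]
    push_cast
    ring
  have e2 : conj (dn4 l ν (ln (1 / 2 + α) t)) * dr4 l ν s0 = 1 := by
    unfold dn4 dr4
    rw [map_prod, ← Finset.prod_mul_distrib, Finset.prod_eq_one]
    intro j _
    rw [refl_arg, e1, Complex.Gamma_conj, map_inv₀]
    apply inv_mul_cancel₀
    rw [Ne, map_eq_zero]
    apply Complex.Gamma_ne_zero_of_re_pos
    rw [re_aff, ln_re]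
    have := mul_pos (hl j) (by linarith : 0 < 1 / 2 + α)
    linarith [hν j]
  have e3 : (dn4 l ν s0 * dr4 l ν s0) * conj (dn4 l ν (ln (1 / 2 + α) t)) = dn4 l ν s0 := by
    rw [mul_assoc, mul_comm (dr4 l ν s0), e2, mul_one]
  conv_lhs => rw [← e3]
  ring

lemma k4_UpB (c : ℂ) (mu : Fin r → ℂ) (hL : ∀ j, 0 < lam j) (hl : ∀ j, 0 < l j) (ν : Fin r' → ℂ) :
    UpB (k4 c lam mu l ν) (∑ j, lam j - ∑ j, l j) := by
  have h := (gm_UpB c mu hL).mul (dn4_UpB hl ν)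
  have e : ∑ j, lam j + ∑ j, -l j = ∑ j, lam j - ∑ j, l j := by rw [Finset.sum_neg_distrib]; ring
  rw [e] at h
  exact h

lemma k4_diff (c : ℂ) (hL : ∀ j, 0 < lam j) (hm : ∀ j, 0 ≤ (mu j).re) (l : Fin r' → ℝ) (ν : Fin r' → ℂ) {s : ℂ}
    (hs : 0 < s.re) : DifferentiableAt ℂ (k4 c lam mu l ν) s :=
  (gm_diff c hL hm hs).mul (dn4_diff _ _ s)

lemma dn4_ne (hl : ∀ j, 0 < l j) (hν : ∀ j, 0 ≤ (ν j).re) {s : ℂ} (hs : 0 < s.re) : dn4 l ν s ≠ 0 := by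
  unfold dn4
  refine Finset.prod_ne_zero_iff.2 fun j _ => inv_ne_zero ?_
  apply Complex.Gamma_ne_zero_of_re_pos
  rw [re_aff]
  have := mul_pos (hl j) hs
  linarith [hν j]

lemma k4_ne (hc : c ≠ 0) (hL : ∀ j, 0 < lam j) (hm : ∀ j, 0 ≤ (mu j).re) (hl : ∀ j, 0 < l j) (hν : ∀ j, 0 ≤ (ν j).re)
    {s : ℂ} (hs : 0 < s.re) : k4 c lam mu l ν s ≠ 0 :=
  mul_ne_zero (gm_ne hc hL hm hs) (dn4_ne hl hν hs)

/-- **Admissibility of the kernel.** -/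
theorem k4_Adm (hc : c ≠ 0) (hL : ∀ j, 0 < lam j) (hm : ∀ j, 0 ≤ (mu j).re) (hl : ∀ j, 0 < l j) (hν : ∀ j, 0 ≤ (ν j).re)
    {α : ℝ} (hα : 0 < α) (hα2 : α < 1 / 2)
    (h1 : 1 < (∑ j, lam j - ∑ j, l j) * (2 * α)) : Adm (k4 c lam mu l ν) α := by
  have hS : 0 < ∑ j, lam j - ∑ j, l j := by
    by_contra hcon
    push Not at hcon
    nlinarith
  refine ⟨fun s hs => k4_diff c hL hm l ν hs, decay_of_UpB (k4_UpB c mu hL hl ν) hS (fun s hs => k4_diff c hL hm l ν hs),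
    hα, hα2, ?_⟩
  have hA := (gm_Asy hc mu hL (1 / 2 - α)).mul (dn4_Asy hl ν (1 / 2 - α))
  have hB := (gm_Asy hc mu hL (1 / 2 + α)).mul (dn4_Asy hl ν (1 / 2 + α))
  refine ratio_of_Asy hA hB ?_
    (line_cont fun s hs => k4_diff c hL hm l ν (by linarith)) (line_cont fun s hs => k4_diff c hL hm l ν (by linarith))
    (fun t => k4_ne hc hL hm hl hν (by simp; linarith))
  have e1 : ∑ j, (lam j * (1 / 2 + α) + (mu j).re - 1 / 2) =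
      ∑ j, (lam j * (1 / 2 - α) + (mu j).re - 1 / 2) + (∑ j, lam j) * (2 * α) := by
    rw [Finset.sum_mul, ← Finset.sum_add_distrib]
    exact Finset.sum_congr rfl fun j _ => by ring
  have e2 : ∑ j, -(l j * (1 / 2 + α) + (ν j).re - 1 / 2) =
      ∑ j, -(l j * (1 / 2 - α) + (ν j).re - 1 / 2) - (∑ j, l j) * (2 * α) := by
    rw [Finset.sum_mul, ← Finset.sum_sub_distrib]
    exact Finset.sum_congr rfl fun j _ => by ring
  rw [e1, e2]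
  nlinarith

lemma k4_mul (c : ℂ) (lam : Fin r → ℝ) (mu : Fin r → ℂ) (l : Fin r' → ℝ) (ν : Fin r' → ℂ) (s : ℂ) :
    k4 c lam mu l ν s = c * k4 1 lam mu l ν s := by
  unfold k4 gm; ring

/-- **The functions `H`.** -/
theorem fam4 (hL : ∀ j, 0 < lam j) (hm : ∀ j, 0 ≤ (mu j).re) (hl : ∀ j, 0 < l j) (hν : ∀ j, 0 ≤ (ν j).re) {α : ℝ}
    (hα0 : 0 < α) (hα : α ≤ 77 / 400) (h1 : 1 < (∑ j, lam j - ∑ j, l j) * (2 * α)) :
    ∃ Q₀ : ℝ, 1 ≤ Q₀ ∧ ∀ Q : ℝ, Q₀ ≤ Q → ∀ c : ℂ, ‖c‖ = 1 → ∃ (a : ℕ → ℂ) (Λ : ℂ → ℂ),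
      (∀ p, ¬ p.Prime → a p = 0) ∧ (∀ p, ‖a p‖ ≤ 1) ∧
      Differentiable ℂ Λ ∧ (∀ s, Λ (1 - conj s) = conj (Λ s)) ∧ SB Λ ∧
      ∀ s : ℂ, 1 / 2 + α < s.re → LSeriesSummable (cf a) s ∧
        Λ s = (Q : ℂ) ^ s * k4 c lam mu l ν s * LSeries (cf a) s := by
  have hα2 : α < 1 / 2 := by linarith
  have hA : ∀ c : ℂ, c ≠ 0 → Adm (k4 c lam mu l ν) α := fun c hc => k4_Adm hc hL hm hl hν hα0 hα2 h1
  obtain ⟨C, hC, hR⟩ := k4_Rho one_ne_zero hL hm hl hν hα0 hα2 h1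
  obtain ⟨y0, K, Q₁, hy0, hK, hQ₁, hdat⟩ := data2 (α := α) (E := 50 * (4 * C ^ 2)) (θ := 0.615) hα0 (by positivity)
    (by norm_num) (by norm_num) (by norm_num; linarith) pi_main
  obtain ⟨Q₂, hQ₂, hrel⟩ := relations2 (α := α) (y0 := y0) (K := K) hα0 (by linarith) hK
  refine ⟨max Q₁ Q₂, hQ₁.trans (le_max_left _ _), fun Q hQ c hc => ?_⟩
  have hQ1 : 1 ≤ Q := (hQ₁.trans (le_max_left _ _)).trans hQ
  have hQ0 : 0 < Q := by linarith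
  have hc0 : c ≠ 0 := by rintro rfl; simp at hc
  have hAc := hA c hc0
  have hRc : Rho (k4 c lam mu l ν) α C := rho_unit hc (fun s => k4_mul c lam mu l ν s) hR
  obtain ⟨hD, hE⟩ := hdat Q ((le_max_left _ _).trans hQ) (k4 c lam mu l ν) (by
    intro h hg
    obtain ⟨f', g1, g2, g3, g4, g5⟩ := dv_energy hAc hC hRc h hg
    exact ⟨f', ⟨g1, g2, g3, g4, g5⟩⟩)
  obtain ⟨a, Λ, k1, k2, -, m4, m5, m6, m7, -⟩ := completed (X := fun _ => 1) hAc hQ0 hD hE hK hy0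
    (hrel Q ((le_max_right _ _).trans hQ) _ hAc hQ0 hD) (fun s hs => k4_ne hc0 hL hm hl hν hs) (differentiable_const _)
    (fun s => by simp) (fun _ _ => ⟨1, fun s _ _ => by simp⟩) ⟨1, one_ne_zero⟩
  refine ⟨a, Λ, k1, k2, m4, m5, m6, fun s hs => ?_⟩
  have h2 := m7 s hs
  rw [mul_one] at h2
  exact h2

end Pool.Agent.H483.NP
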