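import Pool.Agent.H483.NP.Zer

set_option autoImplicit false

/-!
# The master theorem: any functional equation, and no common zeros
-/

namespace Pool.Agent.H483.NP

open Set Filter Topology Complex
open Pool.Agent.H483.FE Pool.Agent.H483.SA Pool.Agent.H483.ZP Pool.Agent.H336R4 Pool.Agent.H902R3.PZ
open scoped ComplexConjugate

variable {r r' : ℕ} {lam : Fin r → ℝ} {mu : Fin r → ℂ} {l : Fin r' → ℝ} {ν : Fin r' → ℂ}

/-- **The functions `H`, with a symmetric function.** -/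
theorem fam5 (hL : ∀ j, 0 < lam j) (hm : ∀ j, 0 ≤ (mu j).re) (hl : ∀ j, 0 < l j) (hν : ∀ j, 0 ≤ (ν j).re) {α : ℝ}
    (hα0 : 0 < α) (hα : α ≤ 77 / 400) (h1 : 1 < (∑ j, lam j - ∑ j, l j) * (2 * α)) {X : ℂ → ℂ}
    (hX : Differentiable ℂ X) (hXs : ∀ s, X (1 - conj s) = conj (X s)) (hXb : SB X) (hX1 : ∃ s, X s ≠ 0) :
    ∃ Q₀ : ℝ, 1 ≤ Q₀ ∧ ∀ Q : ℝ, Q₀ ≤ Q → ∀ c : ℂ, ‖c‖ = 1 → ∃ (a : ℕ → ℂ) (Λ : ℂ → ℂ),
      (∀ p, ¬ p.Prime → a p = 0) ∧ (∀ p, ‖a p‖ ≤ 1) ∧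
      Differentiable ℂ Λ ∧ (∀ s, Λ (1 - conj s) = conj (Λ s)) ∧ SB Λ ∧
      (∀ s : ℂ, 1 / 2 + α < s.re → LSeriesSummable (cf a) s ∧
        Λ s = (Q : ℂ) ^ s * (k4 c lam mu l ν s * X s) * LSeries (cf a) s) ∧
      ∀ ρ : ℂ, X ρ = 0 → |ρ.re - 1 / 2| < α → Λ ρ ≠ 0 := by
  have hα2 : α < 1 / 2 := by linarith
  have hA : ∀ c : ℂ, c ≠ 0 → Adm (k4 c lam mu l ν) α := fun c hc => k4_Adm hc hL hm hl hν hα0 hα2 h1
  obtain ⟨C, hC, hR⟩ := k4_Rho one_ne_zero hL hm hl hν hα0 hα2 h1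
  obtain ⟨y0, K, Q₁, hy0, hK, hQ₁, hdat⟩ := data2 (α := α) (E := 50 * (4 * C ^ 2)) (θ := 0.615) hα0 (by positivity)
    (by norm_num) (by norm_num) (by norm_num; linarith) pi_main
  obtain ⟨Q₂, hQ₂, hrel⟩ := relations2 (α := α) (y0 := y0) (K := K) hα0 (by linarith) hK
  refine ⟨max Q₁ Q₂, hQ₁.trans (le_max_left _ _), fun Q hQ c hc => ?_⟩
  have hQ1 : 1 ≤ Q := (hQ₁.trans (le_max_left _ _)).trans hQ
  have hQ0 : 0 < Q := by linarith
  have hc0 : c ≠ 0 := by rintro rfl; simp at hc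
  have hAc := hA c hc0
  have hRc : Rho (k4 c lam mu l ν) α C := rho_unit hc (fun s => k4_mul c lam mu l ν s) hR
  obtain ⟨hD, hE⟩ := hdat Q ((le_max_left _ _).trans hQ) (k4 c lam mu l ν) (by
    intro h hg
    obtain ⟨f', g1, g2, g3, g4, g5⟩ := dv_energy hAc hC hRc h hg
    exact ⟨f', ⟨g1, g2, g3, g4, g5⟩⟩)
  obtain ⟨a, Λ, k1, k2, -, m4, m5, m6, m7, m8⟩ := completed hAc hQ0 hD hE hK hy0
    (hrel Q ((le_max_right _ _).trans hQ) _ hAc hQ0 hD) (fun s hs => k4_ne hc0 hL hm hl hν hs) hX hXs hXb hX1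
  exact ⟨a, Λ, k1, k2, m4, m5, m6, m7, m8⟩

/-- finite order from the series to the right, and symmetry -/
lemma fo_of {α : ℝ} (hα : α < 1 / 2) {c : ℂ} {Q : ℝ} (hQ : 0 < Q) {a : ℕ → ℂ} {Λ X : ℂ → ℂ} (hX : Fo X)
    (hL : ∀ j, 0 < lam j) (hm : ∀ j, 0 ≤ (mu j).re)
    (sym : ∀ s, Λ (1 - conj s) = conj (Λ s)) (sb : SB Λ)
    (ser : ∀ s : ℂ, 1 / 2 + α < s.re → LSeriesSummable (cf a) s ∧
      Λ s = (Q : ℂ) ^ s * (k4 c lam mu l ν s * X s) * LSeries (cf a) s) : Fo Λ := by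
  obtain ⟨CL, hCL0, hCL⟩ := series_bd (a := a) (ser 2 (by norm_num; linarith)).1
  obtain ⟨CS, hCS⟩ := sb (-1) 2
  set p : ℂ → ℂ := fun s => (CL : ℂ) * ((Q : ℂ) ^ ((1:ℂ) * s + 0) *
    (((c * ∏ j, (fun w : ℂ => if lam j ≤ w.re then Complex.Gamma w else 0) ((lam j : ℂ) * s + mu j)) *
    dn4 l ν s) * X s)) with hp
  have hpF : Fo p := by
    refine (Fo.const _).mul ((Fo.cpow hQ 1 0).mul ((((Fo.const _).mul ?_).mul ?_).mul hX))
    · exact Fo.prod _ fun j _ => Fo_aff (Fo.gamma_right (hL j)) _ _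
    · exact Fo.prod _ fun j _ => Fo_aff Fo.inv_gamma _ _
  have hright : ∀ s : ℂ, 2 ≤ s.re → ‖Λ s‖ ≤ ‖p s‖ := by
    intro s hs
    have h4 : ∀ j, (if lam j ≤ ((lam j : ℂ) * s + mu j).re then
        Complex.Gamma ((lam j : ℂ) * s + mu j) else 0) = Complex.Gamma ((lam j : ℂ) * s + mu j) := by
      intro j
      rw [if_pos]
      rw [re_arg]
      have h1 := hL j
      have h2 := hm j
      nlinarith
    rw [(ser s (by linarith)).2, hp]
    beta_reduce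
    rw [Finset.prod_congr rfl fun j _ => h4 j, one_mul, add_zero]
    unfold k4 gm
    rw [norm_mul, norm_mul (CL : ℂ), mul_comm, Complex.norm_real, Real.norm_eq_abs, abs_of_nonneg hCL0]
    exact mul_le_mul_of_nonneg_right (hCL s hs) (norm_nonneg _)
  refine Fo.piece (Fo.const (CS : ℂ)) (Fo.piece (f := fun s => if -1 ≤ s.re ∧ s.re ≤ 2 then 0 else Λ s)
    hpF hpF.refl ?_) ?_
  · intro s
    by_cases h : -1 ≤ s.re ∧ s.re ≤ 2
    · left
      rw [if_pos h, norm_zero]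
      exact norm_nonneg _
    · rw [if_neg h]
      rcases le_total 2 s.re with h2 | h2
      · left; exact hright s h2
      · right
        have h3 : s.re < -1 := by
          by_contra hcon
          exact h ⟨not_lt.1 hcon, h2⟩
        have e0 : ‖Λ s‖ = ‖Λ (1 - conj s)‖ := by rw [sym s, Complex.norm_conj]
        rw [e0]
        exact hright _ (by simp; linarith)
  · intro s
    by_cases h : -1 ≤ s.re ∧ s.re ≤ 2
    · left
      rw [Complex.norm_real, Real.norm_eq_abs]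
      exact (hCS s h.1 h.2).trans (le_abs_self _)
    · right
      rw [if_neg h]

/-- **Master theorem.** -/
theorem master {f : ArithmeticFunction ℂ} (hf : UF.S f) {m : ℕ} {G : ℂ → ℂ} (hc : PF.Cont (fun n => f n) m G) {Q : ℝ}
    (hQ : 0 < Q) {ω : ℂ} (hFE : PF.FE m G Q r' l ν ω) (hr : 0 < ∑ j, l j) (hL : ∀ j, 0 < lam j)
    (hm : ∀ j, 0 ≤ (mu j).re)
    {J : Finset (Fin r)} (hJm : J.card = m) (hJ : ∀ j ∈ J, mu j = 0) {α : ℝ} (hα0 : 0 < α) (hα : α ≤ 77 / 400)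
    (h1 : 1 < (∑ j, lam j - ∑ j, l j) * (2 * α)) :
    ∃ Q₀ : ℝ, 0 < Q₀ ∧ ∀ q : ℝ, Q₀ ≤ q → ∀ ω' : ℂ, ‖ω'‖ = 1 → ∃ (a : ℕ → ℂ) (G' : ℂ → ℂ),
      (∀ p, ¬ p.Prime → a p = 0) ∧ (∀ p, ‖a p‖ ≤ 1) ∧ (∀ s : ℂ, 1 / 2 + α < s.re → LSeriesSummable (cf a) s) ∧
      PF.Cont (fun n => (f * HA a) n) m G' ∧ PF.FE m G' q r lam mu ω' ∧
      ∀ ρ : ℂ, |ρ.re - 1 / 2| < α → G ρ = 0 → G' ρ ≠ 0 := by
  obtain ⟨κ, X, hκ, hX1, hX2, hX3, hX4, hX5, hX6⟩ := exists_X hf hc hQ hFE hr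
  have hκ0 : κ ≠ 0 := by rintro rfl; simp at hκ
  obtain ⟨Q₁, hQ₁, hfam⟩ := fam5 hL hm hFE.1 hFE.2.1 hα0 hα h1 hX1 hX3 hX4 hX5
  refine ⟨Q * Q₁, by positivity, fun q hq ω' hω' => ?_⟩
  obtain ⟨c', hc1', hcω⟩ := exists_root hω'
  have hc0' : c' ≠ 0 := by rintro rfl; simp at hc1'
  have hq0 : 0 < q := lt_of_lt_of_le (by positivity) hq
  have hqC : (q : ℂ) ≠ 0 := by exact_mod_cast hq0.ne'
  have hqQ : 0 < q / Q := by positivity
  obtain ⟨a, Λ, a1, a2, a3, a4, a5, a6, a7⟩ := hfam (q / Q) ((le_div_iff₀ hQ).2 (by linarith)) (c' / κ)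
    (by rw [norm_div, hc1', hκ, div_one])
  have hΛF : Fo Λ := fo_of (by linarith) hqQ hX2 hL hm a4 a5 a6
  have hcc0 : conj c' ≠ 0 := by simpa using hc0'
  have hnp : ∀ s : ℂ, 0 < s.re → ∀ j, ∀ n : ℕ, (lam j : ℂ) * s + mu j ≠ -(n : ℂ) := by
    intro s hs j n h
    have h1 := congrArg Complex.re h
    rw [re_arg] at h1
    have h2 := mul_pos (hL j) hs
    have h3 := hm j
    have h4 : (0:ℝ) ≤ n := Nat.cast_nonneg n
    simp at h1
    linarith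
  have hjg : ∀ s : ℂ, 0 < s.re → s ^ m * jg c' q lam mu J s * ((q : ℂ) ^ s * ∏ j, Complex.Gamma ((lam j : ℂ) * s + mu j)) =
      c'⁻¹ := by
    intro s hs
    rw [← hJm]
    exact jg_mul c' hq0 hJ (hnp s hs)
  -- the value in the half-plane of absolute convergence
  have hval : ∀ s : ℂ, 1 / 2 + α < s.re → Λ s * jg c' q lam mu J s = G s * LSeries (cf a) s := by
    intro s hs
    have h3 := hjg s (by linarith)
    rw [(a6 s hs).2, hX6 s (by linarith)]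
    unfold k4 gm
    have h5 : (∏ j, Complex.Gamma ((l j : ℂ) * s + ν j)) * dn4 l ν s = 1 := by
      unfold dn4
      rw [← Finset.prod_mul_distrib]
      exact Finset.prod_eq_one fun j _ => mul_inv_cancel₀ (gamma_pos_ne (hFE.1 j) (hFE.2.1 j) (by linarith))
    have h6 : ((q / Q : ℝ) : ℂ) ^ s * (Q : ℂ) ^ s = (q : ℂ) ^ s := by
      rw [← Complex.mul_cpow_ofReal_nonneg hqQ.le hQ.le]
      congr 1
      push_cast
      have : (Q : ℂ) ≠ 0 := by exact_mod_cast hQ.ne'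
      field_simp
    generalize (∏ j, Complex.Gamma ((l j : ℂ) * s + ν j)) = Y at h5 ⊢
    generalize dn4 l ν s = Y' at h5 ⊢
    generalize (∏ j, Complex.Gamma ((lam j : ℂ) * s + mu j)) = W at h3 ⊢
    generalize jg c' q lam mu J s = Z at h3 ⊢
    generalize ((q / Q : ℝ) : ℂ) ^ s = R at h6 ⊢
    generalize (Q : ℂ) ^ s = R' at h6 ⊢
    calc _ = (s ^ m * Z * ((R * R') * W)) * (c' / κ * κ) * (Y * Y') * (G s * LSeries (cf a) s) := by ring
      _ = _ := by rw [h6, h3, h5, div_mul_cancel₀ _ hκ0, inv_mul_cancel₀ hc0']; ring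
  have key2 : ∀ s : ℂ, 0 < s.re → s.re < 1 → (q : ℂ) ^ s *
      (∏ j, Complex.Gamma ((lam j : ℂ) * s + mu j)) * ((Λ s * jg c' q lam mu J s) / (s - 1) ^ m) =
      Λ s * c'⁻¹ / (s * (s - 1)) ^ m := by
    intro s hs hs1
    have hn0 : s ≠ 0 := by rintro rfl; simp at hs
    have hn1 : s - 1 ≠ 0 := by
      intro h
      have h1 := congrArg Complex.re h
      simp at h1
      linarith
    have hp0 : s ^ m ≠ 0 := pow_ne_zero _ hn0
    have hp1 : (s - 1) ^ m ≠ 0 := pow_ne_zero _ hn1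
    have h3 := hjg s hs
    rw [mul_pow, ← h3]
    generalize (∏ j, Complex.Gamma ((lam j : ℂ) * s + mu j)) = W
    generalize jg c' q lam mu J s = Z
    generalize (q : ℂ) ^ s = R
    rw [mul_div_assoc', div_eq_div_iff hp1 (mul_ne_zero hp0 hp1)]
    ring
  refine ⟨a, fun s => Λ s * jg c' q lam mu J s, a1, a2, fun s hs => (a6 s hs).1,
    ⟨a3.mul (jg_diff c' hq0 lam mu J), (hΛF.mul (Fo.of_Gr (jg_Gr c' hq0 lam mu J))).order, fun s hs => ?_⟩, ?_, ?_⟩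
  · beta_reduce
    rw [hval s (by linarith), LS_HA hf a2 hs, hc.2.2 s hs]
    ring
  · refine ⟨hL, hm, hω', fun s hs0 hs1 => ?_⟩
    have hs' : 0 < (1 - conj s).re := by simp; linarith
    have hs'' : (1 - conj s).re < 1 := by simp; linarith
    beta_reduce
    rw [key2 s hs0 hs1, key2 _ hs' hs'', a4 s, map_div₀, map_mul, Complex.conj_conj, map_inv₀, ← hcω]
    have e3 : conj (((1 - conj s) * ((1 - conj s) - 1)) ^ m) = (s * (s - 1)) ^ m := by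
      rw [map_pow]
      congr 1
      simp only [map_mul, map_sub, map_one, Complex.conj_conj]
      ring
    rw [e3]
    field_simp
  · intro ρ hρ hG
    have hab := abs_lt.1 hρ
    have hρ0 : 0 < ρ.re := by linarith
    have hXρ : X ρ = 0 := by rw [hX6 ρ hρ0, hG]; ring
    refine mul_ne_zero (a7 ρ hXρ hρ) ?_
    intro h
    have h3 := hjg ρ hρ0
    rw [h, mul_zero, zero_mul] at h3
    exact inv_ne_zero hc0' h3.symm

end Pool.Agent.H483.NP
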