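import Mathlib

set_option autoImplicit false

/-! NP-4: a Dirichlet series with poles (Mathlib only). -/

namespace Pool.Agent.H483.NP
open Complex
open scoped ComplexConjugate

/-- Paper proof. If such `G` exists then the two entire functions `Q^s * (Γ(l s + ν))⁻¹ * G s` and
`(s - 1)^m * (Γ(L s))⁻¹ * Λ s` agree for `Re s > 1` (there `Γ` of both arguments is nonzero, positive real parts), so everywhere
(`AnalyticOnNhd.eq_of_eventuallyEq`). For `k = 1, 2` put `s_k = -(ν + k) / l` (`Re s_k < 0`). At `s_k` the left side is `0`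
(`Γ(-k) = 0` in Mathlib: `Complex.Gamma_neg_nat_eq_zero`). On the right `(s_k - 1)^m ≠ 0`, `Λ s_k = conj (Λ (1 - conj s_k)) ≠ 0` as
`Re (1 - conj s_k) > 1` and `h` nonvanishing, Gammas nonzero. Hence `(Γ(L s_k))⁻¹ = 0`, so `L s_k = -n_k` with `n_k` natural
(`Complex.Gamma_eq_zero_iff`). Then `L / l = n₂ - n₁`, contradicting irrationality. -/
theorem no_elt {Λ : ℂ → ℂ} {h : ℕ → ℂ} {Q L l : ℝ} {ν : ℂ} (hQ : 0 < Q) (hl : 0 < l) (hν : 0 ≤ ν.re) (hL : 0 < L)
    (hLl : Irrational (L / l)) (hΛ : Differentiable ℂ Λ) (hsym : ∀ s, Λ (1 - conj s) = conj (Λ s))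
    (hs : ∀ s : ℂ, 1 < s.re → Λ s = (Q : ℂ) ^ s * (Gamma ((L : ℂ) * s) * (Gamma ((l : ℂ) * s + ν))⁻¹) * LSeries h s)
    (hne : ∀ s : ℂ, 1 < s.re → LSeries h s ≠ 0) :
    ¬ ∃ (m : ℕ) (G : ℂ → ℂ), Differentiable ℂ G ∧ ∀ s : ℂ, 1 < s.re → G s = (s - 1) ^ m * LSeries h s := by
  rintro ⟨m, G, hG, hGs⟩
  have hQ0 : (Q : ℂ) ≠ 0 := by exact_mod_cast hQ.ne'
  have hlC : (l : ℂ) ≠ 0 := by exact_mod_cast hl.ne'
  have gL : ∀ s : ℂ, 1 < s.re → Gamma ((L : ℂ) * s) ≠ 0 := by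
    intro s h1
    refine Gamma_ne_zero_of_re_pos ?_
    rw [re_ofReal_mul]
    exact mul_pos hL (by linarith)
  have gl : ∀ s : ℂ, 1 < s.re → Gamma ((l : ℂ) * s + ν) ≠ 0 := by
    intro s h1
    refine Gamma_ne_zero_of_re_pos ?_
    rw [add_re, re_ofReal_mul]
    have := mul_pos hl (show 0 < s.re by linarith)
    linarith
  have hΛne : ∀ s : ℂ, 1 < s.re → Λ s ≠ 0 := by
    intro s h1
    rw [hs s h1]
    refine mul_ne_zero (mul_ne_zero ?_ (mul_ne_zero (gL s h1) (inv_ne_zero (gl s h1)))) (hne s h1)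
    exact cpow_ne_zero_iff_of_exponent_ne_zero (by rintro rfl; norm_num at h1) |>.2 hQ0
  set F1 : ℂ → ℂ := fun s => (Q : ℂ) ^ s * (Gamma ((l : ℂ) * s + ν))⁻¹ * G s with hF1
  set F2 : ℂ → ℂ := fun s => (s - 1) ^ m * (Gamma ((L : ℂ) * s))⁻¹ * Λ s with hF2
  have hd1 : Differentiable ℂ F1 := by
    refine (Differentiable.mul ?_ ?_).mul hG
    · exact fun s => (differentiableAt_id).const_cpow (Or.inl hQ0)
    · exact differentiable_one_div_Gamma.comp ((differentiable_id.const_mul (l : ℂ)).add_const ν)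
  have hd2 : Differentiable ℂ F2 := by
    refine (Differentiable.mul ?_ ?_).mul hΛ
    · exact (differentiable_id.sub_const 1).pow m
    · exact differentiable_one_div_Gamma.comp (differentiable_id.const_mul (L : ℂ))
  have heq : ∀ s : ℂ, 1 < s.re → F1 s = F2 s := by
    intro s h1
    simp only [hF1, hF2]
    rw [hGs s h1, hs s h1]
    obtain ⟨g, hg⟩ : ∃ g : ℂ, g = Gamma ((L : ℂ) * s) := ⟨_, rfl⟩
    have e1 : g ≠ 0 := by rw [hg]; exact gL s h1
    rw [← hg]
    calc _ = (g⁻¹ * g) * ((Q : ℂ) ^ s * (Gamma ((l : ℂ) * s + ν))⁻¹ * ((s - 1) ^ m * LSeries h s)) := by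
          rw [inv_mul_cancel₀ e1, one_mul]
      _ = _ := by ring
  have hall : F1 = F2 := by
    have hA1 : AnalyticOnNhd ℂ F1 Set.univ := fun s _ => hd1.analyticAt s
    have hA2 : AnalyticOnNhd ℂ F2 Set.univ := fun s _ => hd2.analyticAt s
    refine AnalyticOnNhd.eq_of_eventuallyEq (z₀ := (2 : ℂ)) hA1 hA2 ?_
    have ho : IsOpen {s : ℂ | 1 < s.re} := isOpen_lt continuous_const continuous_re
    have hm : (2 : ℂ) ∈ {s : ℂ | 1 < s.re} := by
      change (1:ℝ) < (2:ℂ).re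
      norm_num
    filter_upwards [ho.mem_nhds hm] with s h1
    exact heq s h1
  have key : ∀ k : ℕ, 1 ≤ k → ∃ n : ℕ, (L : ℂ) * (-(ν + k) / l) = -(n : ℂ) := by
    intro k hk
    have hkR : (1:ℝ) ≤ k := by exact_mod_cast hk
    obtain ⟨s, hsd⟩ : ∃ s : ℂ, s = -(ν + k) / l := ⟨_, rfl⟩
    have hre : s.re < 0 := by
      have h1 : s = ((1 / l : ℝ) : ℂ) * (-(ν + k)) := by
        rw [hsd]; push_cast; field_simp
      rw [h1, re_ofReal_mul, neg_re, add_re, natCast_re]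
      have : 0 < 1 / l := by positivity
      nlinarith
    have h0 : F1 s = 0 := by
      simp only [hF1]
      have : (l : ℂ) * s + ν = -(k : ℂ) := by
        rw [hsd]; field_simp; ring
      rw [this, Gamma_neg_nat_eq_zero]
      simp
    rw [hall] at h0
    simp only [hF2] at h0
    have hs1 : (s - 1) ^ m ≠ 0 := by
      refine pow_ne_zero _ (sub_ne_zero.2 ?_)
      rintro rfl
      norm_num at hre
    have hΛs : Λ s ≠ 0 := by
      have h2 := hsym (1 - conj s)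
      have h3 : (1 : ℂ) - conj (1 - conj s) = s := by simp
      rw [h3] at h2
      rw [h2]
      have h4 : 1 < (1 - conj s).re := by
        rw [sub_re, one_re, conj_re]
        linarith
      have := hΛne _ h4
      intro h5
      exact this ((map_eq_zero _).1 h5)
    have h6 : (Gamma ((L : ℂ) * s))⁻¹ = 0 := by
      rcases mul_eq_zero.1 h0 with h7 | h7
      · rcases mul_eq_zero.1 h7 with h8 | h8
        · exact absurd h8 hs1
        · exact h8
      · exact absurd h7 hΛs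
    obtain ⟨n, hn⟩ := (Gamma_eq_zero_iff _).1 (inv_eq_zero.1 h6)
    exact ⟨n, by rw [← hsd]; exact hn⟩
  obtain ⟨n1, h1⟩ := key 1 le_rfl
  obtain ⟨n2, h2⟩ := key 2 (by norm_num)
  have h3 : ((L / l : ℝ) : ℂ) = (((n2 : ℤ) - (n1 : ℤ) : ℤ) : ℂ) := by
    push_cast
    have e1 : (L : ℂ) * (-(ν + (1:ℕ)) / l) - (L : ℂ) * (-(ν + (2:ℕ)) / l) = (L : ℂ) / l := by
      push_cast
      field_simp
      ring
    rw [← e1, h1, h2]
    ring
  have h4 : L / l = (((n2 : ℤ) - (n1 : ℤ) : ℤ) : ℝ) := by exact_mod_cast h3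
  rw [h4] at hLl
  exact (Int.not_irrational _) hLl

end Pool.Agent.H483.NP
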