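import Pool.Agent.H483.NP.Ker
import Pool.Agent.H483.NP.Glue
import Pool.Agent.H483.NP.Div
import Pool.Agent.H483.NP.NoElt
import Pool.Agent.H483.IP.Gram
import Pool.Agent.H483.UF.Fac

set_option autoImplicit false

/-!
# Multiplication of an element of the class by `H`
-/

namespace Pool.Agent.H483.NP

open Set Filter Topology Complex
open Pool.Agent.H483.FE Pool.Agent.H483.SA Pool.Agent.H483.ZP Pool.Agent.H336R4
open scoped ComplexConjugate

/-- functional equation after a permutation of the gamma factors -/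
lemma fe_perm {m : ℕ} {G : ℂ → ℂ} {Q : ℝ} {k : ℕ} {lam : Fin k → ℝ} {μ : Fin k → ℂ} {ω : ℂ}
    (h : PF.FE m G Q k lam μ ω) (e : Equiv.Perm (Fin k)) : PF.FE m G Q k (lam ∘ e) (μ ∘ e) ω := by
  obtain ⟨h1, h2, h3, h4⟩ := h
  refine ⟨fun j => h1 _, fun j => h2 _, h3, fun s hs0 hs1 => ?_⟩
  have key : ∀ w : ℂ, (∏ j, Complex.Gamma ((((lam ∘ e) j : ℝ) : ℂ) * w + (μ ∘ e) j)) =
      ∏ j, Complex.Gamma ((lam j : ℂ) * w + μ j) := fun w =>
    Equiv.prod_comp e (fun j => Complex.Gamma ((lam j : ℂ) * w + μ j))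
  rw [key, key]
  exact h4 s hs0 hs1

/-- functional equation with another form of the gamma factor -/
lemma fe_congr {m : ℕ} {G : ℂ → ℂ} {Q Q' : ℝ} {k k' : ℕ} {lam : Fin k → ℝ} {μ : Fin k → ℂ} {lam' : Fin k' → ℝ}
    {μ' : Fin k' → ℂ} {ω C : ℂ} (hC : C ≠ 0) (h : PF.FE m G Q k lam μ ω) (hl : ∀ j, 0 < lam' j)
    (hm : ∀ j, 0 ≤ (μ' j).re)
    (he : ∀ s : ℂ, 0 < s.re → s.re < 1 → (Q' : ℂ) ^ s * (∏ j, Complex.Gamma ((lam' j : ℂ) * s + μ' j)) =
      C * ((Q : ℂ) ^ s * (∏ j, Complex.Gamma ((lam j : ℂ) * s + μ j)))) :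
    PF.FE m G Q' k' lam' μ' (C / conj C * ω) := by
  obtain ⟨h1, h2, h3, h4⟩ := h
  have hC' : conj C ≠ 0 := by simpa using hC
  refine ⟨hl, hm, ?_, fun s hs0 hs1 => ?_⟩
  · rw [norm_mul, norm_div, Complex.norm_conj, h3, div_self (by simpa using hC), mul_one]
  · have hs' : 0 < (1 - conj s).re := by simp; linarith
    have hs'' : (1 - conj s).re < 1 := by simp; linarith
    have h5 := h4 s hs0 hs1
    rw [he s hs0 hs1, he _ hs' hs'']
    calc _ = C * ((Q : ℂ) ^ s * (∏ j, Complex.Gamma ((lam j : ℂ) * s + μ j)) * (G s / (s - 1) ^ m)) := by ring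
      _ = C * (ω * conj ((Q : ℂ) ^ (1 - conj s) * (∏ j, Complex.Gamma ((lam j : ℂ) * (1 - conj s) + μ j)) *
          (G (1 - conj s) / ((1 - conj s) - 1) ^ m))) := by rw [h5]
      _ = C / conj C * ω * conj (C * ((Q : ℂ) ^ (1 - conj s) *
          (∏ j, Complex.Gamma ((lam j : ℂ) * (1 - conj s) + μ j)) *
          (G (1 - conj s) / ((1 - conj s) - 1) ^ m))) := by
            rw [map_mul conj C]
            generalize conj ((Q : ℂ) ^ (1 - conj s) * (∏ j, Complex.Gamma ((lam j : ℂ) * (1 - conj s) + μ j)) *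
              (G (1 - conj s) / ((1 - conj s) - 1) ^ m)) = X
            field_simp
      _ = _ := by congr 2; ring

/-- duplication -/
lemma dup (l : ℝ) (ν s : ℂ) : Complex.Gamma (((l / 2 : ℝ) : ℂ) * s + ν / 2) *
    Complex.Gamma (((l / 2 : ℝ) : ℂ) * s + (ν + 1) / 2) =
    Complex.Gamma ((l : ℂ) * s + ν) * (2 : ℂ) ^ (1 - ((l : ℂ) * s + ν)) * (Real.sqrt Real.pi : ℂ) := by
  have h := Complex.Gamma_mul_Gamma_add_half (((l / 2 : ℝ) : ℂ) * s + ν / 2)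
  have e1 : ((l / 2 : ℝ) : ℂ) * s + ν / 2 + 1 / 2 = ((l / 2 : ℝ) : ℂ) * s + (ν + 1) / 2 := by ring
  have e2 : 2 * (((l / 2 : ℝ) : ℂ) * s + ν / 2) = (l : ℂ) * s + ν := by push_cast; ring
  rw [e1, e2] at h
  exact h

/-- the new data -/
noncomputable def l2 {k : ℕ} (lam : Fin (k + 1) → ℝ) : Fin (k + 2) → ℝ :=
  Matrix.vecCons (lam 0 / 2) (Matrix.vecCons (lam 0 / 2) fun i => lam i.succ)

noncomputable def m2 {k : ℕ} (μ : Fin (k + 1) → ℂ) : Fin (k + 2) → ℂ :=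
  Matrix.vecCons (μ 0 / 2) (Matrix.vecCons ((μ 0 + 1) / 2) fun i => μ i.succ)

lemma l2_sum {k : ℕ} (lam : Fin (k + 1) → ℝ) : ∑ j, l2 lam j = ∑ j, lam j := by
  unfold l2
  rw [Fin.sum_univ_succ, Fin.sum_univ_succ, Fin.sum_univ_succ]
  simp only [Matrix.cons_val_zero, Matrix.cons_val_succ]
  ring

lemma fe_dup {m : ℕ} {G : ℂ → ℂ} {Q : ℝ} (hQ : 0 < Q) {k : ℕ} {lam : Fin (k + 1) → ℝ} {μ : Fin (k + 1) → ℂ} {ω : ℂ}
    (h : PF.FE m G Q (k + 1) lam μ ω) : ∃ (Q' : ℝ) (ω' : ℂ), 0 < Q' ∧ PF.FE m G Q' (k + 2) (l2 lam) (m2 μ) ω' := by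
  have h1 := h.1
  have h2 := h.2.1
  have h2r : (0:ℝ) < 2 ^ (lam 0) := by positivity
  have hC : (2 : ℂ) ^ (1 - μ 0) * (Real.sqrt Real.pi : ℂ) ≠ 0 := by
    refine mul_ne_zero ?_ ?_
    · rw [Ne, Complex.cpow_eq_zero_iff]; simp
    · have : Real.sqrt Real.pi ≠ 0 := by have := Real.pi_pos; positivity
      exact_mod_cast this
  refine ⟨Q * 2 ^ (lam 0), _, by positivity, fe_congr (C := (2 : ℂ) ^ (1 - μ 0) * (Real.sqrt Real.pi : ℂ)) hC h ?_ ?_ ?_⟩
  · intro j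
    unfold l2
    refine Fin.cases ?_ (fun j => Fin.cases ?_ (fun j => ?_) j) j
    · have := h1 0; simp only [Matrix.cons_val_zero]; linarith
    · have := h1 0; simp only [Matrix.cons_val_succ, Matrix.cons_val_zero]; linarith
    · simp only [Matrix.cons_val_succ]; exact h1 _
  · intro j
    unfold m2
    refine Fin.cases ?_ (fun j => Fin.cases ?_ (fun j => ?_) j) j
    · have := h2 0
      simp only [Matrix.cons_val_zero]
      have e : (μ 0 / 2).re = (μ 0).re / 2 := by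
        rw [show (2:ℂ) = ((2:ℝ):ℂ) by norm_num, Complex.div_ofReal_re]
      rw [e]; linarith
    · have := h2 0
      simp only [Matrix.cons_val_succ, Matrix.cons_val_zero]
      have e : ((μ 0 + 1) / 2).re = ((μ 0).re + 1) / 2 := by
        rw [show (2:ℂ) = ((2:ℝ):ℂ) by norm_num, Complex.div_ofReal_re]; simp
      rw [e]; linarith
    · simp only [Matrix.cons_val_succ]; exact h2 _
  · intro s _ _
    rw [Fin.prod_univ_succ, Fin.prod_univ_succ, Fin.prod_univ_succ (fun j => Complex.Gamma ((lam j : ℂ) * s + μ j))]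
    unfold l2 m2
    simp only [Matrix.cons_val_zero, Matrix.cons_val_succ]
    rw [← mul_assoc (Complex.Gamma _) (Complex.Gamma _) (∏ _, _), dup]
    have e1 : ((Q * 2 ^ (lam 0) : ℝ) : ℂ) ^ s = (Q : ℂ) ^ s * (2 : ℂ) ^ ((lam 0 : ℂ) * s) := by
      rw [Complex.ofReal_mul, Complex.mul_cpow_ofReal_nonneg hQ.le (by positivity)]
      congr 1
      rw [Complex.cpow_def_of_ne_zero (by exact_mod_cast h2r.ne'), ← Complex.ofReal_log h2r.le,
        Real.log_rpow (by norm_num), Complex.cpow_def_of_ne_zero two_ne_zero]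
      congr 1
      rw [show (2:ℂ) = ((2:ℝ):ℂ) by norm_num, ← Complex.ofReal_log (by norm_num)]
      push_cast
      ring
    have e2 : (2 : ℂ) ^ (1 - ((lam 0 : ℂ) * s + μ 0)) = (2 : ℂ) ^ (1 - μ 0) * (2 : ℂ) ^ (-((lam 0 : ℂ) * s)) := by
      rw [← Complex.cpow_add _ _ two_ne_zero]
      congr 1
      ring
    have e3 : (2 : ℂ) ^ ((lam 0 : ℂ) * s) * (2 : ℂ) ^ (-((lam 0 : ℂ) * s)) = 1 := by
      rw [← Complex.cpow_add _ _ two_ne_zero, add_neg_cancel, Complex.cpow_zero]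
    rw [e1, e2]
    generalize (2 : ℂ) ^ ((lam 0 : ℂ) * s) = A at e3 ⊢
    generalize (2 : ℂ) ^ (-((lam 0 : ℂ) * s)) = B at e3 ⊢
    linear_combination ((Q : ℂ) ^ s * Complex.Gamma ((lam 0 : ℂ) * s + μ 0) * (2 : ℂ) ^ (1 - μ 0) *
      (Real.sqrt Real.pi : ℂ) * ∏ i : Fin k, Complex.Gamma ((lam i.succ : ℂ) * s + μ i.succ)) * e3

end Pool.Agent.H483.NP
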