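import Pool.Agent.H483.NP.Mul

set_option autoImplicit false

/-!
# Multiplication of an element of the class by `H`
-/

namespace Pool.Agent.H483.NP

open Set Filter Topology Complex
open Pool.Agent.H483.FE Pool.Agent.H483.SA Pool.Agent.H483.ZP Pool.Agent.H336R4 Pool.Agent.H902R3.PZ
open scoped ComplexConjugate

/-- the arithmetic function of `H` -/
noncomputable def HA (a : ℕ → ℂ) : ArithmeticFunction ℂ := ⟨cf a, cf_zero' a⟩

lemma Fo.of_Gr {f : ℂ → ℂ} (h : Gr f) : Fo f := by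
  obtain ⟨C, hC, h⟩ := h
  exact ⟨C, 2, hC, h⟩

lemma Fo.inv_aff (l : ℝ) (ν : ℂ) : Fo (fun s : ℂ => (Complex.Gamma ((l : ℂ) * s + ν))⁻¹) :=
  Fo.of_Gr (Gr.inv_Gamma.comp_affine (l : ℂ) ν)

lemma Fo.refl {f : ℂ → ℂ} (hf : Fo f) : Fo (fun s => f (1 - conj s)) := by
  refine Fo.comp hf (A := 1) fun z => ?_
  refine (norm_sub_le _ _).trans ?_
  rw [norm_one, Complex.norm_conj, one_mul]

/-- bound of the series -/
lemma series_bd {a : ℕ → ℂ} (h : LSeriesSummable (cf a) 2) : ∃ C : ℝ, 0 ≤ C ∧ ∀ s : ℂ, 2 ≤ s.re → ‖LSeries (cf a) s‖ ≤ C := by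
  refine ⟨∑' n, ‖LSeries.term (cf a) 2 n‖, tsum_nonneg fun _ => norm_nonneg _, fun s hs => ?_⟩
  unfold LSeries
  apply tsum_of_norm_bounded h.norm.hasSum
  intro n
  exact LSeries.norm_term_le_of_re_le_re (cf a) (by simpa using hs) n

/-- the data of `H` -/
structure HD (L l : ℝ) (ν : ℂ) (Q : ℝ) (a : ℕ → ℂ) (Λ : ℂ → ℂ) : Prop where
  hL : 0 < L
  hl : 0 < l
  hν : 0 ≤ ν.re
  hQ : 0 < Q
  ha : ∀ p, ‖a p‖ ≤ 1
  diff : Differentiable ℂ Λ
  sym : ∀ s, Λ (1 - conj s) = conj (Λ s)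
  sb : SB Λ
  ser : ∀ s : ℂ, 277 / 400 < s.re → LSeriesSummable (cf a) s ∧
    Λ s = (Q : ℂ) ^ s * (Complex.Gamma ((L : ℂ) * s) * (Complex.Gamma ((l : ℂ) * s + ν))⁻¹) * LSeries (cf a) s

variable {L l : ℝ} {ν : ℂ} {QH : ℝ} {a : ℕ → ℂ} {Λ : ℂ → ℂ}

lemma HD.fo (D : HD L l ν QH a Λ) : Fo Λ := by
  obtain ⟨CL, hCL0, hCL⟩ := series_bd (a := a) (D.ser 2 (by norm_num)).1
  obtain ⟨CS, hCS⟩ := D.sb (-1) 2
  have hQ := D.hQ
  have hL := D.hL
  set p : ℂ → ℂ := fun s => (CL : ℂ) * ((QH : ℂ) ^ ((1:ℂ) * s + 0) * ((if 1 ≤ s.re then Complex.Gamma ((L : ℂ) * s) else 0) *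
    (Complex.Gamma ((l : ℂ) * s + ν))⁻¹)) with hp
  have h1 : Fo (fun s : ℂ => if 1 ≤ s.re then Complex.Gamma ((L : ℂ) * s) else 0) := by
    have h2 : Fo (fun s : ℂ => (fun w : ℂ => if L ≤ w.re then Complex.Gamma w else 0) ((L : ℂ) * s)) :=
      Fo.comp (Fo.gamma_right hL) (A := L) fun z => by
        rw [norm_mul, Complex.norm_real, Real.norm_eq_abs, abs_of_pos hL]
        nlinarith [norm_nonneg z]
    refine Fo.norm_le h2 fun z => ?_
    beta_reduce
    have e : ((L : ℂ) * z).re = L * z.re := by simp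
    rw [e]
    by_cases hz : 1 ≤ z.re
    · rw [if_pos hz, if_pos (by nlinarith)]
    · rw [if_neg hz, norm_zero]; exact norm_nonneg _
  have hpF : Fo p := (Fo.const _).mul ((Fo.cpow hQ 1 0).mul (h1.mul (Fo.inv_aff l ν)))
  have hright : ∀ s : ℂ, 2 ≤ s.re → ‖Λ s‖ ≤ ‖p s‖ := by
    intro s hs
    rw [(D.ser s (by linarith)).2, hp]
    beta_reduce
    rw [if_pos (by linarith), one_mul, add_zero, norm_mul, norm_mul (CL : ℂ), norm_mul ((QH : ℂ) ^ s),
      mul_comm, Complex.norm_real, Real.norm_eq_abs, abs_of_nonneg hCL0]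
    exact mul_le_mul_of_nonneg_right (hCL s hs) (by positivity)
  refine Fo.piece (Fo.const (CS : ℂ)) (Fo.piece (f := fun s => if -1 ≤ s.re ∧ s.re ≤ 2 then 0 else Λ s)
    hpF hpF.refl ?_) ?_
  · intro s
    by_cases h : -1 ≤ s.re ∧ s.re ≤ 2
    · left
      rw [if_pos h, norm_zero]
      exact norm_nonneg _
    · rw [if_neg h]
      rcases le_total 2 s.re with h2 | h2
      · left; exact hright s h2
      · right
        have h3 : s.re < -1 := by
          by_contra hcon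
          exact h ⟨not_lt.1 hcon, h2⟩
        have e0 : ‖Λ s‖ = ‖Λ (1 - conj s)‖ := by rw [D.sym s, Complex.norm_conj]
        rw [e0]
        exact hright _ (by simp; linarith)
  · intro s
    by_cases h : -1 ≤ s.re ∧ s.re ≤ 2
    · left
      rw [Complex.norm_real, Real.norm_eq_abs]
      exact (hCS s h.1 h.2).trans (le_abs_self _)
    · right
      rw [if_neg h]

/-- `H` is multiplicative data of the class -/
lemma HA_one (a : ℕ → ℂ) : (fun n => HA a n) 1 = 1 := cf_one a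

lemma HA_ram (ha : ∀ p, ‖a p‖ ≤ 1) : PF.Ram (fun n => HA a n) := by
  intro ε hε
  refine ⟨1, fun n hn => ?_⟩
  rw [one_mul]
  exact (cf_le_one ha n).trans (Real.one_le_rpow (by exact_mod_cast hn) hε.le)

lemma HA_eul (ha : ∀ p, ‖a p‖ ≤ 1) : PF.Eul (fun n => HA a n) := by
  rw [Pool.Agent.H177R3.Lit.euler_iff (HA_one a) (HA_ram ha)]
  refine ⟨bc a, 0, 1, by norm_num, fun p k hp hk => ?_, fun s hs => ?_⟩
  · rw [Real.rpow_zero, mul_one]
    exact bc_le ha hp hk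
  · exact euler_exp ha (by linarith) (Pool.Agent.H177R3.PFV.ram_summable (HA_ram ha) hs)

lemma mul_apply' (f g : ArithmeticFunction ℂ) : LSeries.convolution (fun n => f n) (fun n => g n) = fun n => (f * g) n :=
  ArithmeticFunction.coe_mul f g

lemma LS_HA {f : ArithmeticFunction ℂ} (hf : UF.S f) (ha : ∀ p, ‖a p‖ ≤ 1) {s : ℂ} (hs : 1 < s.re) :
    LSeries (fun n => (f * HA a) n) s = LSeries (fun n => f n) s * LSeries (cf a) s :=
  ArithmeticFunction.LSeries_mul' (hf.sum hs) (Pool.Agent.H177R3.PFV.ram_summable (HA_ram ha) hs)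

lemma gamma_pos_ne {x : ℝ} {y s : ℂ} (hx : 0 < x) (hy : 0 ≤ y.re) (hs : 0 < s.re) :
    Complex.Gamma ((x : ℂ) * s + y) ≠ 0 := by
  apply Complex.Gamma_ne_zero_of_re_pos
  rw [re_aff]
  have := mul_pos hx hs
  linarith

/-- **Multiplication by `H`**: the gamma factor `j₀` is replaced by `Γ(L s)`. -/
theorem mulA {f : ArithmeticFunction ℂ} (hf : UF.S f) {m : ℕ} {G : ℂ → ℂ} (hc : PF.Cont (fun n => f n) m G) {Q : ℝ}
    (hQ : 0 < Q) {k : ℕ} {lam : Fin (k + 1) → ℝ} {μ : Fin (k + 1) → ℂ} {ω : ℂ} (hFE : PF.FE m G Q (k + 1) lam μ ω)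
    (j₀ : Fin (k + 1)) (D : HD L l ν QH a Λ) (el : lam j₀ = l) (em : μ j₀ = ν) :
    ∃ G' : ℂ → ℂ, PF.Cont (fun n => (f * HA a) n) m G' ∧
      PF.FE m G' (Q * QH) (k + 1) (Function.update lam j₀ L) (Function.update μ j₀ 0) ω := by
  have hL := D.hL
  have hl := D.hl
  have hν := D.hν
  have hQH := D.hQ
  have hQH' : (QH : ℂ) ≠ 0 := by exact_mod_cast hQH.ne'
  have hFE' := fe_perm hFE (Equiv.swap 0 j₀)
  obtain ⟨hG1, hG2, hG3⟩ := hc
  obtain ⟨V, hV1, hV2, hV3⟩ := ext_V hG1 (Fo.of_order hG1.continuous hG2) hQ hFE'.1 hFE'.2.1 (PF.fex m G hG1 Q (k + 1) _ _ ω hQ hFE')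
  simp only [Function.comp_apply, Equiv.swap_apply_left, el, em] at hV3
  obtain ⟨U, hU1, hU2, hU3⟩ := div_W hG1 hV1 hl hL hν hV3
  have hUF : Fo U := by
    obtain ⟨B, hB⟩ := (isCompact_closedBall (0 : ℂ) 1).exists_bound_of_continuousOn
      (hU1.continuous.continuousOn (s := Metric.closedBall (0 : ℂ) 1))
    have h1 : Fo (fun s : ℂ => V s * (Complex.Gamma ((L : ℂ) * s + 0))⁻¹) := hV2.mul (Fo.inv_aff L 0)
    refine Fo.piece (Fo.const (B : ℂ)) h1 fun s => ?_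
    rcases le_total ‖s‖ 1 with h | h
    · left
      rw [Complex.norm_real, Real.norm_eq_abs]
      exact (hB s (by simpa using h)).trans (le_abs_self _)
    · right
      have hs0 : s ≠ 0 := by rintro rfl; simp at h; linarith
      rw [hU2 s hs0, norm_div, norm_pow, add_zero]
      exact div_le_self (norm_nonneg _) (one_le_pow₀ h)
  have hcp : Differentiable ℂ fun s : ℂ => (QH : ℂ) ^ (-s) := fun s =>
    DifferentiableAt.const_cpow (by fun_prop) (Or.inl hQH')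
  have hcpF : Fo fun s : ℂ => (QH : ℂ) ^ (-s) := by
    have := Fo.cpow hQH (-1) 0
    refine Fo.norm_le this fun s => le_of_eq ?_
    congr 2; ring
  -- the key identity
  have key : ∀ s : ℂ, 0 < s.re → U s * (Λ s * (QH : ℂ) ^ (-s)) = G s * (Complex.Gamma ((l : ℂ) * s + ν) *
      (Complex.Gamma ((L : ℂ) * s))⁻¹) * (Λ s * (QH : ℂ) ^ (-s)) := by
    intro s hs
    rw [hU3 s hs]
    ring
  have hQQ : ∀ s : ℂ, (QH : ℂ) ^ s * (QH : ℂ) ^ (-s) = 1 := fun s => by
    rw [← Complex.cpow_add _ _ hQH', add_neg_cancel, Complex.cpow_zero]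
  refine ⟨fun s => U s * (Λ s * (QH : ℂ) ^ (-s)), ⟨hU1.mul (D.diff.mul hcp), (hUF.mul (D.fo.mul hcpF)).order,
    fun s hs => ?_⟩, ?_⟩
  · beta_reduce
    obtain ⟨h1, h2⟩ := D.ser s (by linarith)
    rw [key s (by linarith), h2, LS_HA hf D.ha hs, hG3 s hs]
    have n1 : Complex.Gamma ((l : ℂ) * s + ν) ≠ 0 := gamma_pos_ne hl hν (by linarith)
    have n2 : Complex.Gamma ((L : ℂ) * s) ≠ 0 := by
      have := gamma_pos_ne (y := 0) hL (by simp) (by linarith : 0 < s.re)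
      rwa [add_zero] at this
    have h3 := hQQ s
    generalize (QH : ℂ) ^ s = A at h3 ⊢
    generalize (QH : ℂ) ^ (-s) = B at h3 ⊢
    generalize Complex.Gamma ((l : ℂ) * s + ν) = X at n1 ⊢
    generalize Complex.Gamma ((L : ℂ) * s) = Y at n2 ⊢
    field_simp
    linear_combination (LSeries (cf a) s) * (s - 1) ^ m * LSeries (fun n => f n) s * h3
  · obtain ⟨f1, f2, f3, f4⟩ := hFE
    have key2 : ∀ s : ℂ, 0 < s.re → ((Q * QH : ℝ) : ℂ) ^ s *
        (∏ j, Complex.Gamma (((Function.update lam j₀ L j : ℝ) : ℂ) * s + Function.update μ j₀ 0 j)) *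
        ((U s * (Λ s * (QH : ℂ) ^ (-s))) / (s - 1) ^ m) =
        ((Q : ℂ) ^ s * (∏ j, Complex.Gamma ((lam j : ℂ) * s + μ j)) * (G s / (s - 1) ^ m)) * Λ s := by
      intro s hs
      rw [key s hs, ← Finset.mul_prod_erase Finset.univ (fun j => Complex.Gamma
        (((Function.update lam j₀ L j : ℝ) : ℂ) * s + Function.update μ j₀ 0 j)) (Finset.mem_univ j₀),
        ← Finset.mul_prod_erase Finset.univ (fun j => Complex.Gamma ((lam j : ℂ) * s + μ j)) (Finset.mem_univ j₀)]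
      have e1 : ∏ j ∈ Finset.univ.erase j₀, Complex.Gamma
          (((Function.update lam j₀ L j : ℝ) : ℂ) * s + Function.update μ j₀ 0 j) =
          ∏ j ∈ Finset.univ.erase j₀, Complex.Gamma ((lam j : ℂ) * s + μ j) := by
        refine Finset.prod_congr rfl fun j hj => ?_
        have hne := Finset.ne_of_mem_erase hj
        rw [Function.update_of_ne hne, Function.update_of_ne hne]
      rw [e1, Function.update_self, Function.update_self, add_zero, el, em, Complex.ofReal_mul,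
        Complex.mul_cpow_ofReal_nonneg hQ.le hQH.le]
      have n2 : Complex.Gamma ((L : ℂ) * s) ≠ 0 := by
        have := gamma_pos_ne (y := 0) hL (by simp) hs
        rwa [add_zero] at this
      have h3 := hQQ s
      generalize (QH : ℂ) ^ s = A at h3 ⊢
      generalize (QH : ℂ) ^ (-s) = B at h3 ⊢
      generalize Complex.Gamma ((L : ℂ) * s) = Y at n2 ⊢
      generalize Complex.Gamma ((l : ℂ) * s + ν) = X
      generalize (∏ j ∈ Finset.univ.erase j₀, Complex.Gamma ((lam j : ℂ) * s + μ j)) = Z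
      have h4 : Y * Y⁻¹ = 1 := mul_inv_cancel₀ n2
      calc _ = (A * B) * (Y * Y⁻¹) * ((Q : ℂ) ^ s * (X * Z) * (G s / (s - 1) ^ m) * Λ s) := by ring
        _ = _ := by rw [h3, h4]; ring
    refine ⟨fun j => ?_, fun j => ?_, f3, fun s hs0 hs1 => ?_⟩
    · by_cases hj : j = j₀
      · rw [hj, Function.update_self]; exact hL
      · rw [Function.update_of_ne hj]; exact f1 j
    · by_cases hj : j = j₀
      · rw [hj, Function.update_self]; simp
      · rw [Function.update_of_ne hj]; exact f2 j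
    · have hs' : 0 < (1 - conj s).re := by simp; linarith
      beta_reduce
      rw [key2 s hs0, key2 _ hs', f4 s hs0 hs1, D.sym s]
      generalize (Q : ℂ) ^ (1 - conj s) * (∏ j, Complex.Gamma ((lam j : ℂ) * (1 - conj s) + μ j)) *
        (G (1 - conj s) / (1 - conj s - 1) ^ m) = X
      rw [map_mul, Complex.conj_conj]
      ring

/-- membership -/
theorem mul_S {f : ArithmeticFunction ℂ} (hf : UF.S f) {m : ℕ} {G : ℂ → ℂ} (ha : ∀ p, ‖a p‖ ≤ 1)
    (hc : PF.Cont (fun n => (f * HA a) n) m G) {Q : ℝ}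
    (hQ : 0 < Q) {k : ℕ} {lam : Fin k → ℝ} {μ : Fin k → ℂ} {ω : ℂ} (hFE : PF.FE m G Q k lam μ ω) :
    PF.Cls (fun n => (f * HA a) n) (2 * ∑ j, lam j) := by
  have h1 : PF.Ram (fun n => (f * HA a) n) := by
    have := Pool.Agent.Y861.SelZ.ram_mul hf.ram (HA_ram ha)
    rw [mul_apply'] at this
    exact this
  have h2 : PF.Eul (fun n => (f * HA a) n) := by
    have := UF.eul_mul hf.one' (HA_one a) hf.ram (HA_ram ha) hf.2.2.2 (HA_eul ha)
    rw [mul_apply'] at this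
    exact this
  refine ⟨?_, h1, ⟨m, G, hc, Q, k, lam, μ, ω, hQ, hFE, rfl⟩, h2⟩
  show (f * HA a) 1 = 1
  have h3 : HA a 1 = 1 := cf_one a
  rw [ArithmeticFunction.mul_apply_one, hf.one', h3, mul_one]

end Pool.Agent.H483.NP
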