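import Pool.Agent.H483.NP.Mul2
import Pool.Agent.H483.NP.Ker4
import Pool.Agent.H483.NP.Glue2
import Pool.Agent.H483.ZP.Gfun

set_option autoImplicit false

/-!
# Multiplication by `H`: any functional equation
-/

namespace Pool.Agent.H483.NP

open Set Filter Topology Complex
open Pool.Agent.H483.FE Pool.Agent.H483.SA Pool.Agent.H483.ZP Pool.Agent.H336R4 Pool.Agent.H902R3.PZ
open scoped ComplexConjugate

variable {r r' : ℕ}

/-- the data of `H` -/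
structure HD4 (α : ℝ) (c : ℂ) (lam : Fin r → ℝ) (mu : Fin r → ℂ) (l : Fin r' → ℝ) (ν : Fin r' → ℂ) (Q : ℝ)
    (a : ℕ → ℂ) (Λ : ℂ → ℂ) : Prop where
  hα : α < 1 / 2
  hc : ‖c‖ = 1
  hL : ∀ j, 0 < lam j
  hm : ∀ j, 0 ≤ (mu j).re
  hl : ∀ j, 0 < l j
  hν : ∀ j, 0 ≤ (ν j).re
  hQ : 0 < Q
  ha : ∀ p, ‖a p‖ ≤ 1
  diff : Differentiable ℂ Λ
  sym : ∀ s, Λ (1 - conj s) = conj (Λ s)
  sb : SB Λ
  ser : ∀ s : ℂ, 1 / 2 + α < s.re → LSeriesSummable (cf a) s ∧ Λ s = (Q : ℂ) ^ s * k4 c lam mu l ν s * LSeries (cf a) s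

variable {α : ℝ} {c : ℂ} {lam : Fin r → ℝ} {mu : Fin r → ℂ} {l : Fin r' → ℝ} {ν : Fin r' → ℂ} {QH : ℝ} {a : ℕ → ℂ}
  {Λ : ℂ → ℂ}

lemma HD4.fo (D : HD4 α c lam mu l ν QH a Λ) : Fo Λ := by
  have hα := D.hα
  obtain ⟨CL, hCL0, hCL⟩ := series_bd (a := a) (D.ser 2 (by norm_num; linarith)).1
  obtain ⟨CS, hCS⟩ := D.sb (-1) 2
  have hQ := D.hQ
  set p : ℂ → ℂ := fun s => (CL : ℂ) * ((QH : ℂ) ^ ((1:ℂ) * s + 0) *
    ((c * ∏ j, (fun w : ℂ => if lam j ≤ w.re then Complex.Gamma w else 0) ((lam j : ℂ) * s + mu j)) *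
    dn4 l ν s)) with hp
  have hpF : Fo p := by
    refine (Fo.const _).mul ((Fo.cpow hQ 1 0).mul (((Fo.const _).mul ?_).mul ?_))
    · exact Fo.prod _ fun j _ => Fo_aff (Fo.gamma_right (D.hL j)) _ _
    · exact Fo.prod _ fun j _ => Fo_aff Fo.inv_gamma _ _
  have hright : ∀ s : ℂ, 2 ≤ s.re → ‖Λ s‖ ≤ ‖p s‖ := by
    intro s hs
    have h4 : ∀ j, (if lam j ≤ ((lam j : ℂ) * s + mu j).re then
        Complex.Gamma ((lam j : ℂ) * s + mu j) else 0) = Complex.Gamma ((lam j : ℂ) * s + mu j) := by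
      intro j
      rw [if_pos]
      rw [re_arg]
      have h1 := D.hL j
      have h2 := D.hm j
      nlinarith
    rw [(D.ser s (by linarith)).2, hp]
    beta_reduce
    rw [Finset.prod_congr rfl fun j _ => h4 j, one_mul, add_zero]
    unfold k4 gm
    rw [norm_mul, norm_mul (CL : ℂ), mul_comm, Complex.norm_real, Real.norm_eq_abs, abs_of_nonneg hCL0]
    exact mul_le_mul_of_nonneg_right (hCL s hs) (norm_nonneg _)
  refine Fo.piece (Fo.const (CS : ℂ)) (Fo.piece (f := fun s => if -1 ≤ s.re ∧ s.re ≤ 2 then 0 else Λ s)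
    hpF hpF.refl ?_) ?_
  · intro s
    by_cases h : -1 ≤ s.re ∧ s.re ≤ 2
    · left
      rw [if_pos h, norm_zero]
      exact norm_nonneg _
    · rw [if_neg h]
      rcases le_total 2 s.re with h2 | h2
      · left; exact hright s h2
      · right
        have h3 : s.re < -1 := by
          by_contra hcon
          exact h ⟨not_lt.1 hcon, h2⟩
        have e0 : ‖Λ s‖ = ‖Λ (1 - conj s)‖ := by rw [D.sym s, Complex.norm_conj]
        rw [e0]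
        exact hright _ (by simp; linarith)
  · intro s
    by_cases h : -1 ≤ s.re ∧ s.re ≤ 2
    · left
      rw [Complex.norm_real, Real.norm_eq_abs]
      exact (hCS s h.1 h.2).trans (le_abs_self _)
    · right
      rw [if_neg h]

/-- **Multiplication by `H`**: the gamma factor is replaced by `∏ Γ(λ_j s + μ_j)`. -/
theorem mulB {f : ArithmeticFunction ℂ} (hf : UF.S f) {m : ℕ} {G : ℂ → ℂ} (hc : PF.Cont (fun n => f n) m G) {Q : ℝ}
    (hQ : 0 < Q) {ω : ℂ} (hFE : PF.FE m G Q r' l ν ω) (D : HD4 α c lam mu l ν QH a Λ) {J : Finset (Fin r)}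
    (hJm : J.card = m) (hJ : ∀ j ∈ J, mu j = 0) :
    ∃ G' : ℂ → ℂ, PF.Cont (fun n => (f * HA a) n) m G' ∧ PF.FE m G' (Q * QH) r lam mu (conj c / c * ω) := by
  have hQH := D.hQ
  have hα := D.hα
  have hQH' : (QH : ℂ) ≠ 0 := by exact_mod_cast hQH.ne'
  have hc1 := D.hc
  have hc0 : c ≠ 0 := by rintro rfl; simp at hc1
  have hcc0 : conj c ≠ 0 := by simpa using hc0
  obtain ⟨hG1, hG2, hG3⟩ := hc
  obtain ⟨V, hV1, hV2, hV3⟩ := ext_full hG1 (Fo.of_order hG1.continuous hG2) hQ hFE.1 hFE.2.1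
    (PF.fex m G hG1 Q r' _ _ ω hQ hFE)
  have hnp : ∀ s : ℂ, 0 < s.re → ∀ j, ∀ n : ℕ, (lam j : ℂ) * s + mu j ≠ -(n : ℂ) := by
    intro s hs j n h
    have h1 := congrArg Complex.re h
    rw [re_arg] at h1
    have h2 := mul_pos (D.hL j) hs
    have h3 := D.hm j
    have h4 : (0:ℝ) ≤ n := Nat.cast_nonneg n
    simp at h1
    linarith
  have hjg : ∀ s : ℂ, 0 < s.re → s ^ m * jg c QH lam mu J s * ((QH : ℂ) ^ s * ∏ j, Complex.Gamma ((lam j : ℂ) * s + mu j)) =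
      c⁻¹ := by
    intro s hs
    rw [← hJm]
    exact jg_mul c hQH hJ (hnp s hs)
  refine ⟨fun s => V s * (Λ s * jg c QH lam mu J s), ⟨hV1.mul (D.diff.mul (jg_diff c hQH lam mu J)),
    (hV2.mul (D.fo.mul (Fo.of_Gr (jg_Gr c hQH lam mu J)))).order, fun s hs => ?_⟩, ?_⟩
  · beta_reduce
    obtain ⟨h1, h2⟩ := D.ser s (by linarith)
    have h3 := hjg s (by linarith)
    rw [hV3 s (by linarith), h2, LS_HA hf D.ha hs, hG3 s hs]
    unfold k4 gm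
    have h5 : (∏ j, Complex.Gamma ((l j : ℂ) * s + ν j)) * dn4 l ν s = 1 := by
      unfold dn4
      rw [← Finset.prod_mul_distrib]
      exact Finset.prod_eq_one fun j _ => mul_inv_cancel₀ (gamma_pos_ne (D.hl j) (D.hν j) (by linarith))
    generalize (∏ j, Complex.Gamma ((l j : ℂ) * s + ν j)) = X at h5 ⊢
    generalize dn4 l ν s = Y at h5 ⊢
    generalize (∏ j, Complex.Gamma ((lam j : ℂ) * s + mu j)) = W at h3 ⊢
    generalize jg c QH lam mu J s = Z at h3 ⊢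
    calc _ = (s ^ m * Z * ((QH : ℂ) ^ s * W)) * c * (X * Y) *
          ((s - 1) ^ m * LSeries (fun n => f n) s * LSeries (cf a) s) := by ring
      _ = _ := by rw [h3, h5, inv_mul_cancel₀ hc0]; ring
  · obtain ⟨f1, f2, f3, f4⟩ := hFE
    have key2 : ∀ s : ℂ, 0 < s.re → ((Q * QH : ℝ) : ℂ) ^ s *
        (∏ j, Complex.Gamma ((lam j : ℂ) * s + mu j)) *
        ((V s * (Λ s * jg c QH lam mu J s)) / (s - 1) ^ m) =
        ((Q : ℂ) ^ s * (∏ j, Complex.Gamma ((l j : ℂ) * s + ν j)) * (G s / (s - 1) ^ m)) * (Λ s * c⁻¹) := by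
      intro s hs
      rw [hV3 s hs, Complex.ofReal_mul, Complex.mul_cpow_ofReal_nonneg hQ.le hQH.le, ← hjg s hs]
      ring
    refine ⟨D.hL, D.hm, ?_, fun s hs0 hs1 => ?_⟩
    · rw [norm_mul, norm_div, Complex.norm_conj, hc1, f3]; norm_num
    · have hs' : 0 < (1 - conj s).re := by simp; linarith
      beta_reduce
      rw [key2 s hs0, key2 _ hs', f4 s hs0 hs1, D.sym s]
      generalize (Q : ℂ) ^ (1 - conj s) * (∏ j, Complex.Gamma ((l j : ℂ) * (1 - conj s) + ν j)) *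
        (G (1 - conj s) / (1 - conj s - 1) ^ m) = X
      rw [map_mul, map_mul, Complex.conj_conj, map_inv₀]
      field_simp

/-- **Any functional equation.** -/
theorem approx {f : ArithmeticFunction ℂ} (hf : UF.S f) {m : ℕ} {G : ℂ → ℂ} (hc : PF.Cont (fun n => f n) m G) {Q : ℝ}
    (hQ : 0 < Q) {ω : ℂ} (hFE : PF.FE m G Q r' l ν ω) (hL : ∀ j, 0 < lam j) (hm : ∀ j, 0 ≤ (mu j).re)
    {J : Finset (Fin r)} (hJm : J.card = m) (hJ : ∀ j ∈ J, mu j = 0) (hα0 : 0 < α) (hα : α ≤ 77 / 400)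
    (h1 : 1 < (∑ j, lam j - ∑ j, l j) * (2 * α)) :
    ∃ Q₀ : ℝ, 0 < Q₀ ∧ ∀ q : ℝ, Q₀ ≤ q → ∀ ω' : ℂ, ‖ω'‖ = 1 → ∃ (a : ℕ → ℂ) (G' : ℂ → ℂ),
      (∀ p, ¬ p.Prime → a p = 0) ∧ (∀ p, ‖a p‖ ≤ 1) ∧ (∀ s : ℂ, 1 / 2 + α < s.re → LSeriesSummable (cf a) s) ∧
      PF.Cont (fun n => (f * HA a) n) m G' ∧ PF.FE m G' q r lam mu ω' := by
  obtain ⟨Q₁, hQ₁, hfam⟩ := fam4 hL hm hFE.1 hFE.2.1 hα0 hα h1
  refine ⟨Q * Q₁, by positivity, fun q hq ω' hω' => ?_⟩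
  have hω := hFE.2.2.1
  have hω0 : ω ≠ 0 := by rintro rfl; simp at hω
  obtain ⟨c, hc1, hcω⟩ := exists_root (ω := ω' / ω) (by rw [norm_div, hω, hω', div_one])
  obtain ⟨a, Λ, a1, a2, a3, a4, a5, a6⟩ := hfam (q / Q) ((le_div_iff₀ hQ).2 (by linarith)) c hc1
  have D : HD4 α c lam mu l ν (q / Q) a Λ :=
    ⟨by linarith, hc1, hL, hm, hFE.1, hFE.2.1, by
      have : 0 < q := lt_of_lt_of_le (by positivity) hq
      positivity, a2, a3, a4, a5, a6⟩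
  obtain ⟨G', g1, g2⟩ := mulB hf hc hQ hFE D hJm hJ
  refine ⟨a, G', a1, a2, fun s hs => (a6 s hs).1, g1, ?_⟩
  rw [hcω, div_mul_cancel₀ _ hω0, mul_div_cancel₀ _ hQ.ne'] at g2
  exact g2

end Pool.Agent.H483.NP
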