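import Pool.Agent.H483.NP.Avoid

set_option autoImplicit false

/-!
# No element of the class is prime
-/

namespace Pool.Agent.H483.NP

open Set Filter Topology Complex
open Pool.Agent.H483.FE Pool.Agent.H483.SA Pool.Agent.H483.ZP Pool.Agent.H336R4
open scoped ComplexConjugate

/-- existence of the data -/
lemma exists_HD {L l : ℝ} {ν : ℂ} (hL : 0 < L) (hl : 0 < l) (hν : 0 ≤ ν.re) (h1 : 1 < (L - l) * (2 * (77 / 400))) :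
    ∃ (Q : ℝ) (a : ℕ → ℂ) (Λ : ℂ → ℂ), HD L l ν Q a Λ := by
  obtain ⟨Q₀, hQ₀, h⟩ := fam3 hL hl hν (α := 77 / 400) (by norm_num) le_rfl h1
  obtain ⟨a, Λ, a1, a2, a3, a4, a5, a6⟩ := h Q₀ le_rfl
  refine ⟨Q₀, a, Λ, hL, hl, hν, by linarith, a2, a3, a4, a5, fun s hs => a6 s ?_⟩
  have : (1:ℝ) / 2 + 77 / 400 = 277 / 400 := by norm_num
  rw [this]
  exact hs

lemma HD.ne {L l : ℝ} {ν : ℂ} {QH : ℝ} {a : ℕ → ℂ} {Λ : ℂ → ℂ} (D : HD L l ν QH a Λ) {s : ℂ} (hs : 1 < s.re) :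
    LSeries (cf a) s ≠ 0 := euler_ne D.ha (by linarith) (D.ser s (by linarith)).1

/-- `F` does not divide `F H` -/
lemma HD.not_dvd {L l : ℝ} {ν : ℂ} {QH : ℝ} {a : ℕ → ℂ} {Λ : ℂ → ℂ} (D : HD L l ν QH a Λ) (hLl : Irrational (L / l))
    {F : ArithmeticFunction ℂ} (hF : UF.S F) : ¬ ∃ K, UF.S K ∧ F * HA a = F * K := by
  rintro ⟨K, hK, he⟩
  obtain ⟨-, -, ⟨m, G, hG, -, hGs, -⟩, -⟩ := id hK
  refine no_elt D.hQ D.hl D.hν D.hL hLl D.diff D.sym (h := cf a) (fun s hs => (D.ser s (by linarith)).2)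
    (fun s hs => D.ne hs) ⟨m, G, hG, fun s hs => ?_⟩
  rw [hGs s hs]
  congr 1
  have h1 := LS_HA hF D.ha hs
  rw [he, UF.LS_mul hF hK hs] at h1
  exact mul_left_cancel₀ (LS_ne hF hs) h1

/-- **No element is prime.** -/
theorem no_prime {F : ArithmeticFunction ℂ} (hF : UF.S F) (h1 : F ≠ 1) :
    ∃ F₁ F₂ G : ArithmeticFunction ℂ, UF.S F₁ ∧ UF.S F₂ ∧ UF.S G ∧ F₁ * F₂ = F * G ∧
      (¬ ∃ K, UF.S K ∧ F₁ = F * K) ∧ (¬ ∃ K, UF.S K ∧ F₂ = F * K) := by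
  obtain ⟨d, e1, e2, ⟨m, G, hc, Q, k, lam, μ, ω, hQ, hFE, hd⟩, e4⟩ := Pool.Agent.H177R3.PFV.ss_cls hF
  have hdeg := UF.degree_ge hF h1 (d := d) ⟨e1, e2, ⟨m, G, hc, Q, k, lam, μ, ω, hQ, hFE, hd⟩, e4⟩
  rcases k with _ | k
  · rw [hd] at hdeg; simp at hdeg; linarith
  obtain ⟨Q', ω', hQ', hFE'⟩ := fe_dup hQ hFE
  have hl0 := hFE.1 0
  have hμ0 := hFE.2.1 0
  set l := lam 0 / 2 with hl
  have hlp : 0 < l := by rw [hl]; linarith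
  obtain ⟨ρ, hρ, hρ1, hρ2⟩ := exists_irrational_btwn (show 1 + 3 / l < 1 + 4 / l by
    have : 3 / l < 4 / l := div_lt_div_of_pos_right (by norm_num) hlp
    linarith)
  set L := l * ρ with hL
  have hLl : L / l = ρ := by rw [hL]; field_simp
  have hLl' : Irrational (L / l) := by rw [hLl]; exact hρ
  have hL3 : 3 < L - l := by
    have h2 : (1 + 3 / l) * l < ρ * l := mul_lt_mul_of_pos_right hρ1 hlp
    have h3 : (1 + 3 / l) * l = l + 3 := by field_simp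
    rw [hL]; nlinarith
  have hLp : 0 < L := by linarith
  have hν1 : 0 ≤ (μ 0 / 2).re := by
    have e : (μ 0 / 2).re = (μ 0).re / 2 := by
      rw [show (2:ℂ) = ((2:ℝ):ℂ) by norm_num, Complex.div_ofReal_re]
    rw [e]; linarith
  have hν2 : 0 ≤ ((μ 0 + 1) / 2).re := by
    have e : ((μ 0 + 1) / 2).re = ((μ 0).re + 1) / 2 := by
      rw [show (2:ℂ) = ((2:ℝ):ℂ) by norm_num, Complex.div_ofReal_re]; simp
    rw [e]; linarith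
  obtain ⟨Q₁, a₁, Λ₁, D₁⟩ := exists_HD hLp hlp hν1 (by nlinarith)
  obtain ⟨Q₂, a₂, Λ₂, D₂⟩ := exists_HD hLp hlp hν2 (by nlinarith)
  obtain ⟨G₁, c₁, f₁⟩ := mulA hF hc hQ' hFE' 0 D₁ (by simp [l2, hl]) (by simp [m2])
  obtain ⟨G₂, c₂, f₂⟩ := mulA hF hc hQ' hFE' 1 D₂ (by simp [l2, hl]) (by simp [m2])
  have s₁ := Pool.Agent.H177R3.PFV.cls_ss (mul_S hF D₁.ha c₁ (mul_pos hQ' D₁.hQ) f₁)
  have s₂ := Pool.Agent.H177R3.PFV.cls_ss (mul_S hF D₂.ha c₂ (mul_pos hQ' D₂.hQ) f₂)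
  obtain ⟨G₃, c₃, f₃⟩ := mulA (f := F * HA a₁) s₁ c₁ (mul_pos hQ' D₁.hQ) f₁ 1 D₂
    (by rw [Function.update_of_ne (by simp)]; simp [l2, hl]) (by rw [Function.update_of_ne (by simp)]; simp [m2])
  have s₃ := Pool.Agent.H177R3.PFV.cls_ss (mul_S (f := F * HA a₁) s₁ D₂.ha c₃ (mul_pos (mul_pos hQ' D₁.hQ) D₂.hQ) f₃)
  exact ⟨F * HA a₁, F * HA a₂, F * HA a₁ * HA a₂, s₁, s₂, s₃, by ring, D₁.not_dvd hLl' hF, D₂.not_dvd hLl' hF⟩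

end Pool.Agent.H483.NP
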