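import Pool.Agent.H483.NP.Avoid

set_option autoImplicit false

/-!
# The completed function of an element of the class is bounded in vertical strips
-/

namespace Pool.Agent.H483.NP

open Set Filter Topology Complex Asymptotics
open Pool.Agent.H483.FE Pool.Agent.H483.SA Pool.Agent.H483.ZP Pool.Agent.H336R4
open scoped ComplexConjugate

/-- polynomials are smaller than exponentials -/
lemma poly_exp (C K c : ℝ) (hC : 0 ≤ C) (hK : 0 ≤ K) (hc : 0 < c) (n : ℕ) :
    ∃ B : ℝ, ∀ x : ℝ, 0 ≤ x → C * (K + x) ^ n ≤ B * Real.exp (c * x) := by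
  have h1 : Tendsto (fun x : ℝ => C * (K + x) ^ n * Real.exp (-(c * x))) atTop (𝓝 0) := by
    have h2 : Tendsto (fun x : ℝ => C * ((K + x) ^ n * Real.exp (-c * (K + x))) * Real.exp (c * K)) atTop (𝓝 (C * 0 * Real.exp (c * K))) := by
      apply Tendsto.mul_const
      apply Tendsto.const_mul
      have h3 := Real.tendsto_pow_mul_exp_neg_atTop_nhds_zero n
      have h4 := tendsto_rpow_mul_exp_neg_mul_atTop_nhds_zero (n : ℝ) c hc
      have h5 : Tendsto (fun x : ℝ => K + x) atTop atTop := tendsto_atTop_add_const_left _ _ tendsto_id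
      have h6 := h4.comp h5
      refine h6.congr fun x => ?_
      simp only [Function.comp_apply, Real.rpow_natCast]
    rw [mul_zero, zero_mul] at h2
    refine h2.congr fun x => ?_
    rw [show C * ((K + x) ^ n * Real.exp (-c * (K + x))) * Real.exp (c * K) =
      C * (K + x) ^ n * (Real.exp (-c * (K + x)) * Real.exp (c * K)) by ring, ← Real.exp_add]
    congr 2
    ring
  obtain ⟨T, hT⟩ := (h1.eventually (gt_mem_nhds (one_pos))).exists_forall_of_atTop
  refine ⟨1 + C * (K + |T|) ^ n, fun x hx => ?_⟩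
  have hp : 0 < Real.exp (c * x) := Real.exp_pos _
  have hp1 : 1 ≤ Real.exp (c * x) := Real.one_le_exp (by positivity)
  have hpn : 0 ≤ C * (K + |T|) ^ n := by positivity
  rcases le_total T x with h | h
  · have h2 := (hT x h).le
    have h3 : C * (K + x) ^ n = (C * (K + x) ^ n * Real.exp (-(c * x))) * Real.exp (c * x) := by
      rw [mul_assoc, ← Real.exp_add]; simp
    rw [h3]
    apply mul_le_mul_of_nonneg_right _ hp.le
    linarith
  · have h2 : x ≤ |T| := h.trans (le_abs_self T)
    calc C * (K + x) ^ n ≤ C * (K + |T|) ^ n := by gcongr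
      _ ≤ (1 + C * (K + |T|) ^ n) * 1 := by linarith
      _ ≤ _ := by
        apply mul_le_mul_of_nonneg_left hp1
        linarith

/-- **Boundedness in vertical strips** from symmetry and a bound to the right. -/
theorem SB_of {X : ℂ → ℂ} (hX : Differentiable ℂ X) (hF : Fo X) (hs : ∀ s, X (1 - conj s) = conj (X s))
    (hb : ∀ b : ℝ, 2 ≤ b → ∃ C : ℝ, ∀ s : ℂ, s.re = b → ‖X s‖ ≤ C) : SB X := by
  intro a b'
  set b : ℝ := max 2 (max b' (1 - a)) with hbdef
  have hb2 : 2 ≤ b := le_max_left _ _
  have hbb' : b' ≤ b := (le_max_left _ _).trans (le_max_right _ _)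
  have hba : 1 - a ≤ b := (le_max_right _ _).trans (le_max_right _ _)
  obtain ⟨C, hC⟩ := hb b hb2
  refine ⟨C, fun s h1 h2 => ?_⟩
  obtain ⟨A, k, hA, hAk⟩ := hF
  have hpi : 0 < Real.pi / (b - (1 - b)) := div_pos Real.pi_pos (by linarith)
  set c0 := Real.pi / (b - (1 - b)) / 2 with hc0
  have hc00 : 0 < c0 := by positivity
  obtain ⟨B, hB⟩ := poly_exp A (1 + b) c0 hA (by linarith) hc00 k
  refine PhragmenLindelof.vertical_strip (a := 1 - b) (b := b) hX.diffContOnCl ⟨c0, by linarith, B, ?_⟩ ?_ ?_
    (by linarith) (by linarith)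
  · apply IsBigO.of_bound 1
    rw [eventually_inf_principal]
    refine Eventually.of_forall fun z hz => ?_
    have hz1 : 1 - b < z.re := hz.1
    have hz2 : z.re < b := hz.2
    rw [Real.norm_eq_abs, Real.abs_exp, one_mul]
    refine (hAk z).trans (Real.exp_le_exp.2 ?_)
    refine le_trans ?_ (hB |z.im| (abs_nonneg _))
    have h3 : ‖z‖ ≤ b + |z.im| := by
      refine (Complex.norm_le_abs_re_add_abs_im z).trans ?_
      have : |z.re| ≤ b := abs_le.2 ⟨by linarith, hz2.le⟩
      linarith
    have h4 := norm_nonneg z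
    exact mul_le_mul_of_nonneg_left (pow_le_pow_left₀ (by linarith) (by linarith) k) hA
  · intro z hz
    have h3 : (1 - conj z).re = b := by simp [hz]
    have h4 := hC _ h3
    rw [hs z, Complex.norm_conj] at h4
    exact h4
  · intro z hz
    exact hC z hz

end Pool.Agent.H483.NP
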