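import Pool.Agent.H483.NP.Strip

set_option autoImplicit false

/-!
# `F H` does not vanish at the zeros of `F`
-/

namespace Pool.Agent.H483.NP

open Set Filter Topology Complex Asymptotics
open Pool.Agent.H483.FE Pool.Agent.H483.SA Pool.Agent.H483.ZP Pool.Agent.H336R4
open scoped ComplexConjugate

variable {r r' : ℕ}

/-- the symmetric entire completed function of an element with at least one gamma factor -/
theorem exists_X {f : ArithmeticFunction ℂ} (hf : UF.S f) {m : ℕ} {G : ℂ → ℂ} (hc : PF.Cont (fun n => f n) m G) {Q : ℝ}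
    (hQ : 0 < Q) {l : Fin r' → ℝ} {ν : Fin r' → ℂ} {ω : ℂ} (hFE : PF.FE m G Q r' l ν ω) (hr : 0 < ∑ j, l j) :
    ∃ (κ : ℂ) (X : ℂ → ℂ), ‖κ‖ = 1 ∧ Differentiable ℂ X ∧ Fo X ∧ (∀ s, X (1 - conj s) = conj (X s)) ∧ SB X ∧
      (∃ s, X s ≠ 0) ∧
      ∀ s : ℂ, 0 < s.re → X s = κ * (Q : ℂ) ^ s * (s ^ m * G s * (∏ j, Complex.Gamma ((l j : ℂ) * s + ν j))) := by
  have hQ0 : (Q : ℂ) ≠ 0 := by exact_mod_cast hQ.ne'
  obtain ⟨hG1, hG2, hG3⟩ := id hc
  obtain ⟨V, hV1, hV2, hV3⟩ := ext_full hG1 (Fo.of_order hG1.continuous hG2) hQ hFE.1 hFE.2.1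
    (PF.fex m G hG1 Q r' _ _ ω hQ hFE)
  obtain ⟨κ, hκ, hκω⟩ := exists_root hFE.2.2.1
  have hκ0 : κ ≠ 0 := by rintro rfl; simp at hκ
  have hκc : conj κ ≠ 0 := by simpa using hκ0
  have hcp : Differentiable ℂ fun s : ℂ => (Q : ℂ) ^ s := fun s =>
    DifferentiableAt.const_cpow (by fun_prop) (Or.inl hQ0)
  have hcpF : Fo fun s : ℂ => (Q : ℂ) ^ s := by
    have := Fo.cpow hQ 1 0
    refine Fo.norm_le this fun s => le_of_eq ?_
    congr 2; ring
  set X : ℂ → ℂ := fun s => κ * (Q : ℂ) ^ s * V s with hX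
  have hXd : Differentiable ℂ X := (hcp.const_mul κ).mul hV1
  have hXF : Fo X := ((Fo.const κ).mul hcpF).mul hV2
  have hXe : ∀ s : ℂ, 0 < s.re → X s = κ * (Q : ℂ) ^ s * (s ^ m * G s * (∏ j, Complex.Gamma ((l j : ℂ) * s + ν j))) := by
    intro s hs
    rw [hX]
    beta_reduce
    rw [hV3 s hs]
  -- symmetry in the strip
  have hstrip : ∀ s : ℂ, 0 < s.re → s.re < 1 → X (1 - conj s) = conj (X s) := by
    intro s hs0 hs1
    have h4 := hFE.2.2.2 s hs0 hs1
    have hs' : 0 < (1 - conj s).re := by simp; linarith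
    have hn1 : s - 1 ≠ 0 := by
      intro h
      have := sub_eq_zero.1 h
      rw [this] at hs1
      norm_num at hs1
    have hn0 : s ≠ 0 := by rintro rfl; simp at hs0
    have hp1 : (s - 1) ^ m ≠ 0 := pow_ne_zero _ hn1
    have hn1' : (1 - conj s) - 1 ≠ 0 := by
      intro h
      have : conj s = 0 := by linear_combination -h
      rw [map_eq_zero] at this
      exact hn0 this
    have hp1' : ((1 - conj s) - 1) ^ m ≠ 0 := pow_ne_zero _ hn1'
    rw [hXe s hs0, hXe _ hs']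
    set P := ∏ j, Complex.Gamma ((l j : ℂ) * s + ν j) with hP
    set P' := ∏ j, Complex.Gamma ((l j : ℂ) * (1 - conj s) + ν j) with hP'
    have h5 : conj ((Q : ℂ) ^ s * P * (G s / (s - 1) ^ m)) = conj ω * ((Q : ℂ) ^ (1 - conj s) * P' *
        (G (1 - conj s) / ((1 - conj s) - 1) ^ m)) := by
      rw [h4, map_mul, Complex.conj_conj]
    have h6 : conj ω = κ / conj κ := by
      rw [← hκω, map_div₀, Complex.conj_conj]
    rw [h6] at h5
    have e1 : κ * (Q : ℂ) ^ s * (s ^ m * G s * P) = κ * ((Q : ℂ) ^ s * P * (G s / (s - 1) ^ m)) * (s * (s - 1)) ^ m := by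
      rw [mul_pow]; field_simp
    have e2 : κ * (Q : ℂ) ^ (1 - conj s) * ((1 - conj s) ^ m * G (1 - conj s) * P') =
        κ * ((Q : ℂ) ^ (1 - conj s) * P' * (G (1 - conj s) / ((1 - conj s) - 1) ^ m)) * ((1 - conj s) * ((1 - conj s) - 1)) ^ m := by
      rw [mul_pow]; field_simp
    rw [e1, e2, map_mul, map_mul, h5]
    have e3 : conj ((s * (s - 1)) ^ m) = ((1 - conj s) * ((1 - conj s) - 1)) ^ m := by
      rw [map_pow]
      congr 1
      simp only [map_mul, map_sub, map_one]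
      ring
    rw [e3]
    field_simp
  -- symmetry everywhere
  have hsym : ∀ s, X (1 - conj s) = conj (X s) := by
    have h1 : AnalyticOnNhd ℂ X univ := fun z _ => hXd.analyticAt z
    have hd : Differentiable ℂ (fun s => conj (X (1 - conj s))) := diff_reflect hXd
    have h2 : AnalyticOnNhd ℂ (fun s => conj (X (1 - conj s))) univ := fun z _ => hd.analyticAt z
    have key : X = fun s => conj (X (1 - conj s)) := by
      refine h1.eq_of_eventuallyEq h2 (z₀ := (1 / 2 : ℂ)) ?_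
      have ho : IsOpen {z : ℂ | 0 < z.re ∧ z.re < 1} :=
        (isOpen_lt continuous_const Complex.continuous_re).inter (isOpen_lt Complex.continuous_re continuous_const)
      have hm : (1 / 2 : ℂ) ∈ {z : ℂ | 0 < z.re ∧ z.re < 1} := by
        constructor <;> norm_num
      filter_upwards [ho.mem_nhds hm] with s hs
      rw [hstrip s hs.1 hs.2, Complex.conj_conj]
    intro s
    have h3 := congrFun key s
    beta_reduce at h3
    rw [h3, Complex.conj_conj]
  -- bounds to the right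
  have hser : ∃ C : ℝ, ∀ s : ℂ, 2 ≤ s.re → ‖LSeries (fun n => f n) s‖ ≤ C := by
    have h := hf.sum (s := 2) (by norm_num)
    refine ⟨∑' n, ‖LSeries.term (fun n => f n) 2 n‖, fun s hs => ?_⟩
    unfold LSeries
    apply tsum_of_norm_bounded h.norm.hasSum
    intro n
    exact LSeries.norm_term_le_of_re_le_re (fun n => f n) (by simpa using hs) n
  obtain ⟨CL, hCL⟩ := hser
  have hright : ∀ b : ℝ, 2 ≤ b → ∃ C : ℝ, ∀ s : ℂ, s.re = b → ‖X s‖ ≤ C := by
    intro b hb
    obtain ⟨C, δ, hδ, hC⟩ := decay_of_UpB (gm_UpB 1 ν hFE.1) hr (fun s hs => gm_diff 1 hFE.1 hFE.2.1 hs) b b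
      (by linarith) le_rfl
    obtain ⟨B, hB⟩ := poly_exp 1 (1 + b) δ zero_le_one (by linarith) hδ (2 * m)
    refine ⟨Q ^ b * (|C| * (|CL| * B)), fun s hs => ?_⟩
    have hs0 : 0 < s.re := by linarith
    rw [hXe s hs0, hG3 s (by linarith)]
    have h1 := hC s hs.ge hs.le
    have h1' : ‖∏ j, Complex.Gamma ((l j : ℂ) * s + ν j)‖ ≤ |C| * Real.exp (-δ * |s.im|) := by
      have : gm 1 l ν s = ∏ j, Complex.Gamma ((l j : ℂ) * s + ν j) := by unfold gm; rw [one_mul]
      rw [← this]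
      exact h1.trans (mul_le_mul_of_nonneg_right (le_abs_self _) (Real.exp_pos _).le)
    have h2 : ‖s‖ ≤ 1 + b + |s.im| := by
      refine (Complex.norm_le_abs_re_add_abs_im s).trans ?_
      rw [hs, abs_of_nonneg (by linarith)]
      linarith
    have h3 : ‖s - 1‖ ≤ 1 + b + |s.im| := by
      refine (Complex.norm_le_abs_re_add_abs_im (s - 1)).trans ?_
      have e1 : (s - 1).re = b - 1 := by simp [hs]
      have e2 : (s - 1).im = s.im := by simp
      rw [e1, e2, abs_of_nonneg (by linarith)]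
      linarith
    have h4 := hB |s.im| (abs_nonneg _)
    have h5 := (hCL s (by linarith)).trans (le_abs_self CL)
    have hnn : 0 ≤ 1 + b + |s.im| := by positivity
    rw [norm_mul, norm_mul, hκ, one_mul, norm_mul, norm_mul, norm_mul, norm_pow, norm_pow,
      Complex.norm_cpow_eq_rpow_re_of_pos hQ, hs]
    calc Q ^ b * (‖s‖ ^ m * (‖s - 1‖ ^ m * ‖LSeries (fun n => f n) s‖) * ‖∏ j, Complex.Gamma ((l j : ℂ) * s + ν j)‖) ≤
        Q ^ b * ((1 + b + |s.im|) ^ m * ((1 + b + |s.im|) ^ m * |CL|) * (|C| * Real.exp (-δ * |s.im|))) := by gcongr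
      _ = Q ^ b * (|C| * (|CL| * ((1 * (1 + b + |s.im|) ^ (2 * m)) * Real.exp (-δ * |s.im|)))) := by
          rw [two_mul m, pow_add]; ring
      _ ≤ Q ^ b * (|C| * (|CL| * ((B * Real.exp (δ * |s.im|)) * Real.exp (-δ * |s.im|)))) := by gcongr
      _ = _ := by
          rw [mul_assoc B, ← Real.exp_add]
          have : δ * |s.im| + -δ * |s.im| = 0 := by ring
          rw [this, Real.exp_zero, mul_one]
  refine ⟨κ, X, hκ, hXd, hXF, hsym, SB_of hXd hXF hsym hright, ⟨2, ?_⟩, hXe⟩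
  have h2 : (0:ℝ) < (2:ℂ).re := by norm_num
  rw [hXe 2 h2, hG3 2 (by norm_num)]
  refine mul_ne_zero (mul_ne_zero hκ0 ?_) (mul_ne_zero (mul_ne_zero (pow_ne_zero _ two_ne_zero)
    (mul_ne_zero (pow_ne_zero _ (by norm_num)) (LS_ne hf (by norm_num)))) ?_)
  · rw [Ne, Complex.cpow_eq_zero_iff]; tauto
  · exact Finset.prod_ne_zero_iff.2 fun j _ => gamma_pos_ne (hFE.1 j) (hFE.2.1 j) h2

end Pool.Agent.H483.NP
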